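import Pool.Agent.Work.MP_d4a4cd_h25.Interp

/-!
# The theorem on all diagonals
-/

set_option autoImplicit false
set_option linter.unusedSectionVars false

namespace Pool.Agent.LuckyDiag

open Finset Pool.Agent.LuckyStirling

open scoped Polynomial

lemma coeff_G (j n : ℕ) (hn : 1 ≤ n) :
    PowerSeries.coeff n (PowerSeries.X * V j [1]) = (a n (n - j) : ℚ) := by
  obtain ⟨m, rfl⟩ : ∃ m, n = m + 1 := ⟨n - 1, by omega⟩
  rw [PowerSeries.coeff_succ_X_mul, a_eq_T (m + 1) j (by omega), T_nil]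
  simp [V]

lemma coeff_G_zero (j : ℕ) : PowerSeries.coeff 0 (PowerSeries.X * V j [1]) = 0 := by
  simp

/-- the series is determined by a polynomial in `r` -/
theorem diag_poly (j : ℕ) : ∃ B : ℚ[X], B.natDegree ≤ 7 * j + 7 ∧
    rho 1 ^ (5 * j + 4) * (1 + rho 1) * (PowerSeries.X * V (j + 1) [1]) = evp B := by
  obtain ⟨c, b, h⟩ := diag_series j
  set B : ℚ[X] := Polynomial.C (2 * c) * Polynomial.X ^ (5 * j + 4) +
    (Polynomial.X - Polynomial.C (-1)) *
      ∑ k ∈ range (7 * j + 7), Polynomial.C (b k) * Polynomial.X ^ k with hB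
  refine ⟨B, ?_, ?_⟩
  · refine (Polynomial.natDegree_add_le _ _).trans (max_le ?_ ?_)
    · exact (Polynomial.natDegree_C_mul_X_pow_le _ _).trans (by omega)
    · refine Polynomial.natDegree_mul_le.trans ?_
      rw [Polynomial.natDegree_X_sub_C]
      have : (∑ k ∈ range (7 * j + 7), Polynomial.C (b k) * Polynomial.X ^ k).natDegree ≤
          7 * j + 6 := by
        apply Polynomial.natDegree_sum_le_of_forall_le
        intro k hk
        have := mem_range.1 hk
        exact (Polynomial.natDegree_C_mul_X_pow_le _ _).trans (by omega)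
      omega
  · have e1 : evp (∑ k ∈ range (7 * j + 7), Polynomial.C (b k) * Polynomial.X ^ k) =
        rho 1 ^ (5 * j + 4) *
        ∑ k ∈ range (7 * j + 7), PowerSeries.C (b k) * rho ((k : ℤ) - (5 * j + 4 : ℕ)) := by
      unfold evp
      rw [Polynomial.eval₂_finsetSum, mul_sum]
      apply sum_congr rfl
      intro k _
      rw [Polynomial.eval₂_mul, Polynomial.eval₂_C, Polynomial.eval₂_pow, Polynomial.eval₂_X,
        ← rho_sub k (5 * j + 4)]
      ring
    have e2 : evp B = PowerSeries.C (2 * c) * rho 1 ^ (5 * j + 4) + (1 + rho 1) *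
        evp (∑ k ∈ range (7 * j + 7), Polynomial.C (b k) * Polynomial.X ^ k) := by
      rw [hB]
      unfold evp
      rw [Polynomial.eval₂_add, Polynomial.eval₂_mul, Polynomial.eval₂_mul, Polynomial.eval₂_sub,
        Polynomial.eval₂_X, Polynomial.eval₂_C, Polynomial.eval₂_C, Polynomial.eval₂_pow,
        Polynomial.eval₂_X, map_neg, map_one]
      ring
    have e3 : PowerSeries.C (2 * c) = (2 : PowerSeries ℚ) * PowerSeries.C c := by
      rw [map_mul]; rfl
    rw [h, e2, e1, e3]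
    linear_combination (rho 1 ^ (5 * j + 4) * PowerSeries.C c) * one_add_rho_mul

/-- the functions of the diagonal -/
noncomputable def fm (j : ℕ) (c : ℚ) (b : ℕ → ℚ) (n : ℕ) : ℚ :=
  c * catalan n + ∑ k ∈ range (7 * j),
    b k * ((-4) ^ n * Ring.choose (((k : ℚ) + 1 - 5 * j) / 2) n)

lemma coeff_fm (j : ℕ) (c : ℚ) (b : ℕ → ℚ) (n : ℕ) :
    PowerSeries.coeff n (PowerSeries.C c * Cat +
      ∑ k ∈ range (7 * j + 7), PowerSeries.C (b k) * rho ((k : ℤ) - (5 * j + 4 : ℕ))) =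
      fm (j + 1) c b n := by
  unfold fm
  rw [map_add, map_sum, PowerSeries.coeff_C_mul, coeff_Cat]
  congr 1
  apply sum_congr rfl
  intro k _
  rw [PowerSeries.coeff_C_mul, coeff_rho]
  congr 4
  push_cast
  ring

theorem diag_exists_unique (j : ℕ) (hj : 1 ≤ j) : ∃ (c : ℚ) (b : ℕ → ℚ),
    fm j c b 0 = 0 ∧ (∀ n : ℕ, 1 ≤ n → (a n (n - j) : ℚ) = fm j c b n) ∧
    ∀ (c' : ℚ) (b' : ℕ → ℚ), fm j c' b' 0 = 0 →
      (∀ n : ℕ, 1 ≤ n → n ≤ 7 * j → (a n (n - j) : ℚ) = fm j c' b' n) →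
      c' = c ∧ ∀ k < 7 * j, b' k = b k := by
  obtain ⟨i, rfl⟩ : ∃ i, j = i + 1 := ⟨j - 1, by omega⟩
  obtain ⟨c, b, h⟩ := diag_series i
  have h0 : fm (i + 1) c b 0 = 0 := by
    rw [← coeff_fm, ← h, coeff_G_zero]
  have h1 : ∀ n : ℕ, 1 ≤ n → (a n (n - (i + 1)) : ℚ) = fm (i + 1) c b n := by
    intro n hn
    rw [← coeff_fm, ← h, coeff_G _ _ hn]
  refine ⟨c, b, h0, h1, fun c' b' h2 h3 => ?_⟩
  have h4 := indep (5 * i + 4) (7 * i + 6) (by omega) (c' - c) (fun k => b' k - b k) (by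
    rw [PowerSeries.X_pow_dvd_iff]
    intro n hn
    have e1 : PowerSeries.C (c' - c) * Cat + ∑ k ∈ range (7 * i + 6 + 1),
        PowerSeries.C (b' k - b k) * rho ((k : ℤ) - (5 * i + 4 : ℕ)) =
        (PowerSeries.C c' * Cat + ∑ k ∈ range (7 * i + 7), PowerSeries.C (b' k) *
          rho ((k : ℤ) - (5 * i + 4 : ℕ))) -
        (PowerSeries.C c * Cat + ∑ k ∈ range (7 * i + 7), PowerSeries.C (b k) *
          rho ((k : ℤ) - (5 * i + 4 : ℕ))) := by
      simp only [map_sub, sub_mul, sum_sub_distrib]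
      ring
    rw [e1, map_sub, coeff_fm, coeff_fm]
    by_cases hn0 : n = 0
    · rw [hn0, h2, h0, sub_zero]
    · rw [← h1 n (by omega), ← h3 n (by omega) (by omega), sub_self])
  refine ⟨by linarith [h4.1], fun k hk => ?_⟩
  have := h4.2 k (by omega)
  linarith

theorem diag_closed (j : ℕ) (hj : 1 ≤ j) : ∃ P Q : ℚ[X],
    P.natDegree ≤ (5 * j - 3) / 2 ∧ Q.natDegree ≤ 7 * j / 2 ∧ ∀ n : ℕ, j < n →
      (a n (n - j) : ℚ) = P.eval (n : ℚ) * 4 ^ n + Q.eval (n : ℚ) * Nat.centralBinom n /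
        (((n : ℚ) + 1) * ∏ l ∈ range j, ((2 : ℚ) * n - (2 * l + 1))) := by
  obtain ⟨c, b, _, h1, _⟩ := diag_exists_unique j hj
  have h2 : QF j ((5 * j - 3) / 2) (7 * j / 2) (fun n => fm j c b n) := by
    unfold fm
    apply QF.add
    · exact (QF_catalan j _ _ (by omega)).smul c
    · apply QF.sum
      intro k hk
      have hk' := mem_range.1 hk
      have h3 := QF_u j ((k : ℤ) + 1 - 5 * j) (by omega) (by omega)
      have h4 := h3.smul (b k)
      unfold u at h4
      push_cast at h4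
      exact h4
  obtain ⟨P, Q, hP, hQ, h⟩ := h2
  refine ⟨P, Q, hP, hQ, fun n hn => ?_⟩
  rw [h1 n (by omega)]
  exact h n hn

theorem diag_interp (j N : ℕ) (hj : 1 ≤ j) (hN : 1 ≤ N) : (a N (N - j) : ℤ) =
    ∑ m ∈ Icc 1 (min (7 * j) N),
      (∑ n ∈ Icc 1 m, (a n (n - j) : ℤ) *
        ((1 - Polynomial.X) ^ (n + 1) * (1 - 2 * Polynomial.X) ^ (5 * j - 1) : ℤ[X]).coeff
          (m - n)) *
      ∑ i ∈ range (N - m + 1), (((5 * j - 3 + i).choose i * 2 ^ i *
        (2 * N + 1 - m - i).choose (N - m - i) : ℕ) : ℤ) := by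
  obtain ⟨i, rfl⟩ : ∃ i, j = i + 1 := ⟨j - 1, by omega⟩
  obtain ⟨B, hB, h⟩ := diag_poly i
  have h1 := interp_aux (5 * i + 2) (7 * i + 7) (PowerSeries.X * V (i + 1) [1]) B hB h N
  rw [coeff_G _ _ hN] at h1
  have hpc : ∀ m : ℕ, pc (5 * i + 2 + 2) (fun n => PowerSeries.coeff n
      (PowerSeries.X * V (i + 1) [1])) m = ((∑ n ∈ Icc 1 m, (a n (n - (i + 1)) : ℤ) *
        ((1 - Polynomial.X) ^ (n + 1) * (1 - 2 * Polynomial.X) ^ (5 * (i + 1) - 1) : ℤ[X]).coeff
          (m - n) : ℤ) : ℚ) := by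
    intro m
    unfold pc
    have e1 : Icc 1 m ⊆ range (m + 1) := by
      intro x hx
      rw [mem_Icc] at hx
      rw [mem_range]
      omega
    rw [← sum_subset e1]
    · push_cast
      apply sum_congr rfl
      intro n hn
      rw [mem_Icc] at hn
      rw [coeff_G _ _ hn.1]
      congr 1
      have e2 : 5 * (i + 1) - 1 = 5 * i + 2 + 2 := by omega
      rw [e2]
      have e3 := Polynomial.coeff_map (Int.castRingHom ℚ)
        (p := ((1 - Polynomial.X) ^ (n + 1) * (1 - 2 * Polynomial.X) ^ (5 * i + 2 + 2) : ℤ[X]))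
        (m - n)
      rw [Polynomial.map_mul, Polynomial.map_pow, Polynomial.map_pow, Polynomial.map_sub,
        Polynomial.map_sub, Polynomial.map_mul, Polynomial.map_one, Polynomial.map_X,
        Polynomial.map_ofNat] at e3
      exact e3
    · intro n hn hn'
      rw [mem_range] at hn
      rw [mem_Icc] at hn'
      have : n = 0 := by omega
      simp only [this]
      rw [coeff_G_zero, zero_mul]
  have hR : ∀ m ≤ N, (Rs (5 * i + 2) (m + 1) (N - m) : ℚ) =
      ((∑ l ∈ range (N - m + 1), (((5 * (i + 1) - 3 + l).choose l * 2 ^ l *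
        (2 * N + 1 - m - l).choose (N - m - l) : ℕ) : ℤ) : ℤ) : ℚ) := by
    intro m hm
    unfold Rs
    push_cast
    apply sum_congr rfl
    intro l hl
    have hl' := mem_range.1 hl
    have e1 : 5 * (i + 1) - 3 + l = 5 * i + 2 + l := by omega
    have e2 : 2 * (N - m) - l + (m + 1) = 2 * N + 1 - m - l := by omega
    rw [e1, e2]
  have hfin : (a N (N - (i + 1)) : ℚ) = ((∑ m ∈ Icc 1 (min (7 * (i + 1)) N),
      (∑ n ∈ Icc 1 m, (a n (n - (i + 1)) : ℤ) *
        ((1 - Polynomial.X) ^ (n + 1) * (1 - 2 * Polynomial.X) ^ (5 * (i + 1) - 1) : ℤ[X]).coeff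
          (m - n)) *
      ∑ l ∈ range (N - m + 1), (((5 * (i + 1) - 3 + l).choose l * 2 ^ l *
        (2 * N + 1 - m - l).choose (N - m - l) : ℕ) : ℤ) : ℤ) : ℚ) := by
    rw [h1]
    have e1 : Icc 1 (min (7 * (i + 1)) N) ⊆ range (7 * i + 7 + 1) := by
      intro x hx
      rw [mem_Icc] at hx
      rw [mem_range]
      omega
    rw [← sum_subset e1]
    · rw [Int.cast_sum]
      apply sum_congr rfl
      intro m hm
      rw [mem_Icc] at hm
      rw [hpc, if_pos (by omega), hR m (by omega), Int.cast_mul]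
    · intro m hm hm'
      rw [mem_range] at hm
      rw [mem_Icc] at hm'
      by_cases hm0 : m = 0
      · rw [hm0, hpc]
        simp
      · rw [if_neg (by omega), mul_zero]
  have hz : ((a N (N - (i + 1)) : ℤ) : ℚ) = (a N (N - (i + 1)) : ℚ) := by norm_cast
  rw [← hz] at hfin
  exact_mod_cast hfin

end Pool.Agent.LuckyDiag
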