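import Mathlib

/-!
# One-variable facts: binomial coefficients times powers of the Catalan series
-/

set_option autoImplicit false
set_option linter.unusedSectionVars false

namespace Pool.Agent.LuckyDiag

open Finset

lemma choose_succ_sum (s a : ℕ) :
    (a + 1 + s).choose s = ∑ t ∈ range (s + 1), (a + t).choose t := by
  induction s with
  | zero => simp
  | succ s ih =>
    rw [sum_range_succ, ← ih]
    have h : a + 1 + (s + 1) = (a + 1 + s) + 1 := by ring
    have h2 : a + (s + 1) = a + 1 + s := by ring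
    rw [h, h2, Nat.choose_succ_succ]

lemma choose_conv (s t a : ℕ) :
    ∑ i ∈ range (a + 1), (i + s).choose s * ((a - i) + t).choose t =
      (a + (s + t + 1)).choose (s + t + 1) := by
  have h := congrArg (fun u : (PowerSeries ℤ)ˣ => PowerSeries.coeff a (u : PowerSeries ℤ))
    (PowerSeries.invOneSubPow_add ℤ (s + 1) (t + 1))
  have h1 : s + 1 + (t + 1) = (s + t + 1) + 1 := by ring
  simp only [h1, Units.val_mul, PowerSeries.invOneSubPow_val_succ_eq_mk_add_choose,
    PowerSeries.coeff_mul, PowerSeries.coeff_mk] at h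
  rw [Finset.Nat.sum_antidiagonal_eq_sum_range_succ
    (fun i j => (((s + i).choose s : ℕ) : ℤ) * (((t + j).choose t : ℕ) : ℤ))] at h
  have h2 : ((a + (s + t + 1)).choose (s + t + 1) : ℤ) =
      ∑ i ∈ range (a + 1), ((i + s).choose s : ℤ) * (((a - i) + t).choose t : ℤ) := by
    rw [add_comm a, h]
    apply sum_congr rfl
    intro i _
    rw [add_comm s i, add_comm t]
  exact_mod_cast h2.symm

lemma choose_vand (y z s : ℕ) :
    (y + 1 + z + s).choose s =
      ∑ i ∈ range (s + 1), (y + i).choose i * (z + (s - i)).choose (s - i) := by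
  have h := choose_conv y z s
  have h1 : (s + (y + z + 1)).choose (y + z + 1) = (y + 1 + z + s).choose s := by
    have h3 : y + 1 + z + s = s + (y + z + 1) := by ring
    rw [h3]
    exact (Nat.choose_symm_add).symm
  rw [← h1, ← h]
  apply sum_congr rfl
  intro i _
  have h4 : (i + y).choose y = (y + i).choose i := by
    rw [add_comm i y]; exact Nat.choose_symm_add
  have h5 : (s - i + z).choose z = (z + (s - i)).choose (s - i) := by
    rw [add_comm (s - i) z]; exact Nat.choose_symm_add
  rw [h4, h5]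

section
variable {K : Type*} [Field K] [CharZero K] (r : K)

/-- The Catalan series `2 / (1 + r)`. -/
def Cc : K := 2 / (1 + r)

/-- The variable `(1 - r ^ 2) / 4`. -/
def xx : K := (1 - r ^ 2) / 4

/-- `binom (a + s) s * C ^ a` -/
def Z (s a : ℕ) : K := ((a + s).choose s : K) * Cc r ^ a

lemma Z_zero_right (s : ℕ) : Z r s 0 = 1 := by
  simp [Z]

lemma Z_succ_right (s a : ℕ) : Z r s (a + 1) = Cc r * ∑ t ∈ range (s + 1), Z r t a := by
  unfold Z
  rw [choose_succ_sum, pow_succ, mul_sum]
  push_cast
  rw [sum_mul]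
  apply sum_congr rfl
  intro t _
  ring

lemma Z_conv (s t a : ℕ) :
    ∑ i ∈ range (a + 1), Z r s i * Z r t (a - i) = Z r (s + t + 1) a := by
  unfold Z
  rw [← choose_conv]
  push_cast
  rw [sum_mul]
  apply sum_congr rfl
  intro i hi
  have hi' := mem_range.1 hi
  have h : Cc r ^ a = Cc r ^ i * Cc r ^ (a - i) := by
    rw [← pow_add]; congr 1; omega
  rw [h]
  ring

lemma Z_vand (s y z : ℕ) :
    Z r s (y + 1 + z) = Cc r * ∑ i ∈ range (s + 1), Z r i y * Z r (s - i) z := by
  unfold Z
  rw [choose_vand, mul_sum]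
  push_cast
  rw [sum_mul]
  apply sum_congr rfl
  intro i _
  rw [pow_add, pow_add]
  ring

lemma Z_mul (s a : ℕ) : (a : K) * Z r s a = (s + 1) * Z r (s + 1) a - (s + 1) * Z r s a := by
  unfold Z
  have h := Nat.add_one_mul_choose_eq (a + s) s
  have h2 : a + (s + 1) = a + s + 1 := rfl
  rw [h2]
  have h3 : ((a : K) + s + 1) * ((a + s).choose s : K) =
      ((a + s + 1).choose (s + 1) : K) * (s + 1) := by
    exact_mod_cast h
  linear_combination Cc r ^ a * h3

/-- partial sums -/
def SZ (s a : ℕ) : K := ∑ b ∈ range (a + 1), Z r s b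

lemma SZ_zero_right (s : ℕ) : SZ r s 0 = 1 := by
  simp [SZ, Z_zero_right]

lemma SZ_succ_right (s a : ℕ) : SZ r s (a + 1) = SZ r s a + Z r s (a + 1) := by
  unfold SZ
  rw [sum_range_succ]

variable (h1 : 1 - r ≠ 0) (h2 : 1 + r ≠ 0)

include h1 h2 in
lemma SZ_zero_left (a : ℕ) : SZ r 0 a = 2 / (1 - r) * Z r 0 a - (1 + r) / (1 - r) := by
  induction a with
  | zero =>
    rw [SZ_zero_right, Z_zero_right]
    field_simp
    ring
  | succ a ih =>
    rw [SZ_succ_right, ih]
    have h : Z r 0 (a + 1) = Cc r * Z r 0 a := by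
      rw [Z_succ_right]; simp
    rw [h]
    unfold Cc
    field_simp
    ring

include h1 h2 in
lemma SZ_succ_left (s a : ℕ) :
    SZ r (s + 1) a = 2 / (1 - r) * Z r (s + 1) a - (1 + r) / (1 - r) * SZ r s a := by
  induction a with
  | zero =>
    rw [SZ_zero_right, SZ_zero_right, Z_zero_right]
    field_simp
    ring
  | succ a ih =>
    rw [SZ_succ_right, ih, SZ_succ_right]
    have h : Z r (s + 1) (a + 1) = Z r s (a + 1) + Cc r * Z r (s + 1) a := by
      rw [Z_succ_right, Z_succ_right, sum_range_succ _ (s + 1)]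
      ring
    rw [h]
    unfold Cc
    field_simp
    ring

/-- sum of the shifted functions -/
def TS (h : ℕ → K) (a : ℕ) : K := ∑ i ∈ range (a + 1), h (i + 1)

lemma TS_zero (h : ℕ → K) : TS h 0 = h 1 := by simp [TS]

lemma TS_succ (h : ℕ → K) (a : ℕ) : TS h (a + 1) = TS h a + h (a + 2) := by
  unfold TS
  rw [sum_range_succ]

/-- `C * Z` -/
def Y (s a : ℕ) : K := Cc r * Z r s a

lemma Y_succ_right (s a : ℕ) : Y r s (a + 1) = Cc r * ∑ t ∈ range (s + 1), Y r t a := by
  unfold Y
  rw [Z_succ_right, mul_sum]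

lemma Y_zero_right (s : ℕ) : Y r s 0 = Cc r := by
  unfold Y
  rw [Z_zero_right, mul_one]

lemma Y_pascal (s a : ℕ) : Y r (s + 1) (a + 1) = Y r s (a + 1) + Cc r * Y r (s + 1) a := by
  rw [Y_succ_right, Y_succ_right, sum_range_succ _ (s + 1)]
  ring

include h2 in
lemma TY_zero (a : ℕ) : Y r 0 a - xx r * TS (Y r 0) a = 1 := by
  induction a with
  | zero =>
    rw [TS_zero, Y_succ_right]
    simp only [zero_add, sum_range_one, Y_zero_right]
    unfold Cc xx
    field_simp
    ring
  | succ a ih =>
    rw [TS_succ]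
    have e1 : Y r 0 (a + 1) = Cc r * Y r 0 a := by rw [Y_succ_right]; simp
    have e2 : Y r 0 (a + 2) = Cc r * (Cc r * Y r 0 a) := by
      rw [Y_succ_right]; simp [e1]
    rw [e1, e2]
    have e3 : Cc r * Y r 0 a - Y r 0 a - xx r * (Cc r * (Cc r * Y r 0 a)) = 0 := by
      unfold Cc xx
      field_simp
      ring
    linear_combination ih + e3

include h2 in
/-- the recursion for the resolvent -/
lemma TY_succ (s a : ℕ) :
    (1 - r) * (Y r (s + 1) a - xx r * TS (Y r (s + 1)) a) +
      (1 + r) * (Y r s a - xx r * TS (Y r s) a) =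
      (1 - r) + 2 * r * Y r s a - (1 - r) * ∑ t ∈ range s, Y r t a := by
  induction a with
  | zero =>
    have e1 : Y r (s + 1) 1 = Cc r * ((s + 2) * Cc r) := by
      rw [Y_succ_right]; simp only [Y_zero_right, sum_const, card_range, nsmul_eq_mul]
      push_cast; ring
    have e2 : Y r s 1 = Cc r * ((s + 1) * Cc r) := by
      rw [Y_succ_right]; simp only [Y_zero_right, sum_const, card_range, nsmul_eq_mul]
      push_cast; ring
    rw [TS_zero, TS_zero, e1, e2]
    simp only [Y_zero_right, sum_const, card_range, nsmul_eq_mul]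
    unfold Cc xx
    field_simp
    ring
  | succ a ih =>
    rw [TS_succ, TS_succ]
    have p1 := Y_pascal r s a
    have p2 := Y_pascal r s (a + 1)
    have q0 : ∑ t ∈ range s, Y r t a = (1 + r) / 2 * Y r s (a + 1) - Y r s a := by
      rw [Y_succ_right, sum_range_succ]
      unfold Cc
      field_simp
      ring
    have q1 : ∑ t ∈ range s, Y r t (a + 1) = (1 + r) / 2 * Y r s (a + 2) - Y r s (a + 1) := by
      rw [Y_succ_right r s (a + 1), sum_range_succ]
      unfold Cc
      field_simp
      ring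
    rw [q0] at ih
    rw [q1]
    have p2' : Y r (s + 1) (a + 2) = Y r s (a + 2) + Cc r * Y r (s + 1) (a + 1) := p2
    rw [p2', p1]
    have c1 : Cc r - 1 - xx r * Cc r ^ 2 = 0 := by
      unfold Cc xx
      field_simp
      ring
    have c2 : xx r * Cc r = (1 - r) / 2 := by
      unfold Cc xx
      field_simp
      ring
    have c3 : xx r = (1 - r ^ 2) / 4 := rfl
    linear_combination ih + (1 - r) * Y r (s + 1) a * c1 - (1 - r) * Y r s (a + 1) * c2 -
      2 * Y r s (a + 2) * c3

end

end Pool.Agent.LuckyDiag
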