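import Pool.Agent.Work.MP_d4a4cd_h25.Final

/-!
# Closed forms of the coefficients of `(1 - 4 X) ^ (e / 2)`
-/

set_option autoImplicit false
set_option linter.unusedSectionVars false

namespace Pool.Agent.LuckyDiag

open Finset Pool.Agent.LuckyStirling

open scoped Polynomial

/-- the coefficient of `X ^ n` in `(1 - 4 X) ^ (e / 2)` -/
noncomputable def u (e : ℤ) (n : ℕ) : ℚ := (-4) ^ n * Ring.choose ((e : ℚ) / 2) n

lemma u_zero_right (e : ℤ) : u e 0 = 1 := by simp [u]

lemma u_succ (e : ℤ) (n : ℕ) : ((n : ℚ) + 1) * u e (n + 1) = (4 * n - 2 * e) * u e n := by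
  unfold u
  have h := Ring.choose_smul_choose ((e : ℚ) / 2) (Nat.le_succ n)
  have h1 : n.succ - n = 1 := by omega
  rw [h1, Ring.choose_one_right] at h
  have h2 : (n.succ.choose n : ℕ) = n + 1 := Nat.choose_succ_self_right n
  rw [h2, nsmul_eq_mul] at h
  push_cast at h
  rw [pow_succ]
  linear_combination ((-4) ^ n * (-4)) * h

lemma u_shift (e : ℤ) (n : ℕ) : -((e : ℚ) + 2) * u e n = (2 * n - e - 2) * u (e + 2) n := by
  induction n with
  | zero =>
    rw [u_zero_right, u_zero_right]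
    push_cast
    ring
  | succ n ih =>
    have h1 := u_succ e n
    have h2 := u_succ (e + 2) n
    have h3 : (n : ℚ) + 1 ≠ 0 := by positivity
    apply mul_left_cancel₀ h3
    push_cast at h2 ⊢
    linear_combination (-((e : ℚ) + 2)) * h1 + (4 * n - 2 * e) * ih - (2 * (n + 1) - e - 2) * h2

lemma u_neg_two (n : ℕ) : u (-2) n = 4 ^ n := by
  induction n with
  | zero => rw [u_zero_right]; simp
  | succ n ih =>
    have h1 := u_succ (-2) n
    have h3 : (n : ℚ) + 1 ≠ 0 := by positivity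
    apply mul_left_cancel₀ h3
    rw [h1, ih]
    push_cast
    ring

lemma u_neg_one (n : ℕ) : u (-1) n = Nat.centralBinom n := by
  induction n with
  | zero => rw [u_zero_right]; simp
  | succ n ih =>
    have h1 := u_succ (-1) n
    have h2 := Nat.succ_mul_centralBinom_succ n
    have h4 : ((n : ℚ) + 1) * Nat.centralBinom (n + 1) = 2 * (2 * n + 1) * Nat.centralBinom n := by
      exact_mod_cast h2
    have h3 : (n : ℚ) + 1 ≠ 0 := by positivity
    apply mul_left_cancel₀ h3
    rw [h1, ih, h4]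
    push_cast
    ring

/-- negative even exponents -/
lemma u_even (i : ℕ) : ∃ P : ℚ[X], P.natDegree ≤ i ∧ ∀ n : ℕ,
    u (-2 * ((i : ℤ) + 1)) n = P.eval (n : ℚ) * 4 ^ n := by
  induction i with
  | zero =>
    refine ⟨1, by simp, fun n => ?_⟩
    have : (-2 * (((0 : ℕ) : ℤ) + 1)) = -2 := by norm_num
    rw [this, u_neg_two]
    simp
  | succ i ih =>
    obtain ⟨P, hP, h⟩ := ih
    refine ⟨P * (Polynomial.C (1 / ((i : ℚ) + 1)) * (Polynomial.X + Polynomial.C ((i : ℚ) + 1))),
      ?_, fun n => ?_⟩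
    · refine Polynomial.natDegree_mul_le.trans ?_
      have h1 : (Polynomial.C (1 / ((i : ℚ) + 1)) *
          (Polynomial.X + Polynomial.C ((i : ℚ) + 1))).natDegree ≤ 1 := by
        refine (Polynomial.natDegree_C_mul_le _ _).trans ?_
        rw [Polynomial.natDegree_X_add_C]
      omega
    · have h1 := u_shift (-2 * (((i + 1 : ℕ) : ℤ) + 1)) n
      have h2 : -2 * (((i + 1 : ℕ) : ℤ) + 1) + 2 = -2 * ((i : ℤ) + 1) := by push_cast; ring
      rw [h2, h n] at h1
      have h3 : (i : ℚ) + 1 ≠ 0 := by positivity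
      rw [Polynomial.eval_mul, Polynomial.eval_mul, Polynomial.eval_add, Polynomial.eval_C,
        Polynomial.eval_C, Polynomial.eval_X]
      push_cast at h1 ⊢
      field_simp
      linear_combination h1 / 2

/-- negative odd exponents -/
lemma u_odd (i : ℕ) : ∃ P : ℚ[X], P.natDegree ≤ i ∧ ∀ n : ℕ,
    u (-2 * (i : ℤ) - 1) n = P.eval (n : ℚ) * Nat.centralBinom n := by
  induction i with
  | zero =>
    refine ⟨1, by simp, fun n => ?_⟩
    have : (-2 * ((0 : ℕ) : ℤ) - 1) = -1 := by norm_num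
    rw [this, u_neg_one]
    simp
  | succ i ih =>
    obtain ⟨P, hP, h⟩ := ih
    refine ⟨P * (Polynomial.C (1 / (2 * (i : ℚ) + 1)) *
      (Polynomial.C 2 * Polynomial.X + Polynomial.C (2 * (i : ℚ) + 1))), ?_, fun n => ?_⟩
    · refine Polynomial.natDegree_mul_le.trans ?_
      have h1 : (Polynomial.C (1 / (2 * (i : ℚ) + 1)) *
          (Polynomial.C 2 * Polynomial.X + Polynomial.C (2 * (i : ℚ) + 1))).natDegree ≤ 1 := by
        refine (Polynomial.natDegree_C_mul_le _ _).trans ?_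
        exact Polynomial.natDegree_linear_le
      omega
    · have h1 := u_shift (-2 * ((i + 1 : ℕ) : ℤ) - 1) n
      have h2 : -2 * ((i + 1 : ℕ) : ℤ) - 1 + 2 = -2 * (i : ℤ) - 1 := by push_cast; ring
      rw [h2, h n] at h1
      have h3 : 2 * (i : ℚ) + 1 ≠ 0 := by positivity
      rw [Polynomial.eval_mul, Polynomial.eval_mul, Polynomial.eval_add, Polynomial.eval_mul,
        Polynomial.eval_C, Polynomial.eval_C, Polynomial.eval_C, Polynomial.eval_X]
      push_cast at h1 ⊢
      field_simp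
      linear_combination h1

lemma u_zero_left (n : ℕ) : u 0 (n + 1) = 0 := by
  have h : ((0 : ℤ) : ℚ) / 2 = 0 := by norm_num
  unfold u
  rw [h, Ring.choose_zero_succ, mul_zero]

/-- nonnegative even exponents -/
lemma u_even_pos (i n : ℕ) (h : i < n) : u (2 * (i : ℤ)) n = 0 := by
  unfold u
  have h1 : ((2 * (i : ℤ) : ℤ) : ℚ) / 2 = ((i : ℕ) : ℚ) := by push_cast; ring
  rw [h1, Ring.choose_natCast, Nat.choose_eq_zero_of_lt h]
  simp

lemma two_mul_sub_ne (n i : ℕ) : (2 : ℚ) * n - (2 * i + 1) ≠ 0 := by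
  intro h
  have h1 : (2 : ℚ) * n = 2 * i + 1 := by linarith
  have h2 : 2 * n = 2 * i + 1 := by exact_mod_cast h1
  omega

/-- positive odd exponents -/
lemma u_odd_pos (i : ℕ) : ∃ c : ℚ, ∀ n : ℕ,
    u (2 * (i : ℤ) - 1) n * ∏ l ∈ range i, ((2 : ℚ) * n - (2 * l + 1)) =
      c * Nat.centralBinom n := by
  induction i with
  | zero =>
    refine ⟨1, fun n => ?_⟩
    have : (2 * ((0 : ℕ) : ℤ) - 1) = -1 := by norm_num
    rw [this, u_neg_one]
    simp
  | succ i ih =>
    obtain ⟨c, h⟩ := ih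
    refine ⟨-(2 * i + 1) * c, fun n => ?_⟩
    rw [prod_range_succ]
    have h1 := u_shift (2 * (i : ℤ) - 1) n
    have h2 : 2 * (i : ℤ) - 1 + 2 = 2 * ((i + 1 : ℕ) : ℤ) - 1 := by push_cast; ring
    rw [h2] at h1
    have h3 := h n
    push_cast at h1 h3 ⊢
    linear_combination (-(∏ l ∈ range i, ((2 : ℚ) * n - (2 * l + 1)))) * h1 -
      (2 * (i : ℚ) + 1) * h3

/-- common denominator -/
noncomputable def Den (j : ℕ) (n : ℕ) : ℚ := ((n : ℚ) + 1) * ∏ l ∈ range j, ((2 : ℚ) * n - (2 * l + 1))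

lemma Den_ne (j n : ℕ) : Den j n ≠ 0 := by
  unfold Den
  apply mul_ne_zero (by positivity)
  rw [prod_ne_zero_iff]
  intro l _
  exact two_mul_sub_ne n l

/-- closed form -/
def QF (j dP dQ : ℕ) (v : ℕ → ℚ) : Prop :=
  ∃ P Q : ℚ[X], P.natDegree ≤ dP ∧ Q.natDegree ≤ dQ ∧ ∀ n : ℕ, j < n →
    v n = P.eval (n : ℚ) * 4 ^ n + Q.eval (n : ℚ) * Nat.centralBinom n / Den j n

lemma QF.add {j dP dQ : ℕ} {v w : ℕ → ℚ} (hv : QF j dP dQ v) (hw : QF j dP dQ w) :
    QF j dP dQ (fun n => v n + w n) := by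
  obtain ⟨P, Q, hP, hQ, h⟩ := hv
  obtain ⟨P', Q', hP', hQ', h'⟩ := hw
  refine ⟨P + P', Q + Q', (Polynomial.natDegree_add_le _ _).trans (max_le hP hP'),
    (Polynomial.natDegree_add_le _ _).trans (max_le hQ hQ'), fun n hn => ?_⟩
  simp only [h n hn, h' n hn, Polynomial.eval_add]
  ring

lemma QF.smul {j dP dQ : ℕ} {v : ℕ → ℚ} (c : ℚ) (hv : QF j dP dQ v) :
    QF j dP dQ (fun n => c * v n) := by
  obtain ⟨P, Q, hP, hQ, h⟩ := hv
  refine ⟨Polynomial.C c * P, Polynomial.C c * Q, (Polynomial.natDegree_C_mul_le _ _).trans hP,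
    (Polynomial.natDegree_C_mul_le _ _).trans hQ, fun n hn => ?_⟩
  simp only [h n hn, Polynomial.eval_mul, Polynomial.eval_C]
  ring

lemma QF.zero (j dP dQ : ℕ) : QF j dP dQ (fun _ => 0) :=
  ⟨0, 0, by simp, by simp, fun n _ => by simp⟩

lemma QF.sum {j dP dQ : ℕ} {ι : Type*} (t : Finset ι) (v : ι → ℕ → ℚ)
    (h : ∀ i ∈ t, QF j dP dQ (v i)) : QF j dP dQ (fun n => ∑ i ∈ t, v i n) := by
  classical
  induction t using Finset.induction_on with
  | empty => simpa using QF.zero j dP dQ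
  | insert a t ha ih =>
    simp only [sum_insert ha]
    exact (h a (mem_insert_self a t)).add (ih fun i hi => h i (mem_insert_of_mem hi))

/-- polynomial of degree at most the size of the set -/
lemma exists_prod (c : ℚ) (t : Finset ℕ) : ∃ Q : ℚ[X], Q.natDegree ≤ t.card ∧ ∀ n : ℕ,
    Q.eval (n : ℚ) = c * ∏ l ∈ t, ((2 : ℚ) * n - (2 * l + 1)) := by
  refine ⟨Polynomial.C c * ∏ l ∈ t, (Polynomial.C 2 * Polynomial.X +
    Polynomial.C (-(2 * (l : ℚ) + 1))), ?_, fun n => ?_⟩
  · refine (Polynomial.natDegree_C_mul_le _ _).trans ?_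
    refine (Polynomial.natDegree_prod_le _ _).trans ?_
    refine (sum_le_card_nsmul _ _ 1 fun l _ => Polynomial.natDegree_linear_le).trans ?_
    simp
  · rw [Polynomial.eval_mul, Polynomial.eval_C, Polynomial.eval_prod]
    congr 1
    apply prod_congr rfl
    intro l _
    rw [Polynomial.eval_add, Polynomial.eval_mul, Polynomial.eval_C, Polynomial.eval_X,
      Polynomial.eval_C]
    ring

lemma QF_catalan (j dP dQ : ℕ) (h : j ≤ dQ) : QF j dP dQ (fun n => (catalan n : ℚ)) := by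
  obtain ⟨Q, hQ, hQe⟩ := exists_prod 1 (range j)
  refine ⟨0, Q, by simp, hQ.trans (by rw [card_range]; exact h), fun n _ => ?_⟩
  have h1 : ((n : ℚ) + 1) * catalan n = Nat.centralBinom n := by
    exact_mod_cast succ_mul_catalan_eq_centralBinom n
  have h2 := Den_ne j n
  rw [hQe, ← h1, Polynomial.eval_zero, zero_mul, zero_add, eq_div_iff h2]
  unfold Den
  ring

lemma QF_u (j : ℕ) (e : ℤ) (h1 : 1 - 5 * (j : ℤ) ≤ e) (h2 : e ≤ 2 * j) :
    QF j ((5 * j - 3) / 2) (7 * j / 2) (u e) := by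
  rcases Int.even_or_odd' e with ⟨k, hk | hk⟩
  · by_cases hk0 : 0 ≤ k
    · obtain ⟨i, rfl⟩ := Int.eq_ofNat_of_zero_le hk0
      refine ⟨0, 0, by simp, by simp, fun n hn => ?_⟩
      rw [hk, u_even_pos i n (by omega)]
      simp
    · obtain ⟨i, hi⟩ := Int.eq_ofNat_of_zero_le (show 0 ≤ -k - 1 by omega)
      obtain ⟨P, hP, h⟩ := u_even i
      refine ⟨P, 0, hP.trans (by omega), by simp, fun n hn => ?_⟩
      have he : e = -2 * ((i : ℤ) + 1) := by omega
      rw [he, h n]
      simp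
  · by_cases hk0 : 0 ≤ k + 1
    · obtain ⟨i, hi⟩ := Int.eq_ofNat_of_zero_le hk0
      obtain ⟨c, hc⟩ := u_odd_pos i
      obtain ⟨Q, hQ, hQe⟩ := exists_prod c (Ico i j)
      have hij : i ≤ j := by omega
      refine ⟨0, Q * (Polynomial.X + Polynomial.C 1), by simp, ?_, fun n hn => ?_⟩
      · refine Polynomial.natDegree_mul_le.trans ?_
        rw [Polynomial.natDegree_X_add_C]
        rw [Nat.card_Ico] at hQ
        omega
      · have he : e = 2 * (i : ℤ) - 1 := by omega
        rw [he, Polynomial.eval_zero, zero_mul, zero_add, eq_div_iff (Den_ne j n),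
          Polynomial.eval_mul, Polynomial.eval_add, Polynomial.eval_X, Polynomial.eval_C, hQe]
        unfold Den
        rw [← prod_range_mul_prod_Ico _ hij]
        linear_combination (((n : ℚ) + 1) * ∏ l ∈ Ico i j, ((2 : ℚ) * n - (2 * l + 1))) * hc n
    · obtain ⟨i, hi⟩ := Int.eq_ofNat_of_zero_le (show 0 ≤ -k - 1 by omega)
      obtain ⟨P, hP, h⟩ := u_odd i
      obtain ⟨Q, hQ, hQe⟩ := exists_prod 1 (range j)
      refine ⟨0, P * Q * (Polynomial.X + Polynomial.C 1), by simp, ?_, fun n hn => ?_⟩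
      · refine Polynomial.natDegree_mul_le.trans ?_
        rw [Polynomial.natDegree_X_add_C]
        have := Polynomial.natDegree_mul_le (p := P) (q := Q)
        rw [card_range] at hQ
        omega
      · have he : e = -2 * (i : ℤ) - 1 := by omega
        rw [he, h n, Polynomial.eval_zero, zero_mul, zero_add, eq_div_iff (Den_ne j n),
          Polynomial.eval_mul, Polynomial.eval_mul, Polynomial.eval_add, Polynomial.eval_X,
          Polynomial.eval_C, hQe]
        unfold Den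
        ring

end Pool.Agent.LuckyDiag
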