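import Mathlib

/-!
# The power series `(1 - 4 X) ^ (e / 2)`
-/

set_option autoImplicit false

namespace Pool.Agent.LuckyDiag

open PowerSeries

/-- `(1 - 4 X) ^ (e / 2)` -/
noncomputable def rho (e : ℤ) : ℚ⟦X⟧ := rescale (-4 : ℚ) (binomialSeries ℚ ((e : ℚ) / 2))

lemma coeff_rho (e : ℤ) (n : ℕ) : coeff n (rho e) = (-4) ^ n * Ring.choose ((e : ℚ) / 2) n := by
  unfold rho
  rw [coeff_rescale, binomialSeries_coeff]
  simp

lemma rho_add (e e' : ℤ) : rho (e + e') = rho e * rho e' := by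
  unfold rho
  have : (((e + e' : ℤ) : ℚ)) / 2 = (e : ℚ) / 2 + (e' : ℚ) / 2 := by push_cast; ring
  rw [this, binomialSeries_add, map_mul]

lemma rho_zero : rho 0 = 1 := by
  unfold rho
  simp

lemma rho_two : rho 2 = 1 - 4 * X := by
  unfold rho
  have h : ((2 : ℤ) : ℚ) / 2 = ((1 : ℕ) : ℚ) := by norm_num
  rw [h, binomialSeries_nat, pow_one, map_add, map_one, rescale_X]
  rw [map_neg, neg_mul]
  have : (C (4 : ℚ) : ℚ⟦X⟧) = 4 := rfl
  rw [this]
  ring

lemma rho_one_sq : rho 1 ^ 2 = 1 - 4 * X := by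
  rw [sq, ← rho_add]
  exact rho_two

lemma constantCoeff_rho (e : ℤ) : constantCoeff (rho e) = 1 := by
  rw [← coeff_zero_eq_constantCoeff_apply, coeff_rho]
  simp

lemma rho_nat (k : ℕ) : rho k = rho 1 ^ k := by
  induction k with
  | zero => rw [pow_zero]; exact rho_zero
  | succ k ih =>
    push_cast
    rw [rho_add, ih, pow_succ]

lemma rho_sub (k : ℕ) (p : ℕ) : rho 1 ^ p * rho ((k : ℤ) - p) = rho 1 ^ k := by
  rw [← rho_nat, ← rho_nat, ← rho_add]
  congr 1
  ring

/-- The Catalan series. -/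
noncomputable def Cat : ℚ⟦X⟧ := catalanSeries.map (Nat.castRingHom ℚ)

lemma coeff_Cat (n : ℕ) : coeff n Cat = (catalan n : ℚ) := by
  unfold Cat
  simp

lemma Cat_eq : Cat = 1 + X * Cat ^ 2 := by
  unfold Cat
  have h := congrArg (PowerSeries.map (Nat.castRingHom ℚ)) catalanSeries_sq_mul_X_add_one
  rw [map_add, map_mul, map_pow, map_X, map_one] at h
  conv_lhs => rw [← h]
  ring

lemma rho_one_eq : rho 1 = 1 - 2 * X * Cat := by
  have h1 : (rho 1 - (1 - 2 * X * Cat)) * (rho 1 + (1 - 2 * X * Cat)) = 0 := by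
    have h := rho_one_sq
    have h2 := Cat_eq
    linear_combination h + 4 * X * h2
  rcases mul_eq_zero.1 h1 with h | h
  · exact sub_eq_zero.1 h
  · exfalso
    have h3 := congrArg constantCoeff h
    rw [map_add, map_sub, map_mul, map_mul, constantCoeff_rho, constantCoeff_X] at h3
    simp at h3

lemma one_add_rho_mul : (1 + rho 1) * Cat = 2 := by
  rw [rho_one_eq]
  linear_combination 2 * Cat_eq

end Pool.Agent.LuckyDiag
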