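import Pool.Agent.Work.MP_d4a4cd_h25.Unl
import Pool.Agent.Work.MP_d4a4cd_h25.Series
import Pool.Agent.Work.MP_d4a4cd_co_h99.Eval

/-!
# The generating functions of the Markov chain of the marks are in the class
-/

set_option autoImplicit false
set_option linter.unusedSectionVars false

namespace Pool.Agent.LuckyDiag

open Finset Pool.Agent.LuckyStirling

/-- the word with the given blocks -/
def word : List ℕ → List Bool
  | [] => []
  | a :: l => List.replicate a false ++ true :: word l

lemma length_word (l : List ℕ) : (word l).length = l.sum + l.length := by
  induction l with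
  | nil => rfl
  | cons a l ih =>
    rw [word, List.length_append, List.length_replicate, List.length_cons, ih, List.sum_cons,
      List.length_cons]
    ring

lemma word_mrg (a : ℕ) (l : List ℕ) (h : l ≠ []) :
    word (mrg a l) = List.replicate (a + 1) false ++ word l := by
  match l, h with
  | c :: l, _ =>
    rw [mrg, word, word, ← List.append_assoc, List.replicate_append_replicate]

lemma ins_sum {M : Type*} [AddCommMonoid M] (l : List ℕ) : ∀ F : List Bool → M,
    ∑ h ∈ range ((word l).length + 1), F ((word l).take h ++ true :: true :: (word l).drop h) =
      sI l (fun l' => F (word l')) := by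
  induction l with
  | nil =>
    intro F
    rw [sI]
    simp [word]
  | cons c l ih =>
    intro F
    have e0 : sI l (fun l' => F (word (c :: l'))) = _ :=
      (ih (fun w => F (List.replicate c false ++ true :: w))).symm
    rw [sI, e0]
    have h1 : (word (c :: l)).length + 1 = (c + 1) + ((word l).length + 1) := by
      rw [length_word, length_word, List.sum_cons, List.length_cons]
      ring
    rw [h1, sum_range_add]
    congr 1
    · apply sum_congr rfl
      intro b hb
      have hb' := mem_range.1 hb
      congr 1
      have h2 : List.replicate c false = List.replicate b false ++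
          List.replicate (c - b) false := by
        rw [List.replicate_append_replicate]; congr 1; omega
      simp only [word]
      rw [h2, List.append_assoc, List.take_left' (List.length_replicate),
        List.drop_left' (List.length_replicate)]
      rfl
    · apply sum_congr rfl
      intro h _
      congr 1
      have h3 : word (c :: l) = (List.replicate c false ++ [true]) ++ word l := by
        rw [word]; simp
      have h4 : (List.replicate c false ++ [true]).length = c + 1 := by simp
      rw [h3, List.take_append, List.drop_append, h4,
        List.take_of_length_le (by rw [h4]; omega), List.drop_eq_nil_of_le (by rw [h4]; omega)]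
      have h5 : c + 1 + h - (c + 1) = h := by omega
      rw [h5]
      simp

lemma T_word (t a : ℕ) (l : List ℕ) (j : ℕ) :
    T (t + 1) (word (a :: l)) j =
      ∑ i ∈ range (a + 1), T t (word ((i + 1) :: (a - i) :: l)) j +
      if j = 0 then 0 else sI l (fun l' => T t (word (mrg a l')) (j - 1)) := by
  rw [T]
  have h1 : (word (a :: l)).length + 1 = (a + 1) + ((word l).length + 1) := by
    rw [length_word, length_word, List.sum_cons, List.length_cons]
    ring
  rw [h1, sum_range_add]
  congr 1
  · apply sum_congr rfl
    intro i hi
    have hi' := mem_range.1 hi
    rw [word, if_neg (take_rep a i _ (by omega)), step_lucky a i _ (by omega)]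
    rfl
  · rw [word]
    have h2 : ∀ h ∈ range ((word l).length + 1),
        (if true ∈ (List.replicate a false ++ true :: word l).take (a + 1 + h) then
          (if j = 0 then 0 else
            T t (step (List.replicate a false ++ true :: word l) (a + 1 + h)) (j - 1))
          else T t (step (List.replicate a false ++ true :: word l) (a + 1 + h)) j) =
        if j = 0 then 0 else T t (List.replicate (a + 1) false ++
          ((word l).take h ++ true :: true :: (word l).drop h)) (j - 1) := by
      intro h _
      rw [if_pos (take_unlucky a h _), step_unlucky]
    rw [sum_congr rfl h2]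
    by_cases hj : j = 0
    · simp [hj]
    · simp only [if_neg hj]
      rw [ins_sum l (fun w => T t (List.replicate (a + 1) false ++ w) (j - 1))]
      apply sI_congr
      intro l' h _ _
      rw [word_mrg a l' h]

/-- generating function of the continuations of a state with exactly `j` unlucky steps -/
noncomputable def V (j : ℕ) (l : List ℕ) : PowerSeries ℚ :=
  PowerSeries.mk (fun t => (T t (word l) j : ℚ))

lemma V_zero_rec (a : ℕ) (l : List ℕ) : V 0 (a :: l) =
    1 + PowerSeries.X * ∑ i ∈ range (a + 1), V 0 ((i + 1) :: (a - i) :: l) := by
  ext t
  cases t with
  | zero => simp [V, T]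
  | succ t =>
    rw [map_add, PowerSeries.coeff_succ_X_mul, map_sum, PowerSeries.coeff_one]
    simp only [V, PowerSeries.coeff_mk]
    rw [T_word]
    push_cast
    simp

lemma V_succ_rec (j a : ℕ) (l : List ℕ) : V (j + 1) (a :: l) =
    PowerSeries.X * (∑ i ∈ range (a + 1), V (j + 1) ((i + 1) :: (a - i) :: l) +
      sI l (fun l' => V j (mrg a l'))) := by
  ext t
  cases t with
  | zero => simp [V, T]
  | succ t =>
    rw [PowerSeries.coeff_succ_X_mul, map_add, map_sum]
    have h1 : PowerSeries.coeff t (sI l (fun l' => V j (mrg a l'))) =
        sI l (fun l' => (T t (word (mrg a l')) j : ℚ)) := by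
      have := sI_map l (PowerSeries.coeff t : PowerSeries ℚ →ₗ[ℚ] ℚ).toAddMonoidHom
        (fun l' => V j (mrg a l'))
      simp only [LinearMap.toAddMonoidHom_coe] at this
      rw [← this]
      simp only [V, PowerSeries.coeff_mk]
    have h2 : ((sI l (fun l' => T t (word (mrg a l')) j) : ℕ) : ℚ) =
        sI l (fun l' => (T t (word (mrg a l')) j : ℚ)) := by
      have := sI_map l (Nat.castAddMonoidHom ℚ) (fun l' => T t (word (mrg a l')) j)
      exact this.symm
    rw [h1]
    simp only [V, PowerSeries.coeff_mk]
    rw [T_word, if_neg (Nat.succ_ne_zero j), Nat.add_sub_cancel]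
    push_cast
    rw [h2]

end Pool.Agent.LuckyDiag
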