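import Pool.Agent.Work.MP_d4a4cd_h25.Uniq

/-!
# All diagonals
-/

set_option autoImplicit false
set_option linter.unusedSectionVars false

namespace Pool.Agent.LuckyDiag

open Finset Pool.Agent.LuckyStirling

open scoped Polynomial

/-- value at the first state -/
lemma value {w d : ℕ} {f : ℕ → (ℕ → ℕ) → KK} (hf : f ∈ Fil rr 2 (w + 2) (d + 1)) :
    ∃ q ∈ H rr w d, f 1 (cns 1 (pad [])) = Cc rr * Cc rr * q := by
  unfold Fil at hf
  induction hf using AddSubgroup.closure_induction with
  | mem f hf =>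
    obtain ⟨α, β, p, e, c, hβ, hc, hw, hz, hd, rfl⟩ := hf
    match β, hβ with
    | s :: β, _ =>
      refine ⟨((s + 1 : ℕ) : KK) * c, ?_, ?_⟩
      · simp only [List.length_cons] at hd
        exact H_mono (by omega) (by omega) (H_nat_mul (s + 1) hc)
      · simp only [Pi.smul_apply, smul_eq_mul, gen, gb_cons, cns_zero, tl_cns, gb_pad_nil]
        have h : Z rr s 1 = (s + 1 : ℕ) * Cc rr := by
          unfold Z
          have h2 : (1 + s).choose s = s + 1 := by
            rw [add_comm]; exact Nat.choose_succ_self_right s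
          rw [h2, pow_one]
        rw [h]
        push_cast
        ring
  | zero => exact ⟨0, zero_mem _, by simp⟩
  | add f g _ _ hf hg =>
    obtain ⟨q, hq, h⟩ := hf
    obtain ⟨q', hq', h'⟩ := hg
    exact ⟨q + q', add_mem hq hq', by rw [Pi.add_apply, Pi.add_apply, h, h']; ring⟩
  | neg f _ hf =>
    obtain ⟨q, hq, h⟩ := hf
    exact ⟨-q, neg_mem hq, by rw [Pi.neg_apply, Pi.neg_apply, h]; ring⟩

/-- evaluation at `rho 1` -/
noncomputable def evp (A : ℚ[X]) : PowerSeries ℚ := A.eval₂ (PowerSeries.C (R := ℚ)) (rho 1)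

lemma ev_io (A : ℚ[X]) : ev rr A = io (evp A) := by
  unfold ev evp rr
  rw [Polynomial.hom_eval₂]
  congr 1
  exact Subsingleton.elim _ _

lemma constantCoeff_evp (A : ℚ[X]) : PowerSeries.constantCoeff (evp A) = A.eval 1 := by
  unfold evp
  rw [Polynomial.hom_eval₂, constantCoeff_rho]
  have h : (PowerSeries.constantCoeff (R := ℚ)).comp (PowerSeries.C (R := ℚ)) = RingHom.id ℚ :=
    Subsingleton.elim _ _
  rw [h]
  rfl

lemma one_sub_rho_ne : (1 - rho 1 : PowerSeries ℚ) ≠ 0 := by
  intro h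
  apply one_sub_rr
  have := congrArg io h
  rwa [map_sub, map_one, map_zero] at this

lemma natDegree_of_mul {c : ℚ} {A B : ℚ[X]} {m : ℕ} (h : A = (Polynomial.X - Polynomial.C c) * B)
    (hA : A.natDegree ≤ m + 1) : B.natDegree ≤ m := by
  by_cases hB : B = 0
  · rw [hB]; simp
  · have h1 : (Polynomial.X - Polynomial.C c) ≠ 0 := Polynomial.X_sub_C_ne_zero c
    rw [h, Polynomial.natDegree_mul h1 hB, Polynomial.natDegree_X_sub_C] at hA
    omega

lemma div_one_sub (m : ℕ) (u : PowerSeries ℚ) (N : ℕ) : ∀ A : ℚ[X], A.natDegree ≤ N + m →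
    (1 - rho 1) ^ N * u = evp A → ∃ B : ℚ[X], B.natDegree ≤ m ∧ u = evp B := by
  induction N with
  | zero =>
    intro A hA h
    exact ⟨A, by omega, by simpa using h⟩
  | succ N ih =>
    intro A hA h
    have h1 : A.eval 1 = 0 := by
      rw [← constantCoeff_evp, ← h, map_mul, map_pow, map_sub, map_one, constantCoeff_rho]
      simp
    obtain ⟨B, hB⟩ := Polynomial.dvd_iff_isRoot.2 (show A.IsRoot 1 from h1)
    have hBd : B.natDegree ≤ N + m := natDegree_of_mul hB (by omega)
    apply ih (-B) (by rw [Polynomial.natDegree_neg]; exact hBd)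
    have h2 : evp A = (1 - rho 1) * evp (-B) := by
      rw [hB]
      unfold evp
      rw [Polynomial.eval₂_mul, Polynomial.eval₂_sub, Polynomial.eval₂_X, Polynomial.eval₂_C,
        Polynomial.eval₂_neg, map_one]
      ring
    rw [h2, pow_succ'] at h
    have h3 : (1 - rho 1) * ((1 - rho 1) ^ N * u) = (1 - rho 1) * evp (-B) := by
      rw [← h]; ring
    exact mul_left_cancel₀ one_sub_rho_ne h3

/-- a power series `u` with `r ^ p * (1 + r) * u` polynomial in `r` -/
lemma split_one_add (p m : ℕ) (hpm : p ≤ m + 1) (u : PowerSeries ℚ) (A : ℚ[X])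
    (hA : A.natDegree ≤ m + 1) (h : rho 1 ^ p * (1 + rho 1) * u = evp A) :
    ∃ (c : ℚ) (b : ℕ → ℚ), u = PowerSeries.C c * Cat +
      ∑ k ∈ range (m + 1), PowerSeries.C (b k) * rho ((k : ℤ) - p) := by
  set c : ℚ := A.eval (-1) * (-1) ^ p with hc
  have h1 : (A - Polynomial.C c * Polynomial.X ^ p).IsRoot (-1) := by
    have h2 : ((-1 : ℚ) ^ p) * (-1) ^ p = 1 := by
      rw [← mul_pow]; simp
    rw [Polynomial.IsRoot, Polynomial.eval_sub, Polynomial.eval_mul, Polynomial.eval_C,
      Polynomial.eval_pow, Polynomial.eval_X, hc, mul_assoc, h2]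
    ring
  obtain ⟨B, hB⟩ := Polynomial.dvd_iff_isRoot.2 h1
  have hd : (A - Polynomial.C c * Polynomial.X ^ p).natDegree ≤ m + 1 := by
    refine (Polynomial.natDegree_sub_le _ _).trans (max_le hA ?_)
    exact (Polynomial.natDegree_C_mul_X_pow_le c p).trans hpm
  have hBd : B.natDegree ≤ m := natDegree_of_mul hB hd
  have h3 : evp A = PowerSeries.C c * rho 1 ^ p + (1 + rho 1) * evp B := by
    have h4 : A = Polynomial.C c * Polynomial.X ^ p + (Polynomial.X - Polynomial.C (-1)) * B := by
      rw [← hB]; ring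
    conv_lhs => rw [h4]
    unfold evp
    rw [Polynomial.eval₂_add, Polynomial.eval₂_mul, Polynomial.eval₂_mul, Polynomial.eval₂_sub,
      Polynomial.eval₂_X, Polynomial.eval₂_C, Polynomial.eval₂_C, Polynomial.eval₂_pow,
      Polynomial.eval₂_X, map_neg, map_one]
    ring
  have h5 : evp B = rho 1 ^ p *
      ∑ k ∈ range (m + 1), PowerSeries.C (B.coeff k) * rho ((k : ℤ) - p) := by
    unfold evp
    rw [Polynomial.eval₂_eq_sum_range' _ (Nat.lt_succ_of_le hBd), mul_sum]
    apply sum_congr rfl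
    intro k _
    rw [← rho_sub k p]
    ring
  have hne : rho 1 ^ p ≠ 0 := by
    apply pow_ne_zero
    intro h
    exact rr_ne (by unfold rr; rw [h, map_zero])
  refine ⟨c / 2, B.coeff, ?_⟩
  apply mul_left_cancel₀ hne
  have h6 : (2 : PowerSeries ℚ) * (rho 1 ^ p * u) = 2 * (rho 1 ^ p * (PowerSeries.C (c / 2) * Cat +
      ∑ k ∈ range (m + 1), PowerSeries.C (B.coeff k) * rho ((k : ℤ) - p))) := by
    have h7 := one_add_rho_mul
    have h8 : (2 : PowerSeries ℚ) * PowerSeries.C (c / 2) = PowerSeries.C c := by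
      have : (2 : PowerSeries ℚ) = PowerSeries.C 2 := rfl
      rw [this, ← map_mul]
      congr 1
      ring
    rw [h3, h5] at h
    calc (2 : PowerSeries ℚ) * (rho 1 ^ p * u) = ((1 + rho 1) * Cat) * (rho 1 ^ p * u) := by rw [h7]
      _ = (rho 1 ^ p * (1 + rho 1) * u) * Cat := by ring
      _ = PowerSeries.C c * rho 1 ^ p * Cat + ((1 + rho 1) * Cat) * (rho 1 ^ p *
          ∑ k ∈ range (m + 1), PowerSeries.C (B.coeff k) * rho ((k : ℤ) - p)) := by
          rw [h]; ring
      _ = _ := by rw [h7, ← h8]; ring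
  exact mul_left_cancel₀ two_ne_zero h6

lemma T_lt (t : ℕ) : ∀ (w : List Bool) (j : ℕ), t < j → T t w j = 0 := by
  induction t with
  | zero => intro w j h; rw [T, if_neg (by omega)]
  | succ t ih =>
    intro w j h
    rw [T]
    apply sum_eq_zero
    intro g _
    rw [if_neg (show ¬ j = 0 by omega), ih _ _ (by omega), ih _ _ (by omega)]
    simp

lemma T_nil (t j : ℕ) : T (t + 1) [] j = T t (word [1]) j := by
  rw [T]
  simp [step, ftf, word]

lemma a_eq_T (n j : ℕ) (hn : 1 ≤ n) : a n (n - j) = T n [] j := by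
  by_cases hj : j ≤ n
  · rw [a_eq n (n - j) (Nat.sub_le n j)]
    congr 1
    omega
  · obtain ⟨m, rfl⟩ : ∃ m, n = m + 1 := ⟨n - 1, by omega⟩
    rw [a_eq (m + 1) (m + 1 - j) (Nat.sub_le _ j), T_nil, T_nil, T_lt _ _ _ (by omega),
      T_lt _ _ _ (by omega)]

/-- The generating function of the diagonal. -/
theorem diag_series (j : ℕ) : ∃ (c : ℚ) (b : ℕ → ℚ), PowerSeries.X * V (j + 1) [1] =
    PowerSeries.C c * Cat +
      ∑ k ∈ range (7 * j + 7), PowerSeries.C (b k) * rho ((k : ℤ) - (5 * j + 4 : ℕ)) := by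
  obtain ⟨f, hf, hV⟩ := V_mem (j + 1)
  have hf' : f ∈ Fil rr 2 ((5 * j + 4) + 2) ((2 * j + 2) + 1) := hf
  obtain ⟨q, ⟨N, A, hA, hq⟩, hval⟩ := value hf'
  have h1 : io (V (j + 1) [1]) = Cc rr * Cc rr * q := by
    rw [← hval]
    exact hV 1 [] (by simp)
  have h2 : (1 - rr) ^ N * (rr ^ (5 * j + 4) * (1 + rr) * io (PowerSeries.X * V (j + 1) [1])) =
      ev rr ((1 - Polynomial.X) * A) := by
    rw [ev_mul, ev_one_sub_X, ← hq, map_mul, h1, ← xx_rr]
    have h3 : (1 + rr) * (xx rr * (Cc rr * Cc rr)) = 1 - rr := by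
      unfold xx Cc
      have := one_add_rr
      field_simp
      ring
    linear_combination ((1 - rr) ^ N * rr ^ (5 * j + 4) * q) * h3
  have h4 : (1 - rho 1) ^ N * (rho 1 ^ (5 * j + 4) * (1 + rho 1) *
      (PowerSeries.X * V (j + 1) [1])) = evp ((1 - Polynomial.X) * A) := by
    apply io_inj
    rw [← ev_io, ← h2]
    simp only [map_mul, map_pow, map_sub, map_add, map_one]
    rfl
  have hA' : ((1 - Polynomial.X) * A).natDegree ≤ N + ((7 * j + 6) + 1) := by
    have := natDegree_aux 1 A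
    rw [pow_one] at this
    omega
  obtain ⟨B, hB, h5⟩ := div_one_sub ((7 * j + 6) + 1) _ N _ hA' h4
  exact split_one_add (5 * j + 4) (7 * j + 6) (by omega) _ B hB h5

/-- a polynomial in `rho 1` which vanishes to a high order is zero -/
lemma evp_eq_zero (M : ℕ) : ∀ A : ℚ[X], A.natDegree ≤ M →
    PowerSeries.X ^ (M + 1) ∣ evp A → A = 0 := by
  induction M with
  | zero =>
    intro A hA h
    rw [zero_add, pow_one, PowerSeries.X_dvd_iff, constantCoeff_evp] at h
    obtain ⟨q, rfl⟩ : ∃ q, A = Polynomial.C q :=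
      ⟨A.coeff 0, Polynomial.eq_C_of_natDegree_le_zero hA⟩
    rw [Polynomial.eval_C] at h
    rw [h, Polynomial.C_0]
  | succ M ih =>
    intro A hA h
    have h0 : A.eval 1 = 0 := by
      rw [← constantCoeff_evp, ← PowerSeries.X_dvd_iff]
      exact dvd_trans (dvd_pow_self _ (Nat.succ_ne_zero _)) h
    obtain ⟨B, hB⟩ := Polynomial.dvd_iff_isRoot.2 (show A.IsRoot 1 from h0)
    have hBd : B.natDegree ≤ M := natDegree_of_mul hB hA
    have h1 : (1 + rho 1) * evp A = -(PowerSeries.X * (PowerSeries.C 4 * evp B)) := by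
      have e1 : evp A = (rho 1 - 1) * evp B := by
        rw [hB]
        unfold evp
        rw [Polynomial.eval₂_mul, Polynomial.eval₂_sub, Polynomial.eval₂_X, Polynomial.eval₂_C,
          map_one]
      have e2 := rho_one_sq
      have e3 : (PowerSeries.C (4 : ℚ)) = (4 : PowerSeries ℚ) := rfl
      rw [e1, e3]
      linear_combination evp B * e2
    have h2 : PowerSeries.X ^ (M + 1 + 1) ∣ PowerSeries.X * (PowerSeries.C 4 * evp B) := by
      rw [← dvd_neg, ← h1]
      exact Dvd.dvd.mul_left h _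
    rw [pow_succ', mul_dvd_mul_iff_left PowerSeries.X_ne_zero] at h2
    have h3 : PowerSeries.X ^ (M + 1) ∣ evp B := by
      have e4 : evp B = PowerSeries.C (1 / 4 : ℚ) * (PowerSeries.C 4 * evp B) := by
        rw [← mul_assoc, ← map_mul]
        norm_num
      rw [e4]
      exact Dvd.dvd.mul_left h2 _
    rw [hB, ih B hBd h3, mul_zero]

/-- linear independence of the functions of a diagonal, on an initial segment -/
lemma indep (p m : ℕ) (hpm : p ≤ m + 1) (c : ℚ) (b : ℕ → ℚ)
    (h : PowerSeries.X ^ (m + 2) ∣ PowerSeries.C c * Cat +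
      ∑ k ∈ range (m + 1), PowerSeries.C (b k) * rho ((k : ℤ) - p)) :
    c = 0 ∧ ∀ k < m + 1, b k = 0 := by
  set B : ℚ[X] := ∑ k ∈ range (m + 1), Polynomial.C (b k) * Polynomial.X ^ k with hB
  have hBd : B.natDegree ≤ m := by
    apply Polynomial.natDegree_sum_le_of_forall_le
    intro k hk
    have := mem_range.1 hk
    exact (Polynomial.natDegree_C_mul_X_pow_le _ _).trans (by omega)
  set A : ℚ[X] := Polynomial.C (2 * c) * Polynomial.X ^ p +
    (Polynomial.X - Polynomial.C (-1)) * B with hA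
  have hAd : A.natDegree ≤ m + 1 := by
    refine (Polynomial.natDegree_add_le _ _).trans (max_le ?_ ?_)
    · exact (Polynomial.natDegree_C_mul_X_pow_le _ _).trans hpm
    · refine Polynomial.natDegree_mul_le.trans ?_
      rw [Polynomial.natDegree_X_sub_C]
      omega
  have h1 : evp A = rho 1 ^ p * (1 + rho 1) * (PowerSeries.C c * Cat +
      ∑ k ∈ range (m + 1), PowerSeries.C (b k) * rho ((k : ℤ) - p)) := by
    have e1 : evp B = rho 1 ^ p *
        ∑ k ∈ range (m + 1), PowerSeries.C (b k) * rho ((k : ℤ) - p) := by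
      rw [hB]
      unfold evp
      rw [Polynomial.eval₂_finsetSum, mul_sum]
      apply sum_congr rfl
      intro k _
      rw [Polynomial.eval₂_mul, Polynomial.eval₂_C, Polynomial.eval₂_pow, Polynomial.eval₂_X,
        ← rho_sub k p]
      ring
    have e2 : evp A = PowerSeries.C (2 * c) * rho 1 ^ p + (1 + rho 1) * evp B := by
      rw [hA]
      unfold evp
      rw [Polynomial.eval₂_add, Polynomial.eval₂_mul, Polynomial.eval₂_mul, Polynomial.eval₂_sub,
        Polynomial.eval₂_X, Polynomial.eval₂_C, Polynomial.eval₂_C, Polynomial.eval₂_pow,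
        Polynomial.eval₂_X, map_neg, map_one]
      ring
    have e3 : PowerSeries.C (2 * c) = (2 : PowerSeries ℚ) * PowerSeries.C c := by
      rw [map_mul]; rfl
    rw [e2, e1, e3]
    linear_combination (-(rho 1 ^ p * PowerSeries.C c)) * one_add_rho_mul
  have h2 : A = 0 := by
    apply evp_eq_zero (m + 1) A hAd
    rw [h1]
    exact Dvd.dvd.mul_left h _
  have h3 : c = 0 := by
    have e4 := congrArg (Polynomial.eval (-1)) h2
    rw [hA] at e4
    simp only [Polynomial.eval_add, Polynomial.eval_mul, Polynomial.eval_sub, Polynomial.eval_C,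
      Polynomial.eval_pow, Polynomial.eval_X, Polynomial.eval_zero, sub_self, zero_mul,
      add_zero] at e4
    have e5 : ((-1 : ℚ)) ^ p ≠ 0 := pow_ne_zero _ (by norm_num)
    have e6 := (mul_eq_zero.1 e4).resolve_right e5
    linarith
  refine ⟨h3, ?_⟩
  have h4 : B = 0 := by
    rw [hA, h3, mul_zero, Polynomial.C_0, zero_mul, zero_add] at h2
    exact (mul_eq_zero.1 h2).resolve_left (Polynomial.X_sub_C_ne_zero _)
  intro k hk
  have h5 := congrArg (fun q => Polynomial.coeff q k) h4
  simp only [hB, Polynomial.finsetSum_coeff, Polynomial.coeff_C_mul, Polynomial.coeff_X_pow,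
    Polynomial.coeff_zero] at h5
  rw [sum_eq_single k] at h5
  · simpa using h5
  · intro i _ hik
    rw [if_neg (fun h => hik h.symm), mul_zero]
  · intro h
    exact absurd (mem_range.2 hk) h

end Pool.Agent.LuckyDiag
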