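import Pool.Agent.Work.MP_d4a4cd_h25.Closed

/-!
# Each diagonal in terms of its first entries
-/

set_option autoImplicit false
set_option linter.unusedSectionVars false

namespace Pool.Agent.LuckyDiag

open Finset Pool.Agent.LuckyStirling

open scoped Polynomial

lemma coeff_W0_step (k n : ℕ) : PowerSeries.coeff n (Cat ^ (k + 2) * rho (-1)) =
    PowerSeries.coeff (n + 1) (Cat ^ (k + 1) * rho (-1)) -
      PowerSeries.coeff (n + 1) (Cat ^ k * rho (-1)) := by
  rw [← map_sub, ← PowerSeries.coeff_succ_X_mul]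
  congr 1
  rw [pow_add, pow_add]
  linear_combination (-(Cat ^ k * rho (-1))) * Cat_eq

lemma coeff_W0 (k : ℕ) : (∀ n, PowerSeries.coeff n (Cat ^ k * rho (-1)) =
      (((2 * n + k).choose n : ℕ) : ℚ)) ∧
    (∀ n, PowerSeries.coeff n (Cat ^ (k + 1) * rho (-1)) =
      (((2 * n + (k + 1)).choose n : ℕ) : ℚ)) := by
  induction k with
  | zero =>
    have h0 : ∀ n, PowerSeries.coeff n (Cat ^ 0 * rho (-1)) =
        (((2 * n + 0).choose n : ℕ) : ℚ) := by
      intro n
      rw [pow_zero, one_mul, coeff_rho]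
      exact u_neg_one n
    refine ⟨h0, fun n => ?_⟩
    have h1 : 2 * (PowerSeries.X * (Cat ^ (0 + 1) * rho (-1))) = Cat ^ 0 * rho (-1) - 1 := by
      have e1 : rho 1 * rho (-1) = 1 := by
        rw [← rho_add]; exact rho_zero
      have e2 := rho_one_eq
      rw [e2] at e1
      linear_combination -e1
    have h2 := congrArg (PowerSeries.coeff (n + 1)) h1
    have e3 : (2 : PowerSeries ℚ) = PowerSeries.C 2 := rfl
    rw [e3, PowerSeries.coeff_C_mul, PowerSeries.coeff_succ_X_mul, map_sub, h0,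
      PowerSeries.coeff_one, if_neg (Nat.succ_ne_zero n)] at h2
    have e4 : (2 * (n + 1) + 0).choose (n + 1) = 2 * (2 * n + (0 + 1)).choose n := by
      have e5 : 2 * (n + 1) + 0 = (2 * n + 1) + 1 := by ring
      have e6 : (2 * n + 1).choose (n + 1) = (2 * n + 1).choose n :=
        (Nat.choose_symm_half n)
      rw [e5, Nat.choose_succ_succ, e6]
      simp only [zero_add]
      ring
    rw [e4] at h2
    push_cast at h2 ⊢
    linarith
  | succ k ih =>
    refine ⟨ih.2, fun n => ?_⟩
    rw [coeff_W0_step, ih.1, ih.2]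
    have e1 : 2 * (n + 1) + (k + 1) = (2 * (n + 1) + k) + 1 := by ring
    have e2 : 2 * n + (k + 1 + 1) = 2 * (n + 1) + k := by ring
    rw [e1, Nat.choose_succ_succ, e2]
    push_cast
    ring

/-- binomial sum -/
def Rs (s k n : ℕ) : ℕ := ∑ i ∈ range (n + 1), (s + i).choose i * 2 ^ i *
  (2 * n - i + k).choose (n - i)

lemma Rs_zero_right (s k : ℕ) : Rs s k 0 = 1 := by simp [Rs]

lemma Rs_shift (s k n : ℕ) : 2 * Rs s (k + 1) n =
    ∑ i ∈ range (n + 1), (s + i).choose i * 2 ^ (i + 1) *
      (2 * (n + 1) - (i + 1) + k).choose (n + 1 - (i + 1)) := by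
  unfold Rs
  rw [mul_sum]
  apply sum_congr rfl
  intro i hi
  have hi' := mem_range.1 hi
  have e1 : 2 * (n + 1) - (i + 1) + k = 2 * n - i + (k + 1) := by omega
  have e2 : n + 1 - (i + 1) = n - i := by omega
  rw [e1, e2, pow_succ]
  ring

lemma Rs_zero_left (k n : ℕ) : Rs 0 k (n + 1) = (2 * (n + 1) + k).choose (n + 1) +
    2 * Rs 0 (k + 1) n := by
  rw [Rs_shift, Rs, sum_range_succ']
  simp only [zero_add, Nat.choose_self, one_mul, pow_zero, Nat.sub_zero]
  rw [add_comm]

lemma Rs_succ_left (s k n : ℕ) : Rs (s + 1) k (n + 1) = Rs s k (n + 1) +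
    2 * Rs (s + 1) (k + 1) n := by
  rw [Rs_shift, Rs, Rs, sum_range_succ', sum_range_succ' (fun i => (s + i).choose i * 2 ^ i *
    (2 * (n + 1) - i + k).choose (n + 1 - i))]
  have h : ∀ i ∈ range (n + 1), (s + 1 + (i + 1)).choose (i + 1) * 2 ^ (i + 1) *
      (2 * (n + 1) - (i + 1) + k).choose (n + 1 - (i + 1)) =
      (s + (i + 1)).choose (i + 1) * 2 ^ (i + 1) *
      (2 * (n + 1) - (i + 1) + k).choose (n + 1 - (i + 1)) +
      (s + 1 + i).choose i * 2 ^ (i + 1) *
      (2 * (n + 1) - (i + 1) + k).choose (n + 1 - (i + 1)) := by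
    intro i _
    have e1 : s + 1 + (i + 1) = (s + 1 + i) + 1 := by ring
    have e2 : s + (i + 1) = s + 1 + i := by ring
    rw [e1, Nat.choose_succ_succ, e2]
    ring
  rw [sum_congr rfl h, sum_add_distrib]
  simp only [Nat.choose_zero_right]
  ring

lemma coeff_zero_pow (s : ℤ) (k : ℕ) : PowerSeries.coeff 0 (Cat ^ k * rho s) = 1 := by
  have h : PowerSeries.constantCoeff Cat = 1 := by
    rw [← PowerSeries.coeff_zero_eq_constantCoeff_apply, coeff_Cat]
    simp
  rw [PowerSeries.coeff_zero_eq_constantCoeff_apply, map_mul, map_pow, h, constantCoeff_rho]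
  simp

lemma coeff_W_step (s : ℤ) (k n : ℕ) : PowerSeries.coeff (n + 1) (Cat ^ k * rho s) =
    PowerSeries.coeff (n + 1) (Cat ^ k * rho (s + 1)) +
      2 * PowerSeries.coeff n (Cat ^ (k + 1) * rho s) := by
  have e3 : (2 : PowerSeries ℚ) = PowerSeries.C 2 := rfl
  have h1 : Cat ^ k * rho s = Cat ^ k * rho (s + 1) +
      PowerSeries.C 2 * (PowerSeries.X * (Cat ^ (k + 1) * rho s)) := by
    rw [add_comm s 1, rho_add, rho_one_eq, ← e3]
    ring
  rw [h1, map_add, PowerSeries.coeff_C_mul, PowerSeries.coeff_succ_X_mul]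

lemma coeff_W (s : ℕ) : ∀ n k : ℕ, PowerSeries.coeff n (Cat ^ k * rho (-2 - (s : ℤ))) =
    (Rs s k n : ℚ) := by
  induction s with
  | zero =>
    intro n
    induction n with
    | zero =>
      intro k
      rw [coeff_zero_pow, Rs_zero_right, Nat.cast_one]
    | succ n ih =>
      intro k
      rw [coeff_W_step, ih, Rs_zero_left]
      have e : (-2 - ((0 : ℕ) : ℤ) + 1) = -1 := by norm_num
      rw [e, (coeff_W0 k).1]
      push_cast
      ring
  | succ s ihs =>
    intro n
    induction n with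
    | zero =>
      intro k
      rw [coeff_zero_pow, Rs_zero_right, Nat.cast_one]
    | succ n ih =>
      intro k
      rw [coeff_W_step, ih, Rs_succ_left]
      have e : (-2 - ((s + 1 : ℕ) : ℤ) + 1) = -2 - (s : ℤ) := by push_cast; ring
      rw [e, ihs]
      push_cast
      ring

/-- evaluation at `X * Cat` -/
noncomputable def evc (A : ℚ[X]) : PowerSeries ℚ :=
  A.eval₂ (PowerSeries.C (R := ℚ)) (PowerSeries.X * Cat)

lemma constantCoeff_evc (A : ℚ[X]) : PowerSeries.constantCoeff (evc A) = A.eval 0 := by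
  unfold evc
  rw [Polynomial.hom_eval₂, map_mul, PowerSeries.constantCoeff_X, zero_mul]
  have h : (PowerSeries.constantCoeff (R := ℚ)).comp (PowerSeries.C (R := ℚ)) = RingHom.id ℚ :=
    Subsingleton.elim _ _
  rw [h]
  rfl

lemma evc_coeff (M : ℕ) : ∀ A : ℚ[X], PowerSeries.X ^ M ∣ evc A → ∀ m < M, A.coeff m = 0 := by
  induction M with
  | zero => intro A _ m hm; exact absurd hm (Nat.not_lt_zero m)
  | succ M ih =>
    intro A h m hm
    have h0 : A.eval 0 = 0 := by
      rw [← constantCoeff_evc, ← PowerSeries.X_dvd_iff]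
      exact dvd_trans (dvd_pow_self _ (Nat.succ_ne_zero _)) h
    obtain ⟨B, rfl⟩ := Polynomial.X_dvd_iff.2 (by
      rw [← Polynomial.coeff_zero_eq_eval_zero] at h0
      exact h0)
    cases m with
    | zero => simp
    | succ m =>
      rw [Polynomial.coeff_X_mul]
      apply ih B _ m (by omega)
      have h1 : evc (Polynomial.X * B) = PowerSeries.X * (Cat * evc B) := by
        unfold evc
        rw [Polynomial.eval₂_mul, Polynomial.eval₂_X]
        ring
      rw [h1, pow_succ', mul_dvd_mul_iff_left PowerSeries.X_ne_zero] at h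
      have h2 : evc B = PowerSeries.C (1 / 2 : ℚ) * ((1 + rho 1) * (Cat * evc B)) := by
        have e1 : (PowerSeries.C (1 / 2 : ℚ)) * 2 = 1 := by
          have e3 : (2 : PowerSeries ℚ) = PowerSeries.C 2 := rfl
          rw [e3, ← map_mul]
          norm_num
        have e2 := one_add_rho_mul
        linear_combination (-(evc B)) * e1 - PowerSeries.C (1 / 2 : ℚ) * evc B * e2
      rw [h2]
      exact Dvd.dvd.mul_left (Dvd.dvd.mul_left h _) _

lemma evc_one_sub : (1 - PowerSeries.X * Cat : PowerSeries ℚ) =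
    PowerSeries.C (1 / 2 : ℚ) * (1 + rho 1) := by
  have e3 : (2 : PowerSeries ℚ) = PowerSeries.C 2 := rfl
  have e1 : (PowerSeries.C (1 / 2 : ℚ)) * 2 = 1 := by
    rw [e3, ← map_mul]
    norm_num
  rw [rho_one_eq]
  linear_combination (PowerSeries.X * Cat - 1) * e1

/-- the coefficients of the polynomial in `X * Cat` -/
noncomputable def pc (p : ℕ) (g : ℕ → ℚ) (m : ℕ) : ℚ :=
  ∑ n ∈ range (m + 1), g n *
    ((1 - Polynomial.X) ^ (n + 1) * (1 - 2 * Polynomial.X) ^ p : ℚ[X]).coeff (m - n)

/-- a power series `G` with `r ^ p * (1 + r) * G` a polynomial of degree at most `M` in `r` is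
determined by its first coefficients -/
lemma interp_aux (s M : ℕ) (G : PowerSeries ℚ) (B : ℚ[X]) (hB : B.natDegree ≤ M)
    (h : rho 1 ^ (s + 2) * (1 + rho 1) * G = evp B) (N : ℕ) :
    PowerSeries.coeff N G = ∑ m ∈ range (M + 1), pc (s + 2) (fun n => PowerSeries.coeff n G) m *
      (if m ≤ N then (Rs s (m + 1) (N - m) : ℚ) else 0) := by
  set A0 : ℚ[X] := Polynomial.C (1 / 2) * B.comp (1 - 2 * Polynomial.X) with hA0
  have hd : (1 - 2 * Polynomial.X : ℚ[X]).natDegree ≤ 1 := by
    refine (Polynomial.natDegree_sub_le _ _).trans (max_le (by simp) ?_)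
    refine Polynomial.natDegree_mul_le.trans ?_
    rw [Polynomial.natDegree_X]
    have : (2 : ℚ[X]).natDegree = 0 := Polynomial.natDegree_ofNat 2
    omega
  have hA0d : A0.natDegree ≤ M := by
    refine (Polynomial.natDegree_C_mul_le _ _).trans ?_
    refine Polynomial.natDegree_comp_le.trans ?_
    calc B.natDegree * (1 - 2 * Polynomial.X : ℚ[X]).natDegree ≤ B.natDegree * 1 :=
          Nat.mul_le_mul_left _ hd
      _ ≤ M := by omega
  have e2 : evc (1 - 2 * Polynomial.X) = rho 1 := by
    unfold evc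
    rw [rho_one_eq, Polynomial.eval₂_sub, Polynomial.eval₂_one, Polynomial.eval₂_mul,
      Polynomial.eval₂_X, Polynomial.eval₂_ofNat]
    ring
  have e1 : evc A0 = PowerSeries.C (1 / 2 : ℚ) * evp B := by
    rw [hA0]
    have : evp B = evc (B.comp (1 - 2 * Polynomial.X)) := by
      conv_rhs => unfold evc
      rw [Polynomial.eval₂_comp]
      unfold evc at e2
      rw [e2]
      rfl
    rw [this]
    unfold evc
    rw [Polynomial.eval₂_mul, Polynomial.eval₂_C]
  -- the series in terms of `A0`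
  have hG : G = Cat * rho (-2 - (s : ℤ)) * evc A0 := by
    have e3 : (2 : PowerSeries ℚ) = PowerSeries.C 2 := rfl
    have e4 : (PowerSeries.C (1 / 2 : ℚ)) * 2 = 1 := by
      rw [e3, ← map_mul]
      norm_num
    have e5 : rho 1 ^ (s + 2) * rho (-2 - (s : ℤ)) = 1 := by
      rw [← rho_nat, ← rho_add, ← rho_zero]
      congr 1
      push_cast
      ring
    have e6 := one_add_rho_mul
    rw [e1, ← h]
    calc G = (PowerSeries.C (1 / 2 : ℚ) * 2) * (rho 1 ^ (s + 2) * rho (-2 - (s : ℤ))) * G := by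
          rw [e4, e5]; ring
      _ = (PowerSeries.C (1 / 2 : ℚ) * ((1 + rho 1) * Cat)) *
          (rho 1 ^ (s + 2) * rho (-2 - (s : ℤ))) * G := by rw [e6]
      _ = _ := by ring
  -- the coefficients of `A0`
  have hcoef : ∀ m < M + 1, A0.coeff m = pc (s + 2) (fun n => PowerSeries.coeff n G) m := by
    set E : ℚ[X] := ∑ n ∈ range (M + 1), Polynomial.C (PowerSeries.coeff n G) *
      (Polynomial.X ^ n * ((1 - Polynomial.X) ^ (n + 1) * (1 - 2 * Polynomial.X) ^ (s + 2)))
      with hE
    have hEe : evc E = PowerSeries.C (1 / 2 : ℚ) * (rho 1 ^ (s + 2) * (1 + rho 1)) *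
        ∑ n ∈ range (M + 1), PowerSeries.C (PowerSeries.coeff n G) * PowerSeries.X ^ n := by
      rw [hE]
      unfold evc at e2 ⊢
      rw [Polynomial.eval₂_finsetSum, mul_sum]
      apply sum_congr rfl
      intro n _
      rw [Polynomial.eval₂_mul, Polynomial.eval₂_C, Polynomial.eval₂_mul, Polynomial.eval₂_mul,
        Polynomial.eval₂_pow, Polynomial.eval₂_pow, Polynomial.eval₂_pow, e2,
        Polynomial.eval₂_X, Polynomial.eval₂_sub, Polynomial.eval₂_one, Polynomial.eval₂_X]
      have e7 : (PowerSeries.X * Cat) * (1 - PowerSeries.X * Cat) = PowerSeries.X := by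
        linear_combination PowerSeries.X * Cat_eq
      have e8 : (PowerSeries.X * Cat) ^ n * (1 - PowerSeries.X * Cat) ^ (n + 1) =
          PowerSeries.X ^ n * (1 - PowerSeries.X * Cat) := by
        rw [pow_succ, ← mul_assoc, ← mul_pow, e7]
      calc _ = PowerSeries.C (PowerSeries.coeff n G) * (((PowerSeries.X * Cat) ^ n *
            (1 - PowerSeries.X * Cat) ^ (n + 1)) * rho 1 ^ (s + 2)) := by ring
        _ = _ := by rw [e8, evc_one_sub]; ring
    have hdiv : PowerSeries.X ^ (M + 1) ∣ evc (A0 - E) := by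
      have e9 : evc (A0 - E) = PowerSeries.C (1 / 2 : ℚ) * (rho 1 ^ (s + 2) * (1 + rho 1)) *
          (G - ∑ n ∈ range (M + 1), PowerSeries.C (PowerSeries.coeff n G) *
            PowerSeries.X ^ n) := by
        have : evc (A0 - E) = evc A0 - evc E := by
          unfold evc
          rw [Polynomial.eval₂_sub]
        rw [this, e1, ← h, hEe]
        ring
      rw [e9]
      apply Dvd.dvd.mul_left
      rw [PowerSeries.X_pow_dvd_iff]
      intro m hm
      rw [map_sub, map_sum, sub_eq_zero, sum_eq_single m]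
      · rw [PowerSeries.coeff_C_mul, PowerSeries.coeff_X_pow, if_pos rfl, mul_one]
      · intro i _ hi
        rw [PowerSeries.coeff_C_mul, PowerSeries.coeff_X_pow, if_neg (fun h => hi h.symm),
          mul_zero]
      · intro h'
        exact absurd (mem_range.2 hm) h'
    intro m hm
    have h1 := evc_coeff (M + 1) _ hdiv m hm
    rw [Polynomial.coeff_sub, sub_eq_zero] at h1
    rw [h1, hE, Polynomial.finsetSum_coeff]
    unfold pc
    have h2 : range (m + 1) ⊆ range (M + 1) := by
      intro x hx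
      rw [mem_range] at hx ⊢
      omega
    rw [← sum_subset h2]
    · apply sum_congr rfl
      intro n hn
      have := mem_range.1 hn
      rw [Polynomial.coeff_C_mul, Polynomial.coeff_X_pow_mul', if_pos (by omega)]
    · intro n _ hn
      rw [mem_range] at hn
      rw [Polynomial.coeff_C_mul, Polynomial.coeff_X_pow_mul', if_neg (by omega), mul_zero]
  have hsum : evc A0 = ∑ m ∈ range (M + 1),
      PowerSeries.C (A0.coeff m) * (PowerSeries.X * Cat) ^ m := by
    unfold evc
    rw [Polynomial.eval₂_eq_sum_range' _ (Nat.lt_succ_of_le hA0d)]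
  conv_lhs => rw [hG, hsum, mul_sum]
  rw [map_sum]
  apply sum_congr rfl
  intro m hm
  rw [← hcoef m (mem_range.1 hm)]
  have e10 : Cat * rho (-2 - (s : ℤ)) * (PowerSeries.C (A0.coeff m) *
      (PowerSeries.X * Cat) ^ m) = PowerSeries.C (A0.coeff m) *
      (PowerSeries.X ^ m * (Cat ^ (m + 1) * rho (-2 - (s : ℤ)))) := by ring
  rw [e10, PowerSeries.coeff_C_mul, PowerSeries.coeff_X_pow_mul', coeff_W]

end Pool.Agent.LuckyDiag
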