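import Pool.Agent.Work.MP_d4a4cd_h25.Res

/-!
# Functions of the state: several blocks
-/

set_option autoImplicit false
set_option linter.unusedSectionVars false

namespace Pool.Agent.LuckyDiag

open Finset

/-- put a number in front of a sequence -/
def cns (b : ℕ) (v : ℕ → ℕ) : ℕ → ℕ
  | 0 => b
  | k + 1 => v k

/-- tail of a sequence -/
def tl (v : ℕ → ℕ) : ℕ → ℕ := fun k => v (k + 1)

@[simp] lemma cns_zero (b : ℕ) (v : ℕ → ℕ) : cns b v 0 = b := rfl

@[simp] lemma tl_cns (b : ℕ) (v : ℕ → ℕ) : tl (cns b v) = v := rfl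

/-- weight of a list of exponents -/
def wt : List ℕ → ℕ
  | [] => 0
  | s :: β => s + 1 + wt β

section
variable {K : Type*} [Field K] [CharZero K] (r : K)

/-- product of the functions `Z` of the first blocks -/
def gb : List ℕ → (ℕ → ℕ) → K
  | [], _ => 1
  | s :: β, v => Z r s (v 0) * gb β (tl v)

lemma gb_nil (v : ℕ → ℕ) : gb r [] v = 1 := rfl

lemma gb_cons (s : ℕ) (β : List ℕ) (v : ℕ → ℕ) :
    gb r (s :: β) v = Z r s (v 0) * gb r β (tl v) := rfl

/-- generators -/
def gen (α : ℕ) (β : List ℕ) : ℕ → (ℕ → ℕ) → K := fun n v => (n : K) ^ α * (Cc r * gb r β v)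

/-- The lucky step. -/
def L : (ℕ → (ℕ → ℕ) → K) →ₗ[K] (ℕ → (ℕ → ℕ) → K) where
  toFun f n v := ∑ i ∈ range (v 0 + 1), f (n + 1) (cns (i + 1) (cns (v 0 - i) (tl v)))
  map_add' := by
    intro f g
    funext n v
    simp only [Pi.add_apply, sum_add_distrib]
  map_smul' := by
    intro c f
    funext n v
    simp only [Pi.smul_apply, smul_eq_mul, mul_sum, RingHom.id_apply]

lemma L_apply (f : ℕ → (ℕ → ℕ) → K) (n : ℕ) (v : ℕ → ℕ) :
    L f n v = ∑ i ∈ range (v 0 + 1), f (n + 1) (cns (i + 1) (cns (v 0 - i) (tl v))) := rfl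

/-- `1 - x * L` -/
def S : (ℕ → (ℕ → ℕ) → K) →ₗ[K] (ℕ → (ℕ → ℕ) → K) := LinearMap.id - xx r • L

lemma S_eq (f : ℕ → (ℕ → ℕ) → K) : S r f = f - xx r • L f := rfl

/-- the filtered class -/
def Fil (z w d : ℕ) : AddSubgroup (ℕ → (ℕ → ℕ) → K) :=
  AddSubgroup.closure {f | ∃ (α : ℕ) (β : List ℕ) (p e : ℕ) (c : K), β ≠ [] ∧ c ∈ H r p e ∧
    p + 2 * α + wt β ≤ w ∧ p + 2 * α + z ≤ w ∧ e + β.length ≤ d ∧ f = c • gen r α β}

variable {r}

lemma Fil_gen {α : ℕ} {β : List ℕ} {p e z w d : ℕ} {c : K} (hβ : β ≠ []) (hc : c ∈ H r p e)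
    (hw : p + 2 * α + wt β ≤ w) (hz : p + 2 * α + z ≤ w) (hd : e + β.length ≤ d) :
    c • gen r α β ∈ Fil r z w d :=
  AddSubgroup.subset_closure ⟨α, β, p, e, c, hβ, hc, hw, hz, hd, rfl⟩

lemma Fil_mono {z z' w w' d d' : ℕ} (h'' : z' ≤ z) (h : w ≤ w') (h' : d ≤ d')
    {f : ℕ → (ℕ → ℕ) → K} (hf : f ∈ Fil r z w d) : f ∈ Fil r z' w' d' := by
  refine AddSubgroup.closure_mono ?_ hf
  rintro f ⟨α, β, p, e, c, hβ, hc, hw, hz, hd, rfl⟩
  exact ⟨α, β, p, e, c, hβ, hc, by omega, by omega, by omega, rfl⟩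

lemma Fil_smul {p e z w d : ℕ} {c : K} (hc : c ∈ H r p e) {f : ℕ → (ℕ → ℕ) → K}
    (hf : f ∈ Fil r z w d) : c • f ∈ Fil r z (w + p) (d + e) := by
  unfold Fil at hf
  induction hf using AddSubgroup.closure_induction with
  | mem f hf =>
    obtain ⟨α, β, p', e', c', hβ, hc', hw, hz, hd, rfl⟩ := hf
    rw [smul_smul]
    exact Fil_gen hβ (H_mul hc hc') (by omega) (by omega) (by omega)
  | zero => rw [smul_zero]; exact zero_mem _
  | add f g _ _ hf hg => rw [smul_add]; exact add_mem hf hg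
  | neg f _ hf => rw [smul_neg]; exact neg_mem hf

/-- image of the filtered class under `S` -/
def SFil (r : K) (z w d : ℕ) : AddSubgroup (ℕ → (ℕ → ℕ) → K) :=
  (Fil r z w d).map (S r).toAddMonoidHom

lemma mem_SFil {z w d : ℕ} {f : ℕ → (ℕ → ℕ) → K} :
    f ∈ SFil r z w d ↔ ∃ g ∈ Fil r z w d, S r g = f := Iff.rfl

lemma SFil_mono {z w w' d d' : ℕ} (h : w ≤ w') (h' : d ≤ d') {f : ℕ → (ℕ → ℕ) → K}
    (hf : f ∈ SFil r z w d) : f ∈ SFil r z w' d' := by
  obtain ⟨g, hg, rfl⟩ := mem_SFil.1 hf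
  exact mem_SFil.2 ⟨g, Fil_mono le_rfl h h' hg, rfl⟩

lemma SFil_smul {p e z w d : ℕ} {c : K} (hc : c ∈ H r p e) {f : ℕ → (ℕ → ℕ) → K}
    (hf : f ∈ SFil r z w d) : c • f ∈ SFil r z (w + p) (d + e) := by
  obtain ⟨g, hg, rfl⟩ := mem_SFil.1 hf
  exact mem_SFil.2 ⟨c • g, Fil_smul hc hg, by rw [map_smul]⟩

/-- a function of the first block, times a power of `n` -/
def lft (α : ℕ) : (ℕ → K) →ₗ[K] (ℕ → (ℕ → ℕ) → K) where
  toFun h n v := (n : K) ^ α * h (v 0)
  map_add' := by
    intro f g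
    funext n v
    simp only [Pi.add_apply]
    ring
  map_smul' := by
    intro c f
    funext n v
    simp only [Pi.smul_apply, smul_eq_mul, RingHom.id_apply]
    ring

lemma lft_apply (α : ℕ) (h : ℕ → K) (n : ℕ) (v : ℕ → ℕ) : lft α h n v = (n : K) ^ α * h (v 0) := rfl

lemma lft_Y (α t : ℕ) : lft α (Y r t) = gen r α [t] := by
  funext n v
  rw [lft_apply, gen, gb_cons, gb_nil, mul_one]
  rfl

lemma lft_mem {α z w : ℕ} {h : ℕ → K} (hh : h ∈ Fil1 r z w) :
    lft α h ∈ Fil r z (2 * α + w) 1 := by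
  unfold Fil1 at hh
  induction hh using AddSubgroup.closure_induction with
  | mem f hf =>
    obtain ⟨t, p, c, hc, hw, hz, rfl⟩ := hf
    rw [map_smul, lft_Y]
    exact Fil_gen (by simp) hc (by simp only [wt]; omega) (by omega) (by simp)
  | zero => rw [map_zero]; exact zero_mem _
  | add f g _ _ hf hg => rw [map_add]; exact add_mem hf hg
  | neg f _ hf => rw [map_neg]; exact neg_mem hf

lemma S_lft {α : ℕ} (w h : ℕ → K) (hw : TT r w = h) :
    lft α h = S r (lft α w) + ∑ k ∈ range α, ((α.choose k : ℕ) : K) • lft k (w - h) := by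
  funext n v
  have h1 : xx r * TS w (v 0) = w (v 0) - h (v 0) := by
    rw [← hw, TT_apply]; ring
  have h2 : xx r * L (lft α w) n v = ((n : K) + 1) ^ α * (w (v 0) - h (v 0)) := by
    rw [← h1, L_apply]
    simp only [lft_apply, cns_zero, TS]
    rw [← mul_sum]
    push_cast
    ring
  have h3 : ((n : K) + 1) ^ α = (n : K) ^ α + ∑ k ∈ range α, (α.choose k : K) * (n : K) ^ k := by
    rw [add_pow, sum_range_succ]
    simp only [one_pow, mul_one, Nat.choose_self, Nat.cast_one]
    rw [add_comm]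
    congr 1
    exact sum_congr rfl fun k _ => mul_comm _ _
  have h4 : S r (lft α w) n v = lft α w n v - xx r * L (lft α w) n v := rfl
  have h5 : (∑ k ∈ range α, ((α.choose k : ℕ) : K) • lft k (w - h)) n v =
      (∑ k ∈ range α, (α.choose k : K) * (n : K) ^ k) * (w (v 0) - h (v 0)) := by
    rw [Finset.sum_apply, Finset.sum_apply, sum_mul]
    apply sum_congr rfl
    intro k _
    simp only [Pi.smul_apply, lft_apply, Pi.sub_apply, smul_eq_mul]
    ring
  rw [Pi.add_apply, Pi.add_apply, h4, h2, h5, h3, lft_apply, lft_apply]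
  ring

/-- resolvent for functions of one block -/
lemma res_one (h0 : r ≠ 0) (h2 : 1 + r ≠ 0) (α : ℕ) : ∀ (w : ℕ) (h : ℕ → K), h ∈ Fil1 r 0 w →
    lft α h ∈ SFil r 2 (2 * α + w + 2) 1 := by
  induction α using Nat.strong_induction_on with
  | _ α ih =>
    intro w h hh
    unfold Fil1 at hh
    induction hh using AddSubgroup.closure_induction with
    | mem f hf =>
      obtain ⟨t, p, c, hc, hw, hz, rfl⟩ := hf
      obtain ⟨u, hu, hT⟩ := exists_res h0 h2 t
      have e1 : TT r (c • u) = c • Y r t := by rw [map_smul, hT]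
      rw [S_lft (c • u) (c • Y r t) e1]
      have hcu : c • u ∈ Fil1 r 2 (t + 3 + p) := Fil1_smul hc hu
      refine add_mem ?_ ?_
      · exact mem_SFil.2 ⟨lft α (c • u), Fil_mono le_rfl (by omega) le_rfl (lft_mem hcu), rfl⟩
      · apply sum_mem
        intro k hk
        have hk' := mem_range.1 hk
        have hd : c • u - c • Y r t ∈ Fil1 r 0 (t + 3 + p) :=
          sub_mem (Fil1_mono (by omega) le_rfl hcu) (Fil1_gen hc (by omega) (by omega))
        have := SFil_smul (H_nat (r := r) (α.choose k)) (ih k hk' _ _ hd)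
        exact SFil_mono (by omega) (by omega) this
    | zero => rw [map_zero]; exact zero_mem _
    | add f g _ _ hf hg => rw [map_add]; exact add_mem hf hg
    | neg f _ hf => rw [map_neg]; exact neg_mem hf

/-- the lucky step on generators -/
lemma L_gen (α s t : ℕ) (β : List ℕ) :
    xx r • L (gen r α (s :: t :: β)) = ∑ k ∈ range (α + 1), ∑ s' ∈ range (s + 1),
      ((α.choose k : ℕ) : K) • (xx r * Cc r) • gen r k ((s' + t + 1) :: β) := by
  funext n v
  have h1 : L (gen r α (s :: t :: β)) n v = ((n : K) + 1) ^ α * (Cc r * (Cc r *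
      (∑ s' ∈ range (s + 1), Z r (s' + t + 1) (v 0)) * gb r β (tl v))) := by
    rw [L_apply]
    simp only [gen, gb_cons, cns_zero, tl_cns]
    have h2 : ∑ i ∈ range (v 0 + 1), Z r s (i + 1) * Z r t (v 0 - i) =
        Cc r * ∑ s' ∈ range (s + 1), Z r (s' + t + 1) (v 0) := by
      simp only [Z_succ_right, mul_sum, sum_mul]
      rw [sum_comm]
      apply sum_congr rfl
      intro s' _
      rw [← Z_conv, mul_sum]
      apply sum_congr rfl
      intro i _
      ring
    rw [← h2]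
    simp only [sum_mul, mul_sum]
    apply sum_congr rfl
    intro i _
    push_cast
    ring
  have h3 : ((n : K) + 1) ^ α = ∑ k ∈ range (α + 1), (α.choose k : K) * (n : K) ^ k := by
    rw [add_pow]
    simp only [one_pow, mul_one]
    exact sum_congr rfl fun k _ => mul_comm _ _
  rw [Pi.smul_apply, Pi.smul_apply, h1, h3, Finset.sum_apply, Finset.sum_apply, smul_eq_mul,
    sum_mul, mul_sum]
  apply sum_congr rfl
  intro k _
  rw [Finset.sum_apply, Finset.sum_apply, mul_sum, sum_mul, mul_sum, mul_sum, mul_sum]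
  apply sum_congr rfl
  intro s' _
  simp only [Pi.smul_apply, smul_eq_mul, gen, gb_cons]
  ring

lemma res_gen (h0 : r ≠ 0) (h2 : 1 + r ≠ 0) (m : ℕ) : ∀ (β : List ℕ) (_ : β.length = m + 1)
    (α : ℕ), gen r α β ∈ SFil r 2 (2 * α + wt β + 2) (m + 1) := by
  induction m with
  | zero =>
    intro β hβ α
    obtain ⟨s, rfl⟩ := List.length_eq_one_iff.1 hβ
    rw [← lft_Y]
    exact SFil_mono (by simp only [wt]; omega) le_rfl (res_one h0 h2 α (s + 1) _ (Fil1_Y s))
  | succ m ih =>
    intro β hβ α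
    match β, hβ with
    | s :: t :: β, hβ =>
      have hlen : β.length = m := by
        simp only [List.length_cons] at hβ
        omega
      have key : xx r • L (gen r α (s :: t :: β)) ∈
          SFil r 2 (2 * α + wt (s :: t :: β) + 2) (m + 1 + 1) := by
        rw [L_gen]
        apply sum_mem
        intro k hk
        have hk' := mem_range.1 hk
        apply sum_mem
        intro s' hs'
        have hs'' := mem_range.1 hs'
        have h5 := ih ((s' + t + 1) :: β) (by rw [List.length_cons, hlen]) k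
        have h6 := SFil_smul (H_nat (r := r) (α.choose k)) (SFil_smul (H_xC h2) h5)
        exact SFil_mono (by simp only [wt]; omega) (by omega) h6
      obtain ⟨g, hg, hgS⟩ := mem_SFil.1 key
      refine mem_SFil.2 ⟨gen r α (s :: t :: β) + g, add_mem ?_ hg, ?_⟩
      · have h7 := Fil_gen (r := r) (α := α) (β := s :: t :: β) (p := 0) (e := 0) (z := 2)
          (w := 2 * α + wt (s :: t :: β) + 2) (d := m + 1 + 1) (by simp) H_one (by omega)
          (by omega) (by simp only [List.length_cons]; omega)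
        rwa [one_smul] at h7
      · rw [map_add, hgS, S_eq]
        abel

/-- the resolvent -/
lemma res_Fil (h0 : r ≠ 0) (h2 : 1 + r ≠ 0) {w d : ℕ} {f : ℕ → (ℕ → ℕ) → K}
    (hf : f ∈ Fil r 0 w d) : f ∈ SFil r 2 (w + 2) d := by
  unfold Fil at hf
  induction hf using AddSubgroup.closure_induction with
  | mem f hf =>
    obtain ⟨α, β, p, e, c, hβ, hc, hw, hz, hd, rfl⟩ := hf
    obtain ⟨m, hm⟩ : ∃ m, β.length = m + 1 := by
      cases β with
      | nil => exact absurd rfl hβ
      | cons s β => exact ⟨β.length, rfl⟩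
    exact SFil_mono (by omega) (by omega) (SFil_smul hc (res_gen h0 h2 m β hm α))
  | zero => exact zero_mem _
  | add f g _ _ hf hg => exact add_mem hf hg
  | neg f _ hf => exact neg_mem hf

end

end Pool.Agent.LuckyDiag
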