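import Pool.Agent.Work.MP_d4a4cd_h25.Unl

/-!
# Pairs: functions together with their leading behaviour at `r = -1`
-/

set_option autoImplicit false
set_option linter.unusedSectionVars false

namespace Pool.Agent.LuckyDiag

open Finset Polynomial

/-- multiplication of a pair by a pair of scalars -/
def sm {K M N : Type*} [Field K] [AddCommGroup M] [Module K M] [AddCommGroup N] [Module ℚ N]
    (c : K × ℚ) (f : M × N) : M × N := (c.1 • f.1, c.2 • f.2)

section
variable {K M N : Type*} [Field K] [AddCommGroup M] [Module K M] [AddCommGroup N] [Module ℚ N]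

lemma sm_fst (c : K × ℚ) (f : M × N) : (sm c f).1 = c.1 • f.1 := rfl

lemma sm_snd (c : K × ℚ) (f : M × N) : (sm c f).2 = c.2 • f.2 := rfl

lemma sm_add (c : K × ℚ) (f g : M × N) : sm c (f + g) = sm c f + sm c g := by
  ext <;> simp [sm, smul_add]

lemma sm_neg (c : K × ℚ) (f : M × N) : sm c (-f) = -sm c f := by
  ext <;> simp [sm, smul_neg]

lemma sm_sub (c : K × ℚ) (f g : M × N) : sm c (f - g) = sm c f - sm c g := by
  rw [sub_eq_add_neg, sm_add, sm_neg, ← sub_eq_add_neg]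

lemma sm_zero (c : K × ℚ) : sm c (0 : M × N) = 0 := by
  ext <;> simp [sm]

lemma sm_sm (c c' : K × ℚ) (f : M × N) : sm c (sm c' f) = sm (c * c') f := by
  ext <;> simp [sm, smul_smul]

lemma one_sm (f : M × N) : sm (1 : K × ℚ) f = f := by
  ext <;> simp [sm]

end

lemma Cc_one : Cc (1 : ℚ) = 1 := by
  unfold Cc
  norm_num

section
variable {K : Type*} [Field K] [CharZero K] (r : K)

/-- Coefficients together with their value at `r = -1`. -/
def H2 (p e : ℕ) : AddSubgroup (K × ℚ) where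
  carrier := {c | ∃ (N : ℕ) (A : ℚ[X]), A.natDegree ≤ N + p + e ∧
    (1 - r) ^ N * r ^ p * c.1 = ev r A ∧ 2 ^ N * (-1) ^ p * c.2 = A.eval (-1)}
  zero_mem' := ⟨0, 0, by simp, by simp [ev], by simp⟩
  add_mem' := by
    rintro c c' ⟨N, A, hA, h, g⟩ ⟨N', A', hA', h', g'⟩
    refine ⟨N + N', (1 - X) ^ N' * A + (1 - X) ^ N * A', ?_, ?_, ?_⟩
    · refine (natDegree_add_le _ _).trans (max_le ?_ ?_)
      · refine (natDegree_aux _ _).trans ?_
        omega
      · refine (natDegree_aux _ _).trans ?_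
        omega
    · rw [ev_add, ev_mul, ev_mul, ev_pow, ev_pow, ev_one_sub_X, ← h, ← h', Prod.fst_add]
      ring
    · rw [eval_add, eval_mul, eval_mul, eval_pow, eval_pow, eval_sub, eval_X, eval_one, ← g, ← g',
        Prod.snd_add]
      norm_num
      ring
  neg_mem' := by
    rintro c ⟨N, A, hA, h, g⟩
    refine ⟨N, -A, ?_, ?_, ?_⟩
    · rw [natDegree_neg]; exact hA
    · rw [ev_neg, ← h, Prod.fst_neg]; ring
    · rw [eval_neg, ← g, Prod.snd_neg]; ring

variable {r}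

lemma H2_mono {p p' e e' : ℕ} (hp : p ≤ p') (he : e ≤ e') {c : K × ℚ} (hc : c ∈ H2 r p e) :
    c ∈ H2 r p' e' := by
  obtain ⟨N, A, hA, h, g⟩ := hc
  obtain ⟨k, rfl⟩ := Nat.exists_eq_add_of_le hp
  refine ⟨N, X ^ k * A, ?_, ?_, ?_⟩
  · refine natDegree_mul_le.trans ?_
    rw [natDegree_X_pow]
    omega
  · rw [ev_mul, ev_pow, ev_X, ← h]
    ring
  · rw [eval_mul, eval_pow, eval_X, ← g]
    ring

lemma H2_mul {p p' e e' : ℕ} {c c' : K × ℚ} (hc : c ∈ H2 r p e) (hc' : c' ∈ H2 r p' e') :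
    c * c' ∈ H2 r (p + p') (e + e') := by
  obtain ⟨N, A, hA, h, g⟩ := hc
  obtain ⟨N', A', hA', h', g'⟩ := hc'
  refine ⟨N + N', A * A', ?_, ?_, ?_⟩
  · refine natDegree_mul_le.trans ?_
    omega
  · rw [ev_mul, ← h, ← h', Prod.fst_mul]
    ring
  · rw [eval_mul, ← g, ← g', Prod.snd_mul]
    ring

lemma H2_rat (q : ℚ) : ((q : K), q) ∈ H2 r 0 0 :=
  ⟨0, C q, by simp, by rw [ev_C]; simp, by simp⟩

lemma H2_nat (q : ℕ) : ((q : K), (q : ℚ)) ∈ H2 r 0 0 := by
  have := H2_rat (r := r) (q : ℚ)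
  simpa using this

lemma H2_one : (1 : K × ℚ) ∈ H2 r 0 0 := by
  have h : (1 : K × ℚ) = (((1 : ℕ) : K), ((1 : ℕ) : ℚ)) := by ext <;> simp
  rw [h]
  exact H2_nat 1

lemma H2_xC (h2 : 1 + r ≠ 0) : (xx r * Cc r, (1 : ℚ)) ∈ H2 r 0 1 := by
  refine ⟨0, C (1 / 2) * (1 - X), ?_, ?_, ?_⟩
  · refine natDegree_mul_le.trans ?_
    rw [natDegree_C, zero_add, zero_add, zero_add]
    refine (natDegree_sub_le _ _).trans ?_
    simp
  · rw [ev_mul, ev_C, ev_one_sub_X]
    unfold xx Cc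
    push_cast
    field_simp
    ring
  · simp
    norm_num

lemma H2_a (h0 : r ≠ 0) : ((1 - r) / (2 * r), (-1 : ℚ)) ∈ H2 r 1 0 := by
  refine ⟨0, C (1 / 2) * (1 - X), ?_, ?_, ?_⟩
  · refine natDegree_mul_le.trans ?_
    rw [natDegree_C, zero_add]
    refine (natDegree_sub_le _ _).trans ?_
    simp
  · rw [ev_mul, ev_C, ev_one_sub_X]
    push_cast
    field_simp
  · simp
    norm_num

lemma H2_b (h0 : r ≠ 0) : ((1 + r) / (2 * r), (0 : ℚ)) ∈ H2 r 1 0 := by
  refine ⟨0, C (1 / 2) * (C 1 + X), ?_, ?_, ?_⟩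
  · refine natDegree_mul_le.trans ?_
    rw [natDegree_C, zero_add]
    refine (natDegree_add_le _ _).trans ?_
    simp
  · rw [ev_mul, ev_C, ev_add, ev_C, ev_X]
    push_cast
    field_simp
  · simp

lemma H2_c (h1 : 1 - r ≠ 0) : (2 / (1 - r), (1 : ℚ)) ∈ H2 r 0 0 := by
  refine ⟨1, C 2, by simp, ?_, ?_⟩
  · rw [ev_C]
    push_cast
    field_simp
  · simp

lemma H2_d (h1 : 1 - r ≠ 0) : ((1 + r) / (1 - r), (0 : ℚ)) ∈ H2 r 0 0 := by
  refine ⟨1, C 1 + X, ?_, ?_, ?_⟩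
  · refine (natDegree_add_le _ _).trans ?_
    simp
  · rw [ev_add, ev_C, ev_X]
    push_cast
    field_simp
  · simp

/-! ## One variable -/

variable (r)

/-- `Y` with its leading part -/
def Y2 (t : ℕ) : (ℕ → K) × (ℕ → ℚ) := (Y r t, Z (1 : ℚ) t)

/-- one-variable filtration -/
def F1 (z w : ℕ) : AddSubgroup ((ℕ → K) × (ℕ → ℚ)) :=
  AddSubgroup.closure {h | ∃ (t p : ℕ) (c : K × ℚ), c ∈ H2 r p 0 ∧ p + t + 1 ≤ w ∧ p + z ≤ w ∧
    h = sm c (Y2 r t)}

variable {r}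

lemma F1_gen {t p z w : ℕ} {c : K × ℚ} (hc : c ∈ H2 r p 0) (hw : p + t + 1 ≤ w)
    (hz : p + z ≤ w) : sm c (Y2 r t) ∈ F1 r z w :=
  AddSubgroup.subset_closure ⟨t, p, c, hc, hw, hz, rfl⟩

lemma F1_mono {z z' w w' : ℕ} (h' : z' ≤ z) (h : w ≤ w') {f : (ℕ → K) × (ℕ → ℚ)}
    (hf : f ∈ F1 r z w) : f ∈ F1 r z' w' := by
  refine AddSubgroup.closure_mono ?_ hf
  rintro f ⟨t, p, c, hc, hw, hz, rfl⟩
  exact ⟨t, p, c, hc, by omega, by omega, rfl⟩

lemma F1_smul {p z w : ℕ} {c : K × ℚ} (hc : c ∈ H2 r p 0) {f : (ℕ → K) × (ℕ → ℚ)}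
    (hf : f ∈ F1 r z w) : sm c f ∈ F1 r z (w + p) := by
  unfold F1 at hf
  induction hf using AddSubgroup.closure_induction with
  | mem f hf =>
    obtain ⟨t, p', c', hc', hw, hz, rfl⟩ := hf
    rw [sm_sm]
    exact F1_gen (H2_mul hc hc') (by omega) (by omega)
  | zero => rw [sm_zero]; exact zero_mem _
  | add f g _ _ hf hg => rw [sm_add]; exact add_mem hf hg
  | neg f _ hf => rw [sm_neg]; exact neg_mem hf

lemma F1_Y (s : ℕ) : Y2 r s ∈ F1 r 0 (s + 1) := by
  have := F1_gen (r := r) (t := s) (p := 0) (z := 0) (w := s + 1) H2_one (by omega) (by omega)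
  rwa [one_sm] at this

/-- the one-variable resolvent -/
lemma exists_res2 (h0 : r ≠ 0) (h2 : 1 + r ≠ 0) (s : ℕ) :
    ∃ w ∈ F1 r 2 (s + 3), TT r w.1 = Y r s ∧ w.2 0 = 0 ∧
      ∀ a, w.2 a - w.2 (a + 1) = Z (1 : ℚ) s a := by
  induction s using Nat.strong_induction_on with
  | _ s ih =>
    choose! w hw hT h00 hd using ih
    have key : ∑ t ∈ range s, w t ∈ F1 r 2 (s + 2) := by
      apply sum_mem
      intro t ht
      have := mem_range.1 ht
      exact F1_mono le_rfl (by omega) (hw t this)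
    refine ⟨sm ((1 - r) / (2 * r), (-1 : ℚ)) (Y2 r (s + 1)) +
      sm ((1 + r) / (2 * r), (0 : ℚ)) (Y2 r s) -
      sm ((1 - r) / (2 * r), (-1 : ℚ)) (Y2 r 0) +
      sm ((1 - r) / (2 * r), (-1 : ℚ)) (∑ t ∈ range s, w t), ?_, ?_, ?_, ?_⟩
    · refine add_mem (sub_mem (add_mem ?_ ?_) ?_) ?_
      · exact F1_gen (H2_a h0) (by omega) (by omega)
      · exact F1_gen (H2_b h0) (by omega) (by omega)
      · exact F1_gen (H2_a h0) (by omega) (by omega)
      · exact F1_smul (H2_a h0) key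
    · have e1 : TT r (∑ t ∈ range s, (w t).1) = ∑ t ∈ range s, Y r t := by
        rw [map_sum]
        exact sum_congr rfl fun t ht => hT t (mem_range.1 ht)
      simp only [Prod.fst_add, Prod.fst_sub, sm_fst, Y2, Prod.fst_sum]
      rw [map_add, map_sub, map_add, map_smul, map_smul, map_smul, map_smul, e1]
      funext a
      have e2 := TY_zero r h2 a
      have e3 := TY_succ r h2 s a
      simp only [Pi.add_apply, Pi.sub_apply, Pi.smul_apply, smul_eq_mul, TT_apply,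
        Finset.sum_apply] at e2 e3 ⊢
      rw [e2]
      field_simp
      linear_combination e3
    · simp only [Prod.snd_add, Prod.snd_sub, sm_snd, Y2, Prod.snd_sum, Pi.add_apply,
        Pi.sub_apply, Pi.smul_apply, smul_eq_mul, Finset.sum_apply, Z_zero_right]
      rw [sum_congr rfl (fun t ht => h00 t (mem_range.1 ht))]
      simp
    · intro a
      simp only [Prod.snd_add, Prod.snd_sub, sm_snd, Y2, Prod.snd_sum, Pi.add_apply,
        Pi.sub_apply, Pi.smul_apply, smul_eq_mul, Finset.sum_apply]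
      have e4 : ∑ t ∈ range s, (w t).2 a - ∑ t ∈ range s, (w t).2 (a + 1) =
          ∑ t ∈ range s, Z (1 : ℚ) t a := by
        rw [← sum_sub_distrib]
        exact sum_congr rfl fun t ht => hd t (mem_range.1 ht) a
      have e5 : Z (1 : ℚ) (s + 1) (a + 1) = ∑ t ∈ range (s + 1 + 1), Z (1 : ℚ) t a := by
        rw [Z_succ_right, Cc_one, one_mul]
      have e6 : Z (1 : ℚ) 0 (a + 1) = Z (1 : ℚ) 0 a := by
        rw [Z_succ_right, Cc_one]; simp
      rw [sum_range_succ, sum_range_succ] at e5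
      linear_combination e5 - e4 - e6

end

end Pool.Agent.LuckyDiag
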