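import Pool.Agent.Work.MP_d4a4cd_h25.PairA

/-!
# Pairs: the resolvent
-/

set_option autoImplicit false
set_option linter.unusedSectionVars false

namespace Pool.Agent.LuckyDiag

open Finset

section
variable {K : Type*} [Field K] [CharZero K] (r : K)

/-- Pairs: a function of the state, and for each `k` the leading part, at `r = -1`, of the
contributions of at least `k` blocks. -/
abbrev E2 (K : Type*) : Type _ := (ℕ → (ℕ → ℕ) → K) × (ℕ → ℕ → (ℕ → ℕ) → ℚ)

/-- generators -/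
def gen2 (α : ℕ) (β : List ℕ) : E2 K :=
  (gen r α β, fun k n v => if k ≤ β.length then (n : ℚ) ^ α * gb (1 : ℚ) β v else 0)

/-- the lucky step at `r = -1` -/
def Lb (ψ : ℕ → (ℕ → ℕ) → ℚ) (n : ℕ) (v : ℕ → ℕ) : ℚ :=
  ∑ i ∈ range (v 0 + 1), ψ (n + 1) (cns (i + 1) (cns (v 0 - i) (tl v)))

lemma Lb_add (ψ χ : ℕ → (ℕ → ℕ) → ℚ) (n : ℕ) (v : ℕ → ℕ) :
    Lb (ψ + χ) n v = Lb ψ n v + Lb χ n v := by
  simp only [Lb, Pi.add_apply, sum_add_distrib]

lemma Lb_neg (ψ : ℕ → (ℕ → ℕ) → ℚ) (n : ℕ) (v : ℕ → ℕ) : Lb (-ψ) n v = -Lb ψ n v := by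
  simp only [Lb, Pi.neg_apply, sum_neg_distrib]

lemma Lb_smul (q : ℚ) (ψ : ℕ → (ℕ → ℕ) → ℚ) (n : ℕ) (v : ℕ → ℕ) :
    Lb (q • ψ) n v = q * Lb ψ n v := by
  simp only [Lb, Pi.smul_apply, smul_eq_mul, mul_sum]

lemma Lb_zero (n : ℕ) (v : ℕ → ℕ) : Lb 0 n v = 0 := by
  simp [Lb]

/-- The relation `x = y + x L x` for pairs. -/
structure Rel (r : K) (x y : E2 K) : Prop where
  h1 : S r x.1 = y.1
  h2 : ∀ k, 2 ≤ k → ∀ n v, x.2 k n v = Lb (x.2 (k + 1)) n v + y.2 k n v
  h3 : ∀ n v, v 0 = 0 → x.2 1 n v = x.2 2 n v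
  h4 : ∀ n v, (x.2 1 n v - x.2 2 n v) -
    (x.2 1 (n + 1) (cns (v 0 + 1) (tl v)) - x.2 2 (n + 1) (cns (v 0 + 1) (tl v))) =
    Lb (x.2 2) n v - Lb (x.2 3) n v + (y.2 1 n v - y.2 2 n v)

variable {r}

lemma Rel.zero : Rel r 0 0 := by
  refine ⟨?_, ?_, ?_, ?_⟩
  · rw [Prod.fst_zero, map_zero]
  · intro k _ n v
    have : ((0 : E2 K).2 (k + 1)) = 0 := rfl
    rw [this, Lb_zero]
    simp
  · intro n v _
    rfl
  · intro n v
    have e2 : ((0 : E2 K).2 2) = 0 := rfl
    have e3 : ((0 : E2 K).2 3) = 0 := rfl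
    rw [e2, e3, Lb_zero]
    simp

lemma Rel.add {x y x' y' : E2 K} (h : Rel r x y) (h' : Rel r x' y') :
    Rel r (x + x') (y + y') := by
  refine ⟨?_, ?_, ?_, ?_⟩
  · rw [Prod.fst_add, map_add, h.h1, h'.h1, Prod.fst_add]
  · intro k hk n v
    have e : (x + x').2 (k + 1) = x.2 (k + 1) + x'.2 (k + 1) := rfl
    rw [e, Lb_add]
    simp only [Prod.snd_add, Pi.add_apply]
    rw [h.h2 k hk, h'.h2 k hk]
    ring
  · intro n v hv
    simp only [Prod.snd_add, Pi.add_apply]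
    rw [h.h3 n v hv, h'.h3 n v hv]
  · intro n v
    have e2 : (x + x').2 2 = x.2 2 + x'.2 2 := rfl
    have e3 : (x + x').2 3 = x.2 3 + x'.2 3 := rfl
    have a1 := h.h4 n v
    have a2 := h'.h4 n v
    rw [e2, e3, Lb_add, Lb_add]
    simp only [Prod.snd_add, Pi.add_apply]
    linear_combination a1 + a2

lemma Rel.neg {x y : E2 K} (h : Rel r x y) : Rel r (-x) (-y) := by
  refine ⟨?_, ?_, ?_, ?_⟩
  · rw [Prod.fst_neg, map_neg, h.h1, Prod.fst_neg]
  · intro k hk n v
    have e : (-x).2 (k + 1) = -(x.2 (k + 1)) := rfl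
    rw [e, Lb_neg]
    simp only [Prod.snd_neg, Pi.neg_apply]
    rw [h.h2 k hk]
    ring
  · intro n v hv
    simp only [Prod.snd_neg, Pi.neg_apply]
    rw [h.h3 n v hv]
  · intro n v
    have e2 : (-x).2 2 = -(x.2 2) := rfl
    have e3 : (-x).2 3 = -(x.2 3) := rfl
    have a1 := h.h4 n v
    rw [e2, e3, Lb_neg, Lb_neg]
    simp only [Prod.snd_neg, Pi.neg_apply]
    linear_combination -a1

lemma Rel.sm {x y : E2 K} (c : K × ℚ) (h : Rel r x y) : Rel r (sm c x) (sm c y) := by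
  refine ⟨?_, ?_, ?_, ?_⟩
  · rw [sm_fst, map_smul, h.h1, sm_fst]
  · intro k hk n v
    have e : (LuckyDiag.sm c x).2 (k + 1) = c.2 • (x.2 (k + 1)) := rfl
    rw [e, Lb_smul]
    simp only [sm_snd, Pi.smul_apply, smul_eq_mul]
    rw [h.h2 k hk]
    ring
  · intro n v hv
    simp only [sm_snd, Pi.smul_apply]
    rw [h.h3 n v hv]
  · intro n v
    have e2 : (LuckyDiag.sm c x).2 2 = c.2 • (x.2 2) := rfl
    have e3 : (LuckyDiag.sm c x).2 3 = c.2 • (x.2 3) := rfl
    have a1 := h.h4 n v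
    rw [e2, e3, Lb_smul, Lb_smul]
    simp only [sm_snd, Pi.smul_apply, smul_eq_mul]
    linear_combination c.2 * a1

/-- the filtered class -/
def F2 (r : K) (z w d : ℕ) : AddSubgroup (E2 K) :=
  AddSubgroup.closure {f | ∃ (α : ℕ) (β : List ℕ) (p e : ℕ) (c : K × ℚ), β ≠ [] ∧
    c ∈ H2 r p e ∧ p + 2 * α + wt β ≤ w ∧ p + 2 * α + z ≤ w ∧ e + β.length ≤ d ∧
    f = sm c (gen2 r α β)}

lemma F2_gen {α : ℕ} {β : List ℕ} {p e z w d : ℕ} {c : K × ℚ} (hβ : β ≠ [])
    (hc : c ∈ H2 r p e) (hw : p + 2 * α + wt β ≤ w) (hz : p + 2 * α + z ≤ w)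
    (hd : e + β.length ≤ d) : sm c (gen2 r α β) ∈ F2 r z w d :=
  AddSubgroup.subset_closure ⟨α, β, p, e, c, hβ, hc, hw, hz, hd, rfl⟩

lemma F2_mono {z z' w w' d d' : ℕ} (h'' : z' ≤ z) (h : w ≤ w') (h' : d ≤ d')
    {f : E2 K} (hf : f ∈ F2 r z w d) : f ∈ F2 r z' w' d' := by
  refine AddSubgroup.closure_mono ?_ hf
  rintro f ⟨α, β, p, e, c, hβ, hc, hw, hz, hd, rfl⟩
  exact ⟨α, β, p, e, c, hβ, hc, by omega, by omega, by omega, rfl⟩

lemma F2_smul {p e z w d : ℕ} {c : K × ℚ} (hc : c ∈ H2 r p e) {f : E2 K}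
    (hf : f ∈ F2 r z w d) : sm c f ∈ F2 r z (w + p) (d + e) := by
  unfold F2 at hf
  induction hf using AddSubgroup.closure_induction with
  | mem f hf =>
    obtain ⟨α, β, p', e', c', hβ, hc', hw, hz, hd, rfl⟩ := hf
    rw [sm_sm]
    exact F2_gen hβ (H2_mul hc hc') (by omega) (by omega) (by omega)
  | zero => rw [sm_zero]; exact zero_mem _
  | add f g _ _ hf hg => rw [sm_add]; exact add_mem hf hg
  | neg f _ hf => rw [sm_neg]; exact neg_mem hf

/-- pairs `y` for which `x = y + x L x` is solvable -/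
def SF2 (r : K) (z w d : ℕ) : AddSubgroup (E2 K) where
  carrier := {y | ∃ x ∈ F2 r z w d, Rel r x y}
  zero_mem' := ⟨0, zero_mem _, Rel.zero⟩
  add_mem' := by
    rintro y y' ⟨x, hx, h⟩ ⟨x', hx', h'⟩
    exact ⟨x + x', add_mem hx hx', h.add h'⟩
  neg_mem' := by
    rintro y ⟨x, hx, h⟩
    exact ⟨-x, neg_mem hx, h.neg⟩

lemma SF2_mono {z w w' d d' : ℕ} (h : w ≤ w') (h' : d ≤ d') {f : E2 K}
    (hf : f ∈ SF2 r z w d) : f ∈ SF2 r z w' d' := by
  obtain ⟨g, hg, hr⟩ := hf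
  exact ⟨g, F2_mono le_rfl h h' hg, hr⟩

lemma SF2_smul {p e z w d : ℕ} {c : K × ℚ} (hc : c ∈ H2 r p e) {f : E2 K}
    (hf : f ∈ SF2 r z w d) : sm c f ∈ SF2 r z (w + p) (d + e) := by
  obtain ⟨g, hg, hr⟩ := hf
  exact ⟨sm c g, F2_smul hc hg, hr.sm c⟩

/-- a function of the first block, times a power of `n` -/
def lft2 (α : ℕ) (h : (ℕ → K) × (ℕ → ℚ)) : E2 K :=
  (lft α h.1, fun k n v => if k ≤ 1 then (n : ℚ) ^ α * h.2 (v 0) else 0)

lemma lft2_add (α : ℕ) (h h' : (ℕ → K) × (ℕ → ℚ)) : lft2 α (h + h') = lft2 α h + lft2 α h' := by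
  refine Prod.ext ?_ ?_
  · simp only [lft2, Prod.fst_add, map_add]
  · funext k n v
    simp only [lft2, Prod.snd_add, Pi.add_apply]
    split_ifs
    · ring
    · ring

lemma lft2_neg (α : ℕ) (h : (ℕ → K) × (ℕ → ℚ)) : lft2 α (-h) = -lft2 α h := by
  refine Prod.ext ?_ ?_
  · simp only [lft2, Prod.fst_neg, map_neg]
  · funext k n v
    simp only [lft2, Prod.snd_neg, Pi.neg_apply]
    split_ifs
    · ring
    · ring

lemma lft2_zero (α : ℕ) : lft2 α (0 : (ℕ → K) × (ℕ → ℚ)) = 0 := by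
  refine Prod.ext ?_ ?_
  · simp only [lft2, Prod.fst_zero, map_zero]
  · funext k n v
    simp [lft2]

lemma lft2_sm (α : ℕ) (c : K × ℚ) (h : (ℕ → K) × (ℕ → ℚ)) :
    lft2 α (sm c h) = sm c (lft2 α h) := by
  refine Prod.ext ?_ ?_
  · simp only [lft2, sm_fst, map_smul]
  · funext k n v
    simp only [lft2, sm_snd, Pi.smul_apply, smul_eq_mul]
    split_ifs
    · ring
    · ring

lemma lft2_Y (α t : ℕ) : lft2 α (Y2 r t) = gen2 r α [t] := by
  refine Prod.ext ?_ ?_
  · exact lft_Y α t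
  · funext k n v
    simp only [lft2, gen2, Y2, gb_cons, gb_nil, mul_one, List.length_cons, List.length_nil,
      zero_add]

lemma lft2_mem {α z w : ℕ} {h : (ℕ → K) × (ℕ → ℚ)} (hh : h ∈ F1 r z w) :
    lft2 α h ∈ F2 r z (2 * α + w) 1 := by
  unfold F1 at hh
  induction hh using AddSubgroup.closure_induction with
  | mem f hf =>
    obtain ⟨t, p, c, hc, hw, hz, rfl⟩ := hf
    rw [lft2_sm, lft2_Y]
    exact F2_gen (by simp) hc (by simp only [wt]; omega) (by omega) (by simp)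
  | zero => rw [lft2_zero]; exact zero_mem _
  | add f g _ _ hf hg => rw [lft2_add]; exact add_mem hf hg
  | neg f _ hf => rw [lft2_neg]; exact neg_mem hf

lemma Lb_zero' (n : ℕ) (v : ℕ → ℕ) : Lb (fun _ _ => 0) n v = 0 := by
  simp [Lb]

lemma S_lft2 {α : ℕ} (w h : (ℕ → K) × (ℕ → ℚ)) (hw : TT r w.1 = h.1) (hw0 : w.2 0 = 0)
    (hwd : ∀ a, w.2 a - w.2 (a + 1) = h.2 a) :
    Rel r (lft2 α w) (lft2 α h - ∑ k ∈ range α,
      sm (((α.choose k : ℕ) : K), ((α.choose k : ℕ) : ℚ)) (lft2 k (w - h))) := by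
  refine ⟨?_, ?_, ?_, ?_⟩
  · rw [Prod.fst_sub, Prod.fst_sum]
    have e := S_lft (α := α) w.1 h.1 hw
    simp only [sm_fst, lft2, Prod.fst_sub]
    rw [e]
    abel
  · intro k hk n v
    have e1 : (lft2 α w : E2 K).2 (k + 1) = fun _ _ => 0 := by
      funext n v
      simp only [lft2]
      rw [if_neg (by omega)]
    rw [e1, Lb_zero']
    simp only [Prod.snd_sub, Prod.snd_sum, Pi.sub_apply, Finset.sum_apply, sm_snd,
      Pi.smul_apply, lft2]
    rw [if_neg (by omega), if_neg (by omega)]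
    simp [show ¬ k ≤ 1 by omega]
  · intro n v hv
    simp only [lft2]
    rw [if_pos (by omega), if_neg (by omega), hv, hw0, mul_zero]
  · intro n v
    have e1 : (lft2 α w : E2 K).2 2 = fun _ _ => 0 := by
      funext n v
      simp only [lft2]
      rw [if_neg (by omega)]
    have e2 : (lft2 α w : E2 K).2 3 = fun _ _ => 0 := by
      funext n v
      simp only [lft2]
      rw [if_neg (by omega)]
    rw [e1, e2, Lb_zero']
    simp only [Prod.snd_sub, Prod.snd_sum, Pi.sub_apply, Finset.sum_apply, sm_snd,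
      Pi.smul_apply, lft2, cns_zero]
    rw [if_pos (by omega), if_pos (by omega)]
    simp only [show (1 : ℕ) ≤ 1 from le_rfl, show ¬ (2 : ℕ) ≤ 1 by omega, if_true, if_false,
      smul_eq_mul, mul_zero, sum_const_zero, sub_zero]
    have h3 : ((n : ℚ) + 1) ^ α = (n : ℚ) ^ α + ∑ k ∈ range α, (α.choose k : ℚ) * (n : ℚ) ^ k := by
      rw [add_pow, sum_range_succ]
      simp only [one_pow, mul_one, Nat.choose_self, Nat.cast_one]
      rw [add_comm]
      congr 1
      exact sum_congr rfl fun k _ => mul_comm _ _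
    have h5 : ∑ k ∈ range α, (α.choose k : ℚ) * ((n : ℚ) ^ k * (w.2 (v 0) - h.2 (v 0))) =
        (∑ k ∈ range α, (α.choose k : ℚ) * (n : ℚ) ^ k) * (w.2 (v 0) - h.2 (v 0)) := by
      rw [sum_mul]
      exact sum_congr rfl fun k _ => by ring
    have h6 := hwd (v 0)
    rw [h5]
    push_cast
    linear_combination ((n : ℚ) + 1) ^ α * h6 + (h.2 (v 0) - w.2 (v 0)) * h3

/-- resolvent for functions of one block -/
lemma res_one2 (h0 : r ≠ 0) (h2 : 1 + r ≠ 0) (α : ℕ) : ∀ (w : ℕ) (h : (ℕ → K) × (ℕ → ℚ)),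
    h ∈ F1 r 0 w → lft2 α h ∈ SF2 r 2 (2 * α + w + 2) 1 := by
  induction α using Nat.strong_induction_on with
  | _ α ih =>
    intro w h hh
    unfold F1 at hh
    induction hh using AddSubgroup.closure_induction with
    | mem f hf =>
      obtain ⟨t, p, c, hc, hw, hz, rfl⟩ := hf
      obtain ⟨u, hu, hT, hu0, hud⟩ := exists_res2 h0 h2 t
      have hcu : sm c u ∈ F1 r 2 (t + 3 + p) := F1_smul hc hu
      have e1 := S_lft2 (r := r) (α := α) (sm c u) (sm c (Y2 r t))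
        (by rw [sm_fst, map_smul, hT]; rfl) (by rw [sm_snd, Pi.smul_apply, hu0, smul_zero])
        (by
          intro a
          simp only [sm_snd, Pi.smul_apply, smul_eq_mul, Y2]
          rw [← hud a]
          ring)
      have e2 : lft2 α (sm c (Y2 r t)) = (lft2 α (sm c (Y2 r t)) - ∑ k ∈ range α,
          sm (((α.choose k : ℕ) : K), ((α.choose k : ℕ) : ℚ))
            (lft2 k (sm c u - sm c (Y2 r t)))) + ∑ k ∈ range α,
          sm (((α.choose k : ℕ) : K), ((α.choose k : ℕ) : ℚ))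
            (lft2 k (sm c u - sm c (Y2 r t))) := by abel
      rw [e2]
      refine add_mem ?_ ?_
      · exact ⟨lft2 α (sm c u), F2_mono le_rfl (by omega) le_rfl (lft2_mem hcu), e1⟩
      · apply sum_mem
        intro k hk
        have hk' := mem_range.1 hk
        have hd : sm c u - sm c (Y2 r t) ∈ F1 r 0 (t + 3 + p) :=
          sub_mem (F1_mono (by omega) le_rfl hcu) (F1_gen hc (by omega) (by omega))
        have := SF2_smul (H2_nat (r := r) (α.choose k)) (ih k hk' _ _ hd)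
        exact SF2_mono (by omega) (by omega) this
    | zero => rw [lft2_zero]; exact zero_mem _
    | add f g _ _ hf hg => rw [lft2_add]; exact add_mem hf hg
    | neg f _ hf => rw [lft2_neg]; exact neg_mem hf

/-- the lucky step on generators -/
def lg2 (r : K) (α s t : ℕ) (β : List ℕ) : E2 K :=
  ∑ k ∈ range (α + 1), ∑ s' ∈ range (s + 1),
    sm (((α.choose k : ℕ) : K), ((α.choose k : ℕ) : ℚ))
      (sm (xx r * Cc r, (1 : ℚ)) (gen2 r k ((s' + t + 1) :: β)))

lemma lg2_fst (α s t : ℕ) (β : List ℕ) :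
    (lg2 r α s t β).1 = xx r • L (gen r α (s :: t :: β)) := by
  rw [L_gen]
  unfold lg2
  rw [Prod.fst_sum]
  apply sum_congr rfl
  intro k _
  rw [Prod.fst_sum]
  rfl

lemma lg2_snd (α s t : ℕ) (β : List ℕ) (k n : ℕ) (v : ℕ → ℕ) :
    (lg2 r α s t β).2 k n v = Lb ((gen2 r α (s :: t :: β)).2 (k + 1)) n v := by
  unfold lg2
  rw [Prod.snd_sum]
  simp only [Finset.sum_apply, Prod.snd_sum, sm_snd, Pi.smul_apply, smul_eq_mul, gen2, one_mul,
    List.length_cons]
  by_cases hk : k ≤ β.length + 1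
  · have hk2 : k + 1 ≤ β.length + 1 + 1 := by omega
    simp only [if_pos hk, if_pos hk2, Lb, gb_cons, cns_zero, tl_cns]
    have h2 : ∑ i ∈ range (v 0 + 1), Z (1 : ℚ) s (i + 1) * Z 1 t (v 0 - i) =
        ∑ s' ∈ range (s + 1), Z (1 : ℚ) (s' + t + 1) (v 0) := by
      simp only [Z_succ_right, Cc_one, one_mul, sum_mul]
      rw [sum_comm]
      apply sum_congr rfl
      intro s' _
      rw [← Z_conv]
    have h3 : ((n : ℚ) + 1) ^ α = ∑ k ∈ range (α + 1), (α.choose k : ℚ) * (n : ℚ) ^ k := by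
      rw [add_pow]
      simp only [one_pow, mul_one]
      exact sum_congr rfl fun k _ => mul_comm _ _
    have h4 : ∑ i ∈ range (v 0 + 1), ((n + 1 : ℕ) : ℚ) ^ α * (Z (1 : ℚ) s (i + 1) *
        (Z 1 t (v 0 - i) * gb 1 β (tl v))) =
        ((n : ℚ) + 1) ^ α * ((∑ s' ∈ range (s + 1), Z (1 : ℚ) (s' + t + 1) (v 0)) *
          gb 1 β (tl v)) := by
      rw [← h2, sum_mul, mul_sum]
      apply sum_congr rfl
      intro i _
      push_cast
      ring
    rw [h4, h3, sum_mul]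
    apply sum_congr rfl
    intro k' _
    rw [sum_mul, mul_sum]
    apply sum_congr rfl
    intro s' _
    ring
  · have hk2 : ¬ k + 1 ≤ β.length + 1 + 1 := by omega
    simp only [if_neg hk, if_neg hk2, Lb]
    simp

lemma Rel.extend {x : E2 K} {α s t : ℕ} {β : List ℕ} (h : Rel r x (lg2 r α s t β)) :
    Rel r (gen2 r α (s :: t :: β) + x) (gen2 r α (s :: t :: β)) := by
  refine ⟨?_, ?_, ?_, ?_⟩
  · rw [Prod.fst_add, map_add, h.h1, lg2_fst, S_eq]
    have : (gen2 r α (s :: t :: β)).1 = gen r α (s :: t :: β) := rfl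
    rw [this]
    abel
  · intro k hk n v
    have e : (gen2 r α (s :: t :: β) + x).2 (k + 1) =
        (gen2 r α (s :: t :: β)).2 (k + 1) + x.2 (k + 1) := rfl
    have e1 := h.h2 k hk n v
    have e2 := lg2_snd (r := r) α s t β k n v
    rw [e, Lb_add]
    simp only [Prod.snd_add, Pi.add_apply]
    linear_combination e1 + e2
  · intro n v hv
    have e1 := h.h3 n v hv
    simp only [Prod.snd_add, Pi.add_apply, e1, gen2, List.length_cons]
    rw [if_pos (by omega), if_pos (by omega)]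
  · intro n v
    have e2 : (gen2 r α (s :: t :: β) + x).2 2 = (gen2 r α (s :: t :: β)).2 2 + x.2 2 := rfl
    have e3 : (gen2 r α (s :: t :: β) + x).2 3 = (gen2 r α (s :: t :: β)).2 3 + x.2 3 := rfl
    have a1 := h.h4 n v
    have a2 := lg2_snd (r := r) α s t β 1 n v
    have a3 := lg2_snd (r := r) α s t β 2 n v
    have a4 : ∀ n v, (gen2 r α (s :: t :: β)).2 1 n v = (gen2 r α (s :: t :: β)).2 2 n v := by
      intro n v
      simp only [gen2, List.length_cons]
      rw [if_pos (by omega), if_pos (by omega)]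
    rw [e2, e3, Lb_add, Lb_add]
    simp only [Prod.snd_add, Pi.add_apply, a4]
    linear_combination a1 + a2 - a3

lemma res_gen2 (h0 : r ≠ 0) (h2 : 1 + r ≠ 0) (m : ℕ) : ∀ (β : List ℕ) (_ : β.length = m + 1)
    (α : ℕ), gen2 r α β ∈ SF2 r 2 (2 * α + wt β + 2) (m + 1) := by
  induction m with
  | zero =>
    intro β hβ α
    obtain ⟨s, rfl⟩ := List.length_eq_one_iff.1 hβ
    rw [← lft2_Y]
    exact SF2_mono (by simp only [wt]; omega) le_rfl (res_one2 h0 h2 α (s + 1) _ (F1_Y s))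
  | succ m ih =>
    intro β hβ α
    match β, hβ with
    | s :: t :: β, hβ =>
      have hlen : β.length = m := by
        simp only [List.length_cons] at hβ
        omega
      have key : lg2 r α s t β ∈ SF2 r 2 (2 * α + wt (s :: t :: β) + 2) (m + 1 + 1) := by
        unfold lg2
        apply sum_mem
        intro k hk
        have hk' := mem_range.1 hk
        apply sum_mem
        intro s' hs'
        have hs'' := mem_range.1 hs'
        have h5 := ih ((s' + t + 1) :: β) (by rw [List.length_cons, hlen]) k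
        have h6 := SF2_smul (H2_nat (r := r) (α.choose k)) (SF2_smul (H2_xC h2) h5)
        exact SF2_mono (by simp only [wt]; omega) (by omega) h6
      obtain ⟨g, hg, hgS⟩ := key
      refine ⟨gen2 r α (s :: t :: β) + g, add_mem ?_ hg, hgS.extend⟩
      have h7 := F2_gen (r := r) (α := α) (β := s :: t :: β) (p := 0) (e := 0) (z := 2)
        (w := 2 * α + wt (s :: t :: β) + 2) (d := m + 1 + 1) (by simp) H2_one (by omega)
        (by omega) (by simp only [List.length_cons]; omega)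
      rwa [one_sm] at h7

/-- the resolvent -/
lemma res_F2 (h0 : r ≠ 0) (h2 : 1 + r ≠ 0) {w d : ℕ} {f : E2 K}
    (hf : f ∈ F2 r 0 w d) : f ∈ SF2 r 2 (w + 2) d := by
  unfold F2 at hf
  induction hf using AddSubgroup.closure_induction with
  | mem f hf =>
    obtain ⟨α, β, p, e, c, hβ, hc, hw, hz, hd, rfl⟩ := hf
    obtain ⟨m, hm⟩ : ∃ m, β.length = m + 1 := by
      cases β with
      | nil => exact absurd rfl hβ
      | cons s β => exact ⟨β.length, rfl⟩
    exact SF2_mono (by omega) (by omega) (SF2_smul hc (res_gen2 h0 h2 m β hm α))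
  | zero => exact zero_mem _
  | add f g _ _ hf hg => exact add_mem hf hg
  | neg f _ hf => exact neg_mem hf

end

end Pool.Agent.LuckyDiag
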