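import Pool.Agent.Work.MP_d4a4cd_h25.PairB

/-!
# Pairs: the unlucky step
-/

set_option autoImplicit false
set_option linter.unusedSectionVars false

namespace Pool.Agent.LuckyDiag

open Finset

/-- auxiliary function -/
def AA (s : ℕ) : List ℕ → ℕ → (ℕ → ℕ) → ℚ
  | [], k, v => if k ≤ 1 then Z (1 : ℚ) s (v 0) else 0
  | [_], k, v => if k ≤ 1 then Z (1 : ℚ) s (v 0) else 0
  | _ :: u :: γ', k, v => if k ≤ γ'.length + 1 then
      Z (1 : ℚ) (s + u + 1) (v 0) * gb (1 : ℚ) γ' (tl v) else 0

/-- the leading part of `D` with at least `k` blocks -/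
def DD : List ℕ → ℕ → (ℕ → ℕ) → ℚ
  | [], _, _ => 0
  | s :: γ, k, v => AA s γ k v -
      (if k ≤ γ.length + 1 then ((v 0 : ℚ) + 1) * gb (1 : ℚ) (s :: γ) v else 0) +
      Z (1 : ℚ) s (v 0) * DD γ (k - 1) (tl v)

lemma DD_nil (k : ℕ) (v : ℕ → ℕ) : DD [] k v = 0 := rfl

lemma DD_cons (s : ℕ) (γ : List ℕ) (k : ℕ) (v : ℕ → ℕ) : DD (s :: γ) k v = AA s γ k v -
    (if k ≤ γ.length + 1 then ((v 0 : ℚ) + 1) * gb (1 : ℚ) (s :: γ) v else 0) +
    Z (1 : ℚ) s (v 0) * DD γ (k - 1) (tl v) := rfl

lemma AA_zero_one (s : ℕ) (γ : List ℕ) (v : ℕ → ℕ) : AA s γ 0 v = AA s γ 1 v := by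
  match γ with
  | [] => simp [AA]
  | [t] => simp [AA]
  | t :: u :: γ' => simp [AA]

lemma DD_zero_one (γ : List ℕ) (v : ℕ → ℕ) : DD γ 0 v = DD γ 1 v := by
  cases γ with
  | nil => rfl
  | cons s γ =>
    rw [DD_cons, DD_cons, AA_zero_one, if_pos (by omega), if_pos (by omega)]

lemma DD_pad_nil (γ : List ℕ) : ∀ k : ℕ, 1 ≤ k → DD γ k (pad []) =
    if k + 2 ≤ γ.length then 0 else if k + 1 = γ.length then 2 - (γ.length : ℚ) else
      if k = γ.length then 1 - (γ.length : ℚ) else 0 := by
  induction γ with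
  | nil =>
    intro k hk
    rw [DD_nil, if_neg (by simp), if_neg (by simp), if_neg (by simp; omega)]
  | cons s γ ih =>
    intro k hk
    have hz : pad [] 0 = 0 := rfl
    rw [DD_cons, tl_pad_nil, gb_pad_nil, hz, Z_zero_right]
    have h1 : DD γ 1 (pad []) = 0 := by
      rw [ih 1 le_rfl]
      split_ifs with h1 h2 h3
      · rfl
      · rw [← h2]; norm_num
      · rw [← h3]; norm_num
      · rfl
    obtain ⟨k, rfl⟩ : ∃ i, k = i + 1 := ⟨k - 1, by omega⟩
    by_cases hk0 : k = 0
    · subst hk0
      rw [zero_add, Nat.sub_self, DD_zero_one, h1, if_pos (by omega)]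
      match γ with
      | [] => simp [AA, hz, Z_zero_right]
      | [t] => simp [AA, hz, Z_zero_right]
      | t :: u :: γ' =>
        have h5 : AA s (t :: u :: γ') 1 (pad []) = 1 := by
          simp only [AA, hz, Z_zero_right, tl_pad_nil, gb_pad_nil]
          rw [if_pos (by omega)]
          ring
        rw [h5]
        have h6 : (s :: t :: u :: γ').length = γ'.length + 3 := by simp
        rw [h6, if_pos (by omega)]
        push_cast
        ring
    · rw [Nat.add_sub_cancel, ih k (by omega)]
      have h6 : (s :: γ).length = γ.length + 1 := by simp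
      rw [h6]
      match γ with
      | [] =>
        have h5 : AA s [] (k + 1) (pad []) = 0 := by
          simp only [AA]
          rw [if_neg (by omega)]
        rw [h5]
        simp only [List.length_nil]
        rw [if_neg (by omega), if_neg (by omega), if_neg (by omega), if_neg (by omega),
          if_neg (by omega), if_neg (by omega), if_neg (by omega)]
        ring
      | [t] =>
        have h5 : AA s [t] (k + 1) (pad []) = 0 := by
          simp only [AA]
          rw [if_neg (by omega)]
        rw [h5]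
        simp only [List.length_cons, List.length_nil]
        by_cases hk1 : k = 1
        · subst hk1
          norm_num
        · rw [if_neg (by omega), if_neg (by omega), if_neg (by omega), if_neg (by omega),
            if_neg (by omega), if_neg (by omega), if_neg (by omega)]
          ring
      | t :: u :: γ' =>
        have h5 : AA s (t :: u :: γ') (k + 1) (pad []) =
            if k + 1 ≤ γ'.length + 1 then 1 else 0 := by
          simp only [AA, hz, Z_zero_right, tl_pad_nil, gb_pad_nil]
          norm_num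
        rw [h5]
        simp only [List.length_cons]
        by_cases c1 : k ≤ γ'.length
        · rw [if_pos (by omega), if_pos (by omega), if_pos (by omega), if_pos (by omega)]
          push_cast
          ring
        · by_cases c2 : k = γ'.length + 1
          · rw [if_neg (by omega), if_pos (by omega), if_neg (by omega), if_pos (by omega),
              if_neg (by omega), if_pos (by omega)]
            push_cast
            ring
          · by_cases c3 : k = γ'.length + 2
            · rw [if_neg (by omega), if_pos (by omega), if_neg (by omega), if_neg (by omega),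
                if_pos (by omega), if_neg (by omega), if_neg (by omega), if_pos (by omega)]
              push_cast
              ring
            · rw [if_neg (by omega), if_neg (by omega), if_neg (by omega), if_neg (by omega),
                if_neg (by omega), if_neg (by omega), if_neg (by omega), if_neg (by omega)]
              ring

/-- the leading part of the sum over the insertions -/
lemma sI_DD (γ : List ℕ) : ∀ l : List ℕ,
    (if l.length + 2 ≤ γ.length then ((l.length : ℚ) + l.sum + 1) * gb (1 : ℚ) γ (pad l) else 0) +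
      DD γ (l.length + 2) (pad l) =
    if l.length + 4 ≤ γ.length then sI l (fun l' => gb (1 : ℚ) γ (pad l')) else 0 := by
  induction γ with
  | nil =>
    intro l
    simp [DD_nil]
  | cons s γ ih =>
    intro l
    cases l with
    | nil =>
      have h1 : sI [] (fun l' => gb (1 : ℚ) (s :: γ) (pad l')) = 1 := by
        rw [sI]
        have h : pad [0, 0] = pad [] := by
          funext k
          match k with
          | 0 => rfl
          | 1 => rfl
          | k + 2 => rfl
        rw [h, gb_pad_nil]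
      rw [h1, gb_pad_nil]
      have h2 : ([] : List ℕ).length = 0 := rfl
      rw [h2, DD_pad_nil _ _ (by omega)]
      have h6 : (s :: γ).length = γ.length + 1 := by simp
      rw [h6]
      by_cases c1 : 3 ≤ γ.length
      · rw [if_pos (by omega), if_pos (by omega), if_pos (by omega)]
        simp
      · by_cases c2 : γ.length = 2
        · rw [if_pos (by omega), if_neg (by omega), if_pos (by omega), if_neg (by omega), c2]
          norm_num
        · by_cases c3 : γ.length = 1
          · rw [if_pos (by omega), if_neg (by omega), if_neg (by omega), if_pos (by omega),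
              if_neg (by omega), c3]
            norm_num
          · rw [if_neg (by omega), if_neg (by omega), if_neg (by omega), if_neg (by omega),
              if_neg (by omega)]
            norm_num
    | cons c l =>
      have hk : (c :: l).length + 2 - 1 = l.length + 2 := by
        rw [List.length_cons]; omega
      have e1 : pad (c :: l) = cns c (pad l) := rfl
      have e2 : (c :: l).length = l.length + 1 := by simp
      have e3 : (s :: γ).length = γ.length + 1 := by simp
      rw [DD_cons, hk, e1, tl_cns, gb_cons, tl_cns, cns_zero, e2, e3, List.sum_cons]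
      have ih' := ih l
      have hAA : AA s γ (l.length + 1 + 2) (cns c (pad l)) =
          if l.length + 4 ≤ γ.length then ∑ b ∈ range (c + 1),
            gb (1 : ℚ) (s :: γ) (cns b (cns 0 (cns (c - b) (pad l)))) else 0 := by
        match γ with
        | [] =>
          simp only [AA, List.length_nil]
          rw [if_neg (by omega), if_neg (by omega)]
        | [t] =>
          simp only [AA, List.length_cons, List.length_nil]
          rw [if_neg (by omega), if_neg (by omega)]
        | t :: u :: γ' =>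
          simp only [AA, List.length_cons]
          by_cases hc : l.length + 1 + 2 ≤ γ'.length + 1
          · rw [if_pos hc, if_pos (by omega)]
            simp only [gb_cons, cns_zero, tl_cns, Z_zero_right, one_mul]
            rw [← Z_conv, sum_mul]
            exact sum_congr rfl fun i _ => by ring
          · rw [if_neg hc, if_neg (by omega)]
      rw [hAA]
      have hsI : sI (c :: l) (fun l' => gb (1 : ℚ) (s :: γ) (pad l')) =
          ∑ b ∈ range (c + 1), gb (1 : ℚ) (s :: γ) (cns b (cns 0 (cns (c - b) (pad l)))) +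
          Z (1 : ℚ) s c * sI l (fun l' => gb (1 : ℚ) γ (pad l')) := by
        rw [sI, ← sI_mul]
        rfl
      rw [hsI]
      by_cases c1 : l.length + 4 ≤ γ.length
      · rw [if_pos (by omega), if_pos c1] at ih'
        rw [if_pos (by omega), if_pos c1, if_pos (by omega), if_pos (by omega)]
        simp only [Nat.cast_add, Nat.cast_one]
        linear_combination Z (1 : ℚ) s c * ih'
      · rw [if_neg c1] at ih'
        rw [if_neg c1, if_neg (show ¬ (l.length + 1 + 4 ≤ γ.length + 1) by omega)]
        by_cases c2 : l.length + 2 ≤ γ.length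
        · rw [if_pos c2] at ih'
          rw [if_pos (by omega), if_pos (by omega)]
          simp only [Nat.cast_add, Nat.cast_one]
          linear_combination Z (1 : ℚ) s c * ih'
        · rw [if_neg c2] at ih'
          rw [if_neg (by omega), if_neg (by omega)]
          linear_combination Z (1 : ℚ) s c * ih'

section
variable {K : Type*} [Field K] [CharZero K] (r : K)

/-- generators, for functions of a sequence -/
def gb2 (β : List ℕ) : ((ℕ → ℕ) → K) × (ℕ → (ℕ → ℕ) → ℚ) :=
  (gb r β, fun k v => if k ≤ β.length then gb (1 : ℚ) β v else 0)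

/-- functions of a sequence, with a filtration -/
def G2 (w d : ℕ) : AddSubgroup (((ℕ → ℕ) → K) × (ℕ → (ℕ → ℕ) → ℚ)) :=
  AddSubgroup.closure {g | ∃ (β : List ℕ) (p e : ℕ) (c : K × ℚ), c ∈ H2 r p e ∧ p + wt β ≤ w ∧
    e + β.length ≤ d ∧ g = sm c (gb2 r β)}

variable {r}

lemma G2_gen {β : List ℕ} {p e w d : ℕ} {c : K × ℚ} (hc : c ∈ H2 r p e) (hw : p + wt β ≤ w)
    (hd : e + β.length ≤ d) : sm c (gb2 r β) ∈ G2 r w d :=
  AddSubgroup.subset_closure ⟨β, p, e, c, hc, hw, hd, rfl⟩

lemma G2_gb {β : List ℕ} {w d : ℕ} (hw : wt β ≤ w) (hd : β.length ≤ d) : gb2 r β ∈ G2 r w d := by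
  have := G2_gen (r := r) (β := β) (p := 0) (e := 0) (w := w) (d := d) H2_one (by omega)
    (by omega)
  rwa [one_sm] at this

lemma G2_mono {w w' d d' : ℕ} (h : w ≤ w') (h' : d ≤ d')
    {f : ((ℕ → ℕ) → K) × (ℕ → (ℕ → ℕ) → ℚ)} (hf : f ∈ G2 r w d) : f ∈ G2 r w' d' := by
  refine AddSubgroup.closure_mono ?_ hf
  rintro f ⟨β, p, e, c, hc, hw, hd, rfl⟩
  exact ⟨β, p, e, c, hc, by omega, by omega, rfl⟩

lemma G2_smul {p e w d : ℕ} {c : K × ℚ} (hc : c ∈ H2 r p e)
    {f : ((ℕ → ℕ) → K) × (ℕ → (ℕ → ℕ) → ℚ)}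
    (hf : f ∈ G2 r w d) : sm c f ∈ G2 r (w + p) (d + e) := by
  unfold G2 at hf
  induction hf using AddSubgroup.closure_induction with
  | mem f hf =>
    obtain ⟨β, p', e', c', hc', hw, hd, rfl⟩ := hf
    rw [sm_sm]
    exact G2_gen (H2_mul hc hc') (by omega) (by omega)
  | zero => rw [sm_zero]; exact zero_mem _
  | add f g _ _ hf hg => rw [sm_add]; exact add_mem hf hg
  | neg f _ hf => rw [sm_neg]; exact neg_mem hf

/-- multiplication by a function of a new first block -/
def mc (r : K) (s : ℕ) (g : ((ℕ → ℕ) → K) × (ℕ → (ℕ → ℕ) → ℚ)) :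
    ((ℕ → ℕ) → K) × (ℕ → (ℕ → ℕ) → ℚ) :=
  (fun v => Z r s (v 0) * g.1 (tl v), fun k v => Z (1 : ℚ) s (v 0) * g.2 (k - 1) (tl v))

lemma mc_gb2 (s : ℕ) (β : List ℕ) : mc r s (gb2 r β) = gb2 r (s :: β) := by
  refine Prod.ext ?_ ?_
  · rfl
  · funext k v
    simp only [mc, gb2, List.length_cons, gb_cons]
    by_cases h : k ≤ β.length + 1
    · rw [if_pos h, if_pos (by omega)]
    · rw [if_neg h, if_neg (by omega), mul_zero]

lemma mc_sm (s : ℕ) (c : K × ℚ) (g : ((ℕ → ℕ) → K) × (ℕ → (ℕ → ℕ) → ℚ)) :
    mc r s (sm c g) = sm c (mc r s g) := by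
  refine Prod.ext ?_ ?_
  · funext v
    simp only [mc, sm_fst, Pi.smul_apply, smul_eq_mul]
    ring
  · funext k v
    simp only [mc, sm_snd, Pi.smul_apply, smul_eq_mul]
    ring

lemma mc_add (s : ℕ) (g g' : ((ℕ → ℕ) → K) × (ℕ → (ℕ → ℕ) → ℚ)) :
    mc r s (g + g') = mc r s g + mc r s g' := by
  refine Prod.ext ?_ ?_
  · funext v
    simp only [mc, Prod.fst_add, Pi.add_apply]
    ring
  · funext k v
    simp only [mc, Prod.snd_add, Pi.add_apply]
    ring

lemma mc_neg (s : ℕ) (g : ((ℕ → ℕ) → K) × (ℕ → (ℕ → ℕ) → ℚ)) :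
    mc r s (-g) = -mc r s g := by
  refine Prod.ext ?_ ?_
  · funext v
    simp only [mc, Prod.fst_neg, Pi.neg_apply]
    ring
  · funext k v
    simp only [mc, Prod.snd_neg, Pi.neg_apply]
    ring

lemma mc_zero (s : ℕ) : mc r s (0 : ((ℕ → ℕ) → K) × (ℕ → (ℕ → ℕ) → ℚ)) = 0 := by
  refine Prod.ext ?_ ?_
  · funext v
    simp [mc]
  · funext k v
    simp [mc]

lemma G2_cons {w d : ℕ} (s : ℕ) {g : ((ℕ → ℕ) → K) × (ℕ → (ℕ → ℕ) → ℚ)} (hg : g ∈ G2 r w d) :
    mc r s g ∈ G2 r (w + s + 1) (d + 1) := by
  unfold G2 at hg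
  induction hg using AddSubgroup.closure_induction with
  | mem f hf =>
    obtain ⟨β, p', e', c', hc', hw, hd, rfl⟩ := hf
    rw [mc_sm, mc_gb2]
    exact G2_gen hc' (by simp only [wt]; omega) (by simp only [List.length_cons]; omega)
  | zero => rw [mc_zero]; exact zero_mem _
  | add f g _ _ hf hg => rw [mc_add]; exact add_mem hf hg
  | neg f _ hf => rw [mc_neg]; exact neg_mem hf

/-- the same, with the additional factor `v 0` -/
def mc' (r : K) (s : ℕ) (g : ((ℕ → ℕ) → K) × (ℕ → (ℕ → ℕ) → ℚ)) :
    ((ℕ → ℕ) → K) × (ℕ → (ℕ → ℕ) → ℚ) :=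
  (fun v => (v 0 : K) * Z r s (v 0) * g.1 (tl v),
    fun k v => (v 0 : ℚ) * Z (1 : ℚ) s (v 0) * g.2 (k - 1) (tl v))

lemma mc'_eq (s : ℕ) (g : ((ℕ → ℕ) → K) × (ℕ → (ℕ → ℕ) → ℚ)) :
    mc' r s g = sm (((s + 1 : ℕ) : K), ((s + 1 : ℕ) : ℚ)) (mc r (s + 1) g) -
      sm (((s + 1 : ℕ) : K), ((s + 1 : ℕ) : ℚ)) (mc r s g) := by
  refine Prod.ext ?_ ?_
  · funext v
    simp only [mc', mc, Prod.fst_sub, sm_fst, Pi.sub_apply, Pi.smul_apply, smul_eq_mul, Z_mul]
    push_cast
    ring
  · funext k v
    simp only [mc', mc, Prod.snd_sub, sm_snd, Pi.sub_apply, Pi.smul_apply, smul_eq_mul, Z_mul]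
    push_cast
    ring

lemma G2_cons' {w d : ℕ} (s : ℕ) {g : ((ℕ → ℕ) → K) × (ℕ → (ℕ → ℕ) → ℚ)} (hg : g ∈ G2 r w d) :
    mc' r s g ∈ G2 r (w + s + 2) (d + 1) := by
  rw [mc'_eq]
  refine sub_mem ?_ ?_
  · exact G2_mono (by omega) (by omega) (G2_smul (H2_nat (r := r) (s + 1)) (G2_cons (s + 1) hg))
  · exact G2_mono (by omega) (by omega) (G2_smul (H2_nat (r := r) (s + 1)) (G2_cons s hg))

/-- partial sums, with leading part -/
def SZ2 (r : K) (s : ℕ) : ((ℕ → ℕ) → K) × (ℕ → (ℕ → ℕ) → ℚ) :=
  (fun v => SZ r s (v 0), fun k v => if k ≤ 1 then Z (1 : ℚ) s (v 0) else 0)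

lemma SZ2_mem (h1 : 1 - r ≠ 0) (h2 : 1 + r ≠ 0) (s : ℕ) : SZ2 r s ∈ G2 r (s + 1) 1 := by
  induction s with
  | zero =>
    have h : SZ2 r 0 = sm (2 / (1 - r), (1 : ℚ)) (gb2 r [0]) -
        sm ((1 + r) / (1 - r), (0 : ℚ)) (gb2 r []) := by
      refine Prod.ext ?_ ?_
      · funext v
        simp only [SZ2, gb2, Prod.fst_sub, sm_fst, Pi.sub_apply, Pi.smul_apply, smul_eq_mul,
          gb_cons, gb_nil, SZ_zero_left r h1 h2]
        ring
      · funext k v
        simp [SZ2, gb2, sm_snd, gb_cons, gb_nil]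
    rw [h]
    refine sub_mem ?_ ?_
    · exact G2_gen (H2_c h1) (by simp [wt]) (by simp)
    · exact G2_gen (H2_d h1) (by simp [wt]) (by simp)
  | succ s ih =>
    have h : SZ2 r (s + 1) = sm (2 / (1 - r), (1 : ℚ)) (gb2 r [s + 1]) -
        sm ((1 + r) / (1 - r), (0 : ℚ)) (SZ2 r s) := by
      refine Prod.ext ?_ ?_
      · funext v
        simp only [SZ2, gb2, Prod.fst_sub, sm_fst, Pi.sub_apply, Pi.smul_apply, smul_eq_mul,
          gb_cons, gb_nil, SZ_succ_left r h1 h2]
        ring
      · funext k v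
        simp [SZ2, gb2, sm_snd, gb_cons, gb_nil]
    rw [h]
    refine sub_mem ?_ ?_
    · exact G2_gen (H2_c h1) (by simp [wt]) (by simp)
    · exact G2_mono (by omega) (by omega) (G2_smul (H2_d h1) ih)

/-- the correction term with its leading part -/
def D2 (r : K) (γ : List ℕ) : ((ℕ → ℕ) → K) × (ℕ → (ℕ → ℕ) → ℚ) := (D r γ, DD γ)

lemma D2_mem (h1 : 1 - r ≠ 0) (h2 : 1 + r ≠ 0) (γ : List ℕ) :
    D2 r γ ∈ G2 r (wt γ + 1) γ.length := by
  induction γ with
  | nil =>
    have h : D2 r [] = 0 := rfl
    rw [h]; exact zero_mem _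
  | cons s γ ih =>
    have hA : ((fun v : ℕ → ℕ => ∑ b ∈ range (v 0 + 1),
        gb r (s :: γ) (cns b (cns 0 (cns (v 0 - b) (tl v)))), AA s γ) :
        ((ℕ → ℕ) → K) × (ℕ → (ℕ → ℕ) → ℚ)) ∈
        G2 r (wt (s :: γ) + 1) (s :: γ).length := by
      match γ with
      | [] =>
        have h : ((fun v : ℕ → ℕ => ∑ b ∈ range (v 0 + 1),
            gb r [s] (cns b (cns 0 (cns (v 0 - b) (tl v)))), AA s []) :
            ((ℕ → ℕ) → K) × (ℕ → (ℕ → ℕ) → ℚ)) = SZ2 r s := by
          refine Prod.ext ?_ ?_
          · funext v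
            simp only [gb_cons, gb_nil, cns_zero, mul_one]
            rfl
          · funext k v
            rfl
        rw [h]
        exact G2_mono (by simp only [wt]; omega) (by simp) (SZ2_mem h1 h2 s)
      | [t] =>
        have h : ((fun v : ℕ → ℕ => ∑ b ∈ range (v 0 + 1),
            gb r [s, t] (cns b (cns 0 (cns (v 0 - b) (tl v)))), AA s [t]) :
            ((ℕ → ℕ) → K) × (ℕ → (ℕ → ℕ) → ℚ)) = SZ2 r s := by
          refine Prod.ext ?_ ?_
          · funext v
            simp only [gb_cons, gb_nil, cns_zero, mul_one, tl_cns, Z_zero_right]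
            rfl
          · funext k v
            rfl
        rw [h]
        exact G2_mono (by simp only [wt]; omega) (by simp) (SZ2_mem h1 h2 s)
      | t :: u :: γ' =>
        have h : ((fun v : ℕ → ℕ => ∑ b ∈ range (v 0 + 1),
            gb r (s :: t :: u :: γ') (cns b (cns 0 (cns (v 0 - b) (tl v)))),
            AA s (t :: u :: γ')) : ((ℕ → ℕ) → K) × (ℕ → (ℕ → ℕ) → ℚ)) =
            gb2 r ((s + u + 1) :: γ') := by
          refine Prod.ext ?_ ?_
          · funext v
            simp only [gb2, gb_cons, cns_zero, tl_cns, Z_zero_right, one_mul]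
            rw [← Z_conv, sum_mul]
            exact sum_congr rfl fun i _ => by ring
          · funext k v
            simp only [AA, gb2, List.length_cons, gb_cons]
        rw [h]
        exact G2_gb (by simp only [wt]; omega) (by simp only [List.length_cons]; omega)
    have hB : mc' r s (gb2 r γ) ∈ G2 r (wt (s :: γ) + 1) (s :: γ).length :=
      G2_mono (by simp only [wt]; omega) (by simp)
        (G2_cons' s (G2_gb (r := r) (β := γ) le_rfl le_rfl))
    have hC : gb2 r (s :: γ) ∈ G2 r (wt (s :: γ) + 1) (s :: γ).length :=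
      G2_gb (by omega) le_rfl
    have hD : mc r s (D2 r γ) ∈ G2 r (wt (s :: γ) + 1) (s :: γ).length :=
      G2_mono (by simp only [wt]; omega) (by simp) (G2_cons s ih)
    have h : D2 r (s :: γ) = ((fun v : ℕ → ℕ => ∑ b ∈ range (v 0 + 1),
        gb r (s :: γ) (cns b (cns 0 (cns (v 0 - b) (tl v)))), AA s γ) :
        ((ℕ → ℕ) → K) × (ℕ → (ℕ → ℕ) → ℚ)) - mc' r s (gb2 r γ) - gb2 r (s :: γ) +
        mc r s (D2 r γ) := by
      refine Prod.ext ?_ ?_
      · funext v
        simp only [D2, D, Prod.fst_add, Prod.fst_sub, Pi.add_apply, Pi.sub_apply, mc, mc', gb2,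
          gb_cons]
        ring
      · funext k v
        simp only [D2, DD_cons, Prod.snd_add, Prod.snd_sub, Pi.add_apply, Pi.sub_apply, mc, mc',
          gb2, gb_cons, List.length_cons]
        by_cases hk : k ≤ γ.length + 1
        · rw [if_pos hk, if_pos hk, if_pos (by omega)]
          ring
        · rw [if_neg hk, if_neg hk, if_neg (by omega)]
          ring
    rw [h]
    exact add_mem (sub_mem (sub_mem hA hB) hC) hD

end

end Pool.Agent.LuckyDiag
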