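import Pool.Agent.Work.MP_d4a4cd_h25.PairC

/-!
# Pairs: the unlucky step, continued
-/

set_option autoImplicit false
set_option linter.unusedSectionVars false

namespace Pool.Agent.LuckyDiag

open Finset

section
variable {K : Type*} [Field K] [CharZero K] (r : K)

lemma sI_mrg (s : ℕ) (β : List ℕ) (a : ℕ) (l : List ℕ) :
    sI l (fun l' => gb r (s :: β) (pad (mrg a l'))) =
      ∑ i ∈ range (s + 1), (Cc r * Z r i a) * sI l (fun l' => gb r ((s - i) :: β) (pad l')) := by
  have e1 : sI l (fun l' => gb r (s :: β) (pad (mrg a l'))) =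
      sI l (fun l' => ∑ i ∈ range (s + 1), (Cc r * Z r i a) * gb r ((s - i) :: β) (pad l')) := by
    apply sI_congr
    intro l' h _ _
    match l', h with
    | b :: l', _ =>
      have e2 : pad (mrg a (b :: l')) = cns (a + 1 + b) (pad l') := rfl
      have e3 : pad (b :: l') = cns b (pad l') := rfl
      rw [e2, e3]
      simp only [gb_cons, cns_zero, tl_cns]
      rw [Z_vand, mul_sum, sum_mul]
      apply sum_congr rfl
      intro i _
      ring
  rw [e1, sI_sum]
  apply sum_congr rfl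
  intro i _
  rw [sI_mul]

/-- multiplication of the first component by `C` -/
def cg (g : ((ℕ → ℕ) → K) × (ℕ → (ℕ → ℕ) → ℚ)) : ((ℕ → ℕ) → K) × (ℕ → (ℕ → ℕ) → ℚ) :=
  (fun v => Cc r * g.1 v, g.2)

variable {r}

lemma cg_add (g g' : ((ℕ → ℕ) → K) × (ℕ → (ℕ → ℕ) → ℚ)) : cg r (g + g') = cg r g + cg r g' := by
  refine Prod.ext ?_ ?_
  · funext v
    simp only [cg, Prod.fst_add, Pi.add_apply]
    ring
  · rfl

lemma cg_neg (g : ((ℕ → ℕ) → K) × (ℕ → (ℕ → ℕ) → ℚ)) : cg r (-g) = -cg r g := by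
  refine Prod.ext ?_ ?_
  · funext v
    simp only [cg, Prod.fst_neg, Pi.neg_apply]
    ring
  · rfl

lemma cg_sub (g g' : ((ℕ → ℕ) → K) × (ℕ → (ℕ → ℕ) → ℚ)) : cg r (g - g') = cg r g - cg r g' := by
  rw [sub_eq_add_neg, cg_add, cg_neg, ← sub_eq_add_neg]

lemma cg_zero : cg r (0 : ((ℕ → ℕ) → K) × (ℕ → (ℕ → ℕ) → ℚ)) = 0 := by
  refine Prod.ext ?_ ?_
  · funext v
    simp [cg]
  · rfl

lemma cg_sm (c : K × ℚ) (g : ((ℕ → ℕ) → K) × (ℕ → (ℕ → ℕ) → ℚ)) :
    cg r (sm c g) = sm c (cg r g) := by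
  refine Prod.ext ?_ ?_
  · funext v
    simp only [cg, sm_fst, Pi.smul_apply, smul_eq_mul]
    ring
  · rfl

/-- functions with at least one block, times `C` -/
def V2 (r : K) (w d : ℕ) : AddSubgroup (((ℕ → ℕ) → K) × (ℕ → (ℕ → ℕ) → ℚ)) :=
  AddSubgroup.closure {g | ∃ (β : List ℕ) (p e : ℕ) (c : K × ℚ), β ≠ [] ∧ c ∈ H2 r p e ∧
    p + wt β ≤ w ∧ e + β.length ≤ d ∧ g = sm c (cg r (gb2 r β))}

lemma V2_mono {w w' d d' : ℕ} (h : w ≤ w') (h' : d ≤ d')
    {f : ((ℕ → ℕ) → K) × (ℕ → (ℕ → ℕ) → ℚ)} (hf : f ∈ V2 r w d) : f ∈ V2 r w' d' := by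
  refine AddSubgroup.closure_mono ?_ hf
  rintro f ⟨β, p, e, c, hβ, hc, hw, hd, rfl⟩
  exact ⟨β, p, e, c, hβ, hc, by omega, by omega, rfl⟩

lemma V2_smul {p e w d : ℕ} {c : K × ℚ} (hc : c ∈ H2 r p e)
    {f : ((ℕ → ℕ) → K) × (ℕ → (ℕ → ℕ) → ℚ)}
    (hf : f ∈ V2 r w d) : sm c f ∈ V2 r (w + p) (d + e) := by
  unfold V2 at hf
  induction hf using AddSubgroup.closure_induction with
  | mem f hf =>
    obtain ⟨β, p', e', c', hβ, hc', hw, hd, rfl⟩ := hf
    rw [sm_sm]
    exact AddSubgroup.subset_closure ⟨β, _, _, _, hβ, H2_mul hc hc', by omega, by omega, rfl⟩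
  | zero => rw [sm_zero]; exact zero_mem _
  | add f g _ _ hf hg => rw [sm_add]; exact add_mem hf hg
  | neg f _ hf => rw [sm_neg]; exact neg_mem hf

lemma V2_cons {w d : ℕ} (s : ℕ) {g : ((ℕ → ℕ) → K) × (ℕ → (ℕ → ℕ) → ℚ)} (hg : g ∈ G2 r w d) :
    cg r (mc r s g) ∈ V2 r (w + s + 1) (d + 1) := by
  unfold G2 at hg
  induction hg using AddSubgroup.closure_induction with
  | mem f hf =>
    obtain ⟨β, p', e', c', hc', hw, hd, rfl⟩ := hf
    rw [mc_sm, mc_gb2, cg_sm]
    exact AddSubgroup.subset_closure ⟨s :: β, _, _, _, by simp, hc',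
      by simp only [wt]; omega, by simp only [List.length_cons]; omega, rfl⟩
  | zero => rw [mc_zero, cg_zero]; exact zero_mem _
  | add f g _ _ hf hg => rw [mc_add, cg_add]; exact add_mem hf hg
  | neg f _ hf => rw [mc_neg, cg_neg]; exact neg_mem hf

lemma V2_cons' {w d : ℕ} (s : ℕ) {g : ((ℕ → ℕ) → K) × (ℕ → (ℕ → ℕ) → ℚ)} (hg : g ∈ G2 r w d) :
    cg r (mc' r s g) ∈ V2 r (w + s + 2) (d + 1) := by
  rw [mc'_eq, cg_sub, cg_sm, cg_sm]
  refine sub_mem ?_ ?_
  · exact V2_mono (by omega) (by omega) (V2_smul (H2_nat (r := r) (s + 1)) (V2_cons (s + 1) hg))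
  · exact V2_mono (by omega) (by omega) (V2_smul (H2_nat (r := r) (s + 1)) (V2_cons s hg))

/-- times a power of `n` -/
def nG2 (k : ℕ) (g : ((ℕ → ℕ) → K) × (ℕ → (ℕ → ℕ) → ℚ)) : E2 K :=
  (nG k g.1, fun j n v => (n : ℚ) ^ k * g.2 j v)

lemma nG2_add (k : ℕ) (g g' : ((ℕ → ℕ) → K) × (ℕ → (ℕ → ℕ) → ℚ)) :
    nG2 k (g + g') = nG2 k g + nG2 k g' := by
  refine Prod.ext ?_ ?_
  · simp only [nG2, Prod.fst_add, map_add]
  · funext j n v
    simp only [nG2, Prod.snd_add, Pi.add_apply]
    ring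

lemma nG2_neg (k : ℕ) (g : ((ℕ → ℕ) → K) × (ℕ → (ℕ → ℕ) → ℚ)) :
    nG2 k (-g) = -nG2 k g := by
  refine Prod.ext ?_ ?_
  · simp only [nG2, Prod.fst_neg, map_neg]
  · funext j n v
    simp only [nG2, Prod.snd_neg, Pi.neg_apply]
    ring

lemma nG2_mem {k w d : ℕ} {g : ((ℕ → ℕ) → K) × (ℕ → (ℕ → ℕ) → ℚ)} (hg : g ∈ V2 r w d) :
    nG2 k g ∈ F2 r 0 (2 * k + w) d := by
  unfold V2 at hg
  induction hg using AddSubgroup.closure_induction with
  | mem f hf =>
    obtain ⟨β, p, e, c, hβ, hc, hw, hd, rfl⟩ := hf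
    have h : nG2 k (sm c (cg r (gb2 r β))) = sm c (gen2 r k β) := by
      refine Prod.ext ?_ ?_
      · simp only [nG2, sm_fst, map_smul]
        rfl
      · funext j n v
        simp only [nG2, sm_snd, cg, gb2, gen2, Pi.smul_apply, smul_eq_mul]
        split_ifs
        · ring
        · ring
    rw [h]
    exact F2_gen hβ hc (by omega) (by omega) hd
  | zero =>
    have h : nG2 k (0 : ((ℕ → ℕ) → K) × (ℕ → (ℕ → ℕ) → ℚ)) = 0 := by
      refine Prod.ext ?_ ?_
      · simp only [nG2, Prod.fst_zero, map_zero]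
      · funext j n v
        simp [nG2]
    rw [h]; exact zero_mem _
  | add f g _ _ hf hg => rw [nG2_add]; exact add_mem hf hg
  | neg f _ hf => rw [nG2_neg]; exact neg_mem hf

/-- The property that the unlucky step maps `f` to the class. -/
def UP2 (r : K) (w d : ℕ) (f : E2 K) : Prop :=
  ∃ g ∈ F2 r 0 w d, (∀ (a : ℕ) (l : List ℕ), a + l.sum = l.length + 1 →
    xx r * sI l (fun l' => f.1 (l.length + 2) (pad (mrg a l'))) =
      g.1 (l.length + 1) (cns a (pad l))) ∧
    (∀ n v, g.2 1 n v = g.2 2 n v) ∧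
    (∀ (a : ℕ) (l : List ℕ), a + l.sum = l.length + 1 →
      g.2 (l.length + 3) (l.length + 1) (cns a (pad l)) =
        sI l (fun l' => f.2 (l.length + 4) (l.length + 2) (pad (mrg a l'))))

lemma UP2_gen (h1 : 1 - r ≠ 0) (h2 : 1 + r ≠ 0) {α s : ℕ} {β : List ℕ} {p e : ℕ} {c : K × ℚ}
    (hc : c ∈ H2 r p e) :
    UP2 r (p + 2 * α + wt (s :: β) + 3) (e + β.length + 3) (sm c (gen2 r α (s :: β))) := by
  set cc : K × ℚ := c * (xx r * Cc r, 1) with hcc
  have hccm : cc ∈ H2 r p (e + 1) := by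
    have := H2_mul hc (H2_xC (r := r) h2)
    simpa using this
  set A1 : ((ℕ → ℕ) → K) × (ℕ → (ℕ → ℕ) → ℚ) := ∑ i ∈ range (s + 1),
    sm cc (cg r (mc r i (gb2 r ((s - i) :: β)))) with hA1
  set A2 : ((ℕ → ℕ) → K) × (ℕ → (ℕ → ℕ) → ℚ) := ∑ i ∈ range (s + 1),
    (sm cc (cg r (mc r i (D2 r ((s - i) :: β)))) -
      sm cc (cg r (mc' r i (gb2 r ((s - i) :: β))))) with hA2
  have m1 : A1 ∈ V2 r (p + wt (s :: β) + 1) (e + β.length + 3) := by
    apply sum_mem
    intro i hi
    have hi' := mem_range.1 hi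
    exact V2_mono (by simp only [wt]; omega) (by simp only [List.length_cons]; omega)
      (V2_smul hccm (V2_cons i (G2_gb (r := r) (β := (s - i) :: β) le_rfl le_rfl)))
  have m2 : A2 ∈ V2 r (p + wt (s :: β) + 2) (e + β.length + 3) := by
    apply sum_mem
    intro i hi
    have hi' := mem_range.1 hi
    refine sub_mem ?_ ?_
    · exact V2_mono (by simp only [wt]; omega) (by simp only [List.length_cons]; omega)
        (V2_smul hccm (V2_cons i (D2_mem h1 h2 ((s - i) :: β))))
    · exact V2_mono (by simp only [wt]; omega) (by simp only [List.length_cons]; omega)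
        (V2_smul hccm (V2_cons' i (G2_gb (r := r) (β := (s - i) :: β) le_rfl le_rfl)))
  refine ⟨∑ k ∈ range (α + 1), sm (((α.choose k : ℕ) : K), ((α.choose k : ℕ) : ℚ))
    (sm (((2 : ℕ) : K), ((2 : ℕ) : ℚ)) (nG2 (k + 1) A1) + nG2 k A2), ?_, ?_, ?_, ?_⟩
  · apply sum_mem
    intro k hk
    have hk' := mem_range.1 hk
    have n1 := F2_smul (H2_nat (r := r) 2) (nG2_mem (k := k + 1) m1)
    have n2 := nG2_mem (k := k) m2
    have n3 : sm (((2 : ℕ) : K), ((2 : ℕ) : ℚ)) (nG2 (k + 1) A1) + nG2 k A2 ∈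
        F2 r 0 (p + 2 * α + wt (s :: β) + 3) (e + β.length + 3) :=
      add_mem (F2_mono le_rfl (by omega) (by omega) n1)
        (F2_mono le_rfl (by omega) (by omega) n2)
    exact F2_mono le_rfl (by omega) (by omega) (F2_smul (H2_nat (r := r) (α.choose k)) n3)
  · intro a l hal
    have hs : (l.sum : K) = l.length + 1 - a := by
      have : (a : K) + l.sum = l.length + 1 := by exact_mod_cast congrArg (Nat.cast : ℕ → K) hal
      linear_combination this
    have key : sI l (fun l' => (sm c (gen2 r α (s :: β))).1 (l.length + 2) (pad (mrg a l'))) =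
        ∑ i ∈ range (s + 1), (c.1 * ((l.length : K) + 2) ^ α * Cc r * Cc r * Z r i a) *
          (((l.length : K) + l.sum + 1) * gb r ((s - i) :: β) (pad l) +
            D r ((s - i) :: β) (pad l)) := by
      have e1 : sI l (fun l' => (sm c (gen2 r α (s :: β))).1 (l.length + 2) (pad (mrg a l'))) =
          sI l (fun l' => (c.1 * ((l.length : K) + 2) ^ α * Cc r) *
            gb r (s :: β) (pad (mrg a l'))) := by
        apply sI_congr
        intro l' _ _ _
        simp only [sm_fst, gen2, gen, Pi.smul_apply, smul_eq_mul]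
        push_cast
        ring
      rw [e1, sI_mul, sI_mrg, mul_sum]
      apply sum_congr rfl
      intro i _
      rw [sI_gb]
      ring
    rw [key]
    have h3 : ((l.length : K) + 2) ^ α =
        ∑ k ∈ range (α + 1), (α.choose k : K) * ((l.length : K) + 1) ^ k := by
      have : (l.length : K) + 2 = ((l.length : K) + 1) + 1 := by ring
      rw [this, add_pow]
      simp only [one_pow, mul_one]
      exact sum_congr rfl fun k _ => mul_comm _ _
    have h4 : (∑ k ∈ range (α + 1), sm (((α.choose k : ℕ) : K), ((α.choose k : ℕ) : ℚ))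
        (sm (((2 : ℕ) : K), ((2 : ℕ) : ℚ)) (nG2 (k + 1) A1) + nG2 k A2)).1 (l.length + 1)
          (cns a (pad l)) =
        ((l.length : K) + 2) ^ α * (2 * ((l.length : K) + 1) * A1.1 (cns a (pad l)) +
          A2.1 (cns a (pad l))) := by
      rw [h3, Prod.fst_sum, Finset.sum_apply, Finset.sum_apply, sum_mul]
      apply sum_congr rfl
      intro k _
      simp only [sm_fst, Prod.fst_add, Pi.smul_apply, Pi.add_apply, smul_eq_mul, nG2, nG,
        LinearMap.coe_mk, AddHom.coe_mk]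
      push_cast
      ring
    rw [h4, hA1, hA2]
    simp only [Prod.fst_sum, Finset.sum_apply, Prod.fst_sub, Pi.sub_apply, sm_fst,
      Pi.smul_apply, smul_eq_mul, cg, mc, mc', gb2, D2, cns_zero, tl_cns]
    rw [mul_sum, mul_sum, ← sum_add_distrib, mul_sum]
    apply sum_congr rfl
    intro i _
    rw [hs, hcc, Prod.fst_mul]
    ring
  · intro n v
    have hA1' : ∀ v, A1.2 1 v = A1.2 2 v := by
      intro v
      rw [hA1]
      simp only [Prod.snd_sum, Finset.sum_apply, sm_snd, Pi.smul_apply, cg, mc, gb2,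
        List.length_cons]
      apply sum_congr rfl
      intro i _
      rw [if_pos (by omega), if_pos (by omega)]
    have hA2' : ∀ v, A2.2 1 v = A2.2 2 v := by
      intro v
      rw [hA2]
      simp only [Prod.snd_sum, Finset.sum_apply, Prod.snd_sub, Pi.sub_apply, sm_snd,
        Pi.smul_apply, cg, mc, mc', gb2, D2, List.length_cons]
      apply sum_congr rfl
      intro i _
      rw [if_pos (by omega), if_pos (by omega)]
      have e5 : (1 - 1 : ℕ) = 0 := rfl
      have e6 : (2 - 1 : ℕ) = 1 := rfl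
      rw [e5, e6, DD_zero_one]
    simp only [Prod.snd_sum, Finset.sum_apply, sm_snd, Prod.snd_add, Pi.smul_apply,
      Pi.add_apply, nG2, hA1', hA2']
  · intro a l hal
    have hs : (l.sum : ℚ) = l.length + 1 - a := by
      have : (a : ℚ) + l.sum = l.length + 1 := by exact_mod_cast congrArg (Nat.cast : ℕ → ℚ) hal
      linear_combination this
    have key : sI l (fun l' => (sm c (gen2 r α (s :: β))).2 (l.length + 4) (l.length + 2)
        (pad (mrg a l'))) =
        ∑ i ∈ range (s + 1), (c.2 * ((l.length : ℚ) + 2) ^ α * Z (1 : ℚ) i a) *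
          (if l.length + 4 ≤ ((s - i) :: β).length then
            sI l (fun l' => gb (1 : ℚ) ((s - i) :: β) (pad l')) else 0) := by
      by_cases hlen : l.length + 4 ≤ (s :: β).length
      · have e1 : sI l (fun l' => (sm c (gen2 r α (s :: β))).2 (l.length + 4) (l.length + 2)
            (pad (mrg a l'))) =
            sI l (fun l' => (c.2 * ((l.length : ℚ) + 2) ^ α) *
              gb (1 : ℚ) (s :: β) (pad (mrg a l'))) := by
          apply sI_congr
          intro l' _ _ _
          simp only [sm_snd, gen2, Pi.smul_apply, smul_eq_mul]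
          rw [if_pos hlen]
          push_cast
          ring
        rw [e1, sI_mul, sI_mrg, mul_sum, Cc_one]
        apply sum_congr rfl
        intro i _
        rw [if_pos (by simpa using hlen)]
        ring
      · have e1 : sI l (fun l' => (sm c (gen2 r α (s :: β))).2 (l.length + 4) (l.length + 2)
            (pad (mrg a l'))) = sI l (fun l' => (0 : ℚ) * 0) := by
          apply sI_congr
          intro l' _ _ _
          simp only [sm_snd, gen2, Pi.smul_apply, smul_eq_mul]
          rw [if_neg hlen]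
          ring
        rw [e1, sI_mul, zero_mul]
        symm
        apply sum_eq_zero
        intro i _
        rw [if_neg (by simpa using hlen), mul_zero]
    rw [key]
    have h3 : ((l.length : ℚ) + 2) ^ α =
        ∑ k ∈ range (α + 1), (α.choose k : ℚ) * ((l.length : ℚ) + 1) ^ k := by
      have : (l.length : ℚ) + 2 = ((l.length : ℚ) + 1) + 1 := by ring
      rw [this, add_pow]
      simp only [one_pow, mul_one]
      exact sum_congr rfl fun k _ => mul_comm _ _
    have h4 : (∑ k ∈ range (α + 1), sm (((α.choose k : ℕ) : K), ((α.choose k : ℕ) : ℚ))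
        (sm (((2 : ℕ) : K), ((2 : ℕ) : ℚ)) (nG2 (k + 1) A1) + nG2 k A2)).2 (l.length + 3)
          (l.length + 1) (cns a (pad l)) =
        ((l.length : ℚ) + 2) ^ α * (2 * ((l.length : ℚ) + 1) *
          A1.2 (l.length + 3) (cns a (pad l)) + A2.2 (l.length + 3) (cns a (pad l))) := by
      rw [h3, Prod.snd_sum, Finset.sum_apply, Finset.sum_apply, Finset.sum_apply, sum_mul]
      apply sum_congr rfl
      intro k _
      simp only [sm_snd, Prod.snd_add, Pi.smul_apply, Pi.add_apply, smul_eq_mul, nG2]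
      push_cast
      ring
    rw [h4, hA1, hA2]
    simp only [Prod.snd_sum, Finset.sum_apply, Prod.snd_sub, Pi.sub_apply, sm_snd,
      Pi.smul_apply, smul_eq_mul, cg, mc, mc', gb2, D2, cns_zero, tl_cns]
    rw [mul_sum, ← sum_add_distrib, mul_sum]
    apply sum_congr rfl
    intro i _
    have h5 := sI_DD ((s - i) :: β) l
    have h6 : l.length + 3 - 1 = l.length + 2 := by omega
    rw [← h5, hs, hcc, Prod.snd_mul, h6]
    split_ifs
    · ring
    · ring

end

end Pool.Agent.LuckyDiag
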