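import Pool.Agent.Work.MP_d4a4cd_h25.PairD
import Pool.Agent.Work.MP_d4a4cd_h25.Closed

/-!
# Pairs: the generating functions
-/

set_option autoImplicit false
set_option linter.unusedSectionVars false

namespace Pool.Agent.LuckyDiag

open Finset Pool.Agent.LuckyStirling

open scoped Polynomial

section
variable {K : Type*} [Field K] [CharZero K] {r : K}

lemma UP2_mono {w w' d d' : ℕ} (h : w ≤ w') (h' : d ≤ d') {f : E2 K}
    (hf : UP2 r w d f) : UP2 r w' d' f := by
  obtain ⟨g, hg, H⟩ := hf
  exact ⟨g, F2_mono le_rfl h h' hg, H⟩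

lemma UP2_F2 (h1 : 1 - r ≠ 0) (h2 : 1 + r ≠ 0) {z w d : ℕ} {f : E2 K}
    (hf : f ∈ F2 r z w d) : UP2 r (w + 3) (d + 2) f := by
  unfold F2 at hf
  induction hf using AddSubgroup.closure_induction with
  | mem f hf =>
    obtain ⟨α, β, p, e, c, hβ, hc, hw, hz, hd, rfl⟩ := hf
    match β, hβ with
    | s :: β, _ =>
      simp only [List.length_cons] at hd
      exact UP2_mono (by omega) (by omega) (UP2_gen h1 h2 hc)
  | zero =>
    refine ⟨0, zero_mem _, fun a l _ => ?_, fun n v => rfl, fun a l _ => ?_⟩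
    · have : sI l (fun l' => (0 : E2 K).1 (l.length + 2) (pad (mrg a l'))) = 0 := by
        have := sI_mul l (0 : K) (fun _ => 0)
        simpa using this
      rw [this, mul_zero]
      rfl
    · have : sI l (fun l' => (0 : E2 K).2 (l.length + 4) (l.length + 2) (pad (mrg a l'))) =
          0 := by
        have := sI_mul l (0 : ℚ) (fun _ => 0)
        simpa using this
      rw [this]
      rfl
  | add f f' _ _ hf hf' =>
    obtain ⟨g, hg, G, G2, G3⟩ := hf
    obtain ⟨g', hg', G', G2', G3'⟩ := hf'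
    refine ⟨g + g', add_mem hg hg', fun a l h => ?_, fun n v => ?_, fun a l h => ?_⟩
    · have e1 : sI l (fun l' => (f + f').1 (l.length + 2) (pad (mrg a l'))) =
          sI l (fun l' => f.1 (l.length + 2) (pad (mrg a l'))) +
          sI l (fun l' => f'.1 (l.length + 2) (pad (mrg a l'))) := sI_add l _ _
      rw [e1, mul_add, G a l h, G' a l h]
      rfl
    · simp only [Prod.snd_add, Pi.add_apply, G2, G2']
    · have e1 : sI l (fun l' => (f + f').2 (l.length + 4) (l.length + 2) (pad (mrg a l'))) =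
          sI l (fun l' => f.2 (l.length + 4) (l.length + 2) (pad (mrg a l'))) +
          sI l (fun l' => f'.2 (l.length + 4) (l.length + 2) (pad (mrg a l'))) :=
        sI_add l _ _
      rw [e1, ← G3 a l h, ← G3' a l h]
      rfl
  | neg f _ hf =>
    obtain ⟨g, hg, G, G2, G3⟩ := hf
    refine ⟨-g, neg_mem hg, fun a l h => ?_, fun n v => ?_, fun a l h => ?_⟩
    · have e1 : sI l (fun l' => (-f).1 (l.length + 2) (pad (mrg a l'))) =
          -sI l (fun l' => f.1 (l.length + 2) (pad (mrg a l'))) := by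
        have := sI_mul l (-1 : K) (fun l' => f.1 (l.length + 2) (pad (mrg a l')))
        simpa using this
      rw [e1, mul_neg, G a l h]
      rfl
    · simp only [Prod.snd_neg, Pi.neg_apply, G2]
    · have e1 : sI l (fun l' => (-f).2 (l.length + 4) (l.length + 2) (pad (mrg a l'))) =
          -sI l (fun l' => f.2 (l.length + 4) (l.length + 2) (pad (mrg a l'))) := by
        have := sI_mul l (-1 : ℚ)
          (fun l' => f.2 (l.length + 4) (l.length + 2) (pad (mrg a l')))
        simpa using this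
      rw [e1, ← G3 a l h]
      rfl

lemma H2_fst {p e : ℕ} {c : K × ℚ} (hc : c ∈ H2 r p e) : c.1 ∈ H r p e := by
  obtain ⟨N, A, hA, h, _⟩ := hc
  exact ⟨N, A, hA, h⟩

lemma F2_fst {z w d : ℕ} {f : E2 K} (hf : f ∈ F2 r z w d) : f.1 ∈ Fil r z w d := by
  unfold F2 at hf
  induction hf using AddSubgroup.closure_induction with
  | mem f hf =>
    obtain ⟨α, β, p, e, c, hβ, hc, hw, hz, hd, rfl⟩ := hf
    rw [sm_fst]
    exact Fil_gen hβ (H2_fst hc) hw hz hd
  | zero => exact zero_mem _
  | add f g _ _ hf hg => exact add_mem hf hg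
  | neg f _ hf => exact neg_mem hf

lemma F2_tail {z w d : ℕ} {f : E2 K} (hf : f ∈ F2 r z w d) :
    ∀ k, d < k → ∀ n v, f.2 k n v = 0 := by
  unfold F2 at hf
  induction hf using AddSubgroup.closure_induction with
  | mem f hf =>
    obtain ⟨α, β, p, e, c, hβ, hc, hw, hz, hd, rfl⟩ := hf
    intro k hk n v
    simp only [sm_snd, gen2, Pi.smul_apply, smul_eq_mul]
    rw [if_neg (by omega), mul_zero]
  | zero => intro k _ n v; rfl
  | add f g _ _ hf hg =>
    intro k hk n v
    simp only [Prod.snd_add, Pi.add_apply, hf k hk, hg k hk, add_zero]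
  | neg f _ hf =>
    intro k hk n v
    simp only [Prod.snd_neg, Pi.neg_apply, hf k hk, neg_zero]

end

/-- the generating functions `V j` are in the class -/
theorem V_mem2 (j : ℕ) : ∃ f ∈ F2 rr (if j = 0 then 0 else 2) (5 * j + 1) (2 * j + 1),
    (∀ (a : ℕ) (l : List ℕ), a + l.sum = l.length + 1 →
      io (V j (a :: l)) = f.1 (l.length + 1) (cns a (pad l))) ∧
    (∀ (a : ℕ) (l : List ℕ), a + l.sum = l.length + 1 →
      f.2 (l.length + 3) (l.length + 1) (cns a (pad l)) = 0) ∧
    (1 ≤ j → f.2 1 1 (cns 1 (pad [])) = 0) := by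
  induction j with
  | zero =>
    have hm : gen2 rr 0 [0] ∈ F2 rr (if 0 = 0 then 0 else 2) (5 * 0 + 1) (2 * 0 + 1) := by
      have := F2_gen (r := rr) (α := 0) (β := [0]) (p := 0) (e := 0) (z := 0) (w := 5 * 0 + 1)
        (d := 2 * 0 + 1) (by simp) H2_one (by simp [wt]) (by simp) (by simp)
      rwa [one_sm] at this
    refine ⟨gen2 rr 0 [0], hm, ?_, ?_, fun h => absurd h (by omega)⟩
    · apply uniq _ (bdd (F2_fst hm))
      intro a l _
      have h1 : ∀ (n : ℕ) (v : ℕ → ℕ), (gen2 rr 0 [0]).1 n v = Y rr 0 (v 0) := by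
        intro n v
        have : (gen2 rr 0 [0]).1 = gen rr 0 [0] := rfl
        rw [this, ← lft_Y, lft_apply, pow_zero, one_mul]
      have h2 := TY_zero rr one_add_rr a
      simp only [h1, cns_zero]
      rw [V_zero_rec, map_add, map_one, map_mul, map_sum, sum_sub_distrib, ← xx_rr]
      have h3 : ∑ i ∈ range (a + 1), Y rr 0 (i + 1) = TS (Y rr 0) a := rfl
      rw [h3]
      linear_combination h2
    · intro a l _
      simp only [gen2, List.length_cons, List.length_nil]
      rw [if_neg (by omega)]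
  | succ j ih =>
    obtain ⟨f0, hf0, hV, h00, -⟩ := ih
    obtain ⟨g, hg, hgU, hgI, hgS⟩ := UP2_F2 one_sub_rr one_add_rr hf0
    obtain ⟨f, hf, hR⟩ := res_F2 rr_ne one_add_rr hg
    have hf' : f ∈ F2 rr (if j + 1 = 0 then 0 else 2) (5 * (j + 1) + 1) (2 * (j + 1) + 1) :=
      F2_mono (by simp) (by omega) (by omega) hf
    have hzero : ∀ m : ℕ, ∀ (a : ℕ) (l : List ℕ), a + l.sum = l.length + 1 →
        2 * (j + 1) + 1 < l.length + 3 + m →
        f.2 (l.length + 3) (l.length + 1) (cns a (pad l)) = 0 := by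
      intro m
      induction m with
      | zero =>
        intro a l _ hm
        exact F2_tail hf' _ (by omega) _ _
      | succ m ihm =>
        intro a l hal hm
        rw [hR.h2 _ (by omega), hgS a l hal]
        have e1 : Lb (f.2 (l.length + 3 + 1)) (l.length + 1) (cns a (pad l)) = 0 := by
          unfold Lb
          apply sum_eq_zero
          intro i hi
          have hi' := mem_range.1 hi
          rw [cns_zero] at hi'
          rw [cns_zero, tl_cns]
          have := ihm (i + 1) ((a - i) :: l) (by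
            rw [List.sum_cons, List.length_cons]
            omega) (by rw [List.length_cons]; omega)
          rw [List.length_cons] at this
          exact this
        have e2 : sI l (fun l' => f0.2 (l.length + 4) (l.length + 2) (pad (mrg a l'))) = 0 := by
          have e3 : sI l (fun l' => f0.2 (l.length + 4) (l.length + 2) (pad (mrg a l'))) =
              sI l (fun l' => (0 : ℚ) * 0) := by
            apply sI_congr
            intro l' hl' hlen hsum
            match l', hl' with
            | b :: l', _ =>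
              have h6 : mrg a (b :: l') = (a + 1 + b) :: l' := rfl
              simp only [List.length_cons, List.sum_cons] at hlen hsum
              have h8 := h00 (a + 1 + b) l' (by omega)
              have h9 : l'.length = l.length + 1 := by omega
              rw [h9] at h8
              rw [h6, mul_zero]
              exact h8
          rw [e3, sI_mul, zero_mul]
        rw [e1, e2, add_zero]
    have hz : ∀ (a : ℕ) (l : List ℕ), a + l.sum = l.length + 1 →
        f.2 (l.length + 3) (l.length + 1) (cns a (pad l)) = 0 := fun a l hal =>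
      hzero (2 * (j + 1) + 1) a l hal (by omega)
    refine ⟨f, hf', ?_, hz, fun _ => ?_⟩
    · apply uniq _ (bdd (F2_fst hf))
      intro a l hal
      have h1 : f.1 (l.length + 1) (cns a (pad l)) = g.1 (l.length + 1) (cns a (pad l)) +
          xx rr * ∑ i ∈ range (a + 1),
            f.1 (l.length + 2) (cns (i + 1) (cns (a - i) (pad l))) := by
        have h2 := congrFun (congrFun hR.h1 (l.length + 1)) (cns a (pad l))
        rw [S_eq] at h2
        rw [← h2]
        simp only [Pi.sub_apply, Pi.smul_apply, smul_eq_mul, L_apply, cns_zero, tl_cns]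
        ring
      have h3 : io (PowerSeries.X * sI l (fun l' => V j (mrg a l'))) =
          g.1 (l.length + 1) (cns a (pad l)) := by
        rw [← hgU a l hal, map_mul, xx_rr]
        congr 1
        have h4 := sI_map l io.toAddMonoidHom (fun l' => V j (mrg a l'))
        have h5 : io (sI l (fun l' => V j (mrg a l'))) = sI l (fun l' => io (V j (mrg a l'))) :=
          h4.symm
        rw [h5]
        apply sI_congr
        intro l' hl' hlen hsum
        match l', hl' with
        | c :: l', _ =>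
          have h6 : mrg a (c :: l') = (a + 1 + c) :: l' := rfl
          rw [h6, hV (a + 1 + c) l' (by
            simp only [List.length_cons, List.sum_cons] at hlen hsum
            omega)]
          have h7 : l'.length + 1 = l.length + 2 := by
            simpa using hlen
          rw [h7]
          rfl
      rw [h1, ← h3, V_succ_rec, map_mul, map_mul, map_add, map_sum, sum_sub_distrib, ← xx_rr]
      ring
    · have k4 := hR.h4 0 (pad [])
      have k3 := hR.h3 0 (pad []) rfl
      have kg := hgI 0 (pad [])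
      have e0 : pad [] 0 = 0 := rfl
      have ec : cns 1 (cns 0 (pad [])) = cns 1 (pad []) := by
        funext k
        match k with
        | 0 => rfl
        | 1 => rfl
        | k + 2 => rfl
      have eL : ∀ ψ : ℕ → (ℕ → ℕ) → ℚ, Lb ψ 0 (pad []) = ψ 1 (cns 1 (pad [])) := by
        intro ψ
        unfold Lb
        rw [e0]
        simp only [zero_add, sum_range_one, Nat.sub_zero, tl_pad_nil, ec]
      rw [eL, eL, k3, kg, e0, zero_add, tl_pad_nil] at k4
      have k5 := hz 1 [] (by simp)
      simp only [List.length_nil, zero_add] at k5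
      rw [k5] at k4
      linarith

/-- value at the first state -/
lemma value2 {w d : ℕ} {f : E2 KK} (hf : f ∈ F2 rr 2 (w + 2) (d + 1)) :
    ∃ q ∈ H2 rr w d, f.1 1 (cns 1 (pad [])) = Cc rr * Cc rr * q.1 ∧
      f.2 1 1 (cns 1 (pad [])) = q.2 := by
  unfold F2 at hf
  induction hf using AddSubgroup.closure_induction with
  | mem f hf =>
    obtain ⟨α, β, p, e, c, hβ, hc, hw, hz, hd, rfl⟩ := hf
    match β, hβ with
    | s :: β, _ =>
      have h2 : (1 + s).choose s = s + 1 := by
        rw [add_comm]; exact Nat.choose_succ_self_right s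
      refine ⟨(((s + 1 : ℕ) : KK), ((s + 1 : ℕ) : ℚ)) * c, ?_, ?_, ?_⟩
      · simp only [List.length_cons] at hd
        have := H2_mul (H2_nat (r := rr) (s + 1)) hc
        exact H2_mono (by omega) (by omega) this
      · simp only [sm_fst, gen2, Pi.smul_apply, smul_eq_mul, gen, gb_cons, cns_zero, tl_cns,
          gb_pad_nil, Prod.fst_mul]
        have h : Z rr s 1 = (s + 1 : ℕ) * Cc rr := by
          unfold Z
          rw [h2, pow_one]
        rw [h]
        push_cast
        ring
      · simp only [sm_snd, gen2, Pi.smul_apply, smul_eq_mul, gb_cons, cns_zero, tl_cns,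
          gb_pad_nil, Prod.snd_mul, List.length_cons]
        have h : Z (1 : ℚ) s 1 = (s + 1 : ℕ) := by
          unfold Z
          rw [h2, Cc_one, pow_one, mul_one]
        rw [h, if_pos (by omega)]
        push_cast
        ring
  | zero => exact ⟨0, zero_mem _, by simp, by simp⟩
  | add f g _ _ hf hg =>
    obtain ⟨q, hq, h, h'⟩ := hf
    obtain ⟨q', hq', g1, g2⟩ := hg
    refine ⟨q + q', add_mem hq hq', ?_, ?_⟩
    · rw [Prod.fst_add, Prod.fst_add, Pi.add_apply, Pi.add_apply, h, g1]; ring
    · rw [Prod.snd_add, Prod.snd_add, Pi.add_apply, Pi.add_apply, Pi.add_apply, h', g2]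
  | neg f _ hf =>
    obtain ⟨q, hq, h, h'⟩ := hf
    refine ⟨-q, neg_mem hq, ?_, ?_⟩
    · rw [Prod.fst_neg, Prod.fst_neg, Pi.neg_apply, Pi.neg_apply, h]; ring
    · rw [Prod.snd_neg, Prod.snd_neg, Pi.neg_apply, Pi.neg_apply, Pi.neg_apply, h']

/-- The generating function of a diagonal is a Laurent polynomial in `rho 1`. -/
theorem diag_laurent (j : ℕ) : ∃ B : ℚ[X], B.natDegree ≤ 7 * j + 6 ∧
    rho 1 ^ (5 * j + 4) * (PowerSeries.X * V (j + 1) [1]) = evp B := by
  obtain ⟨f, hf, hV, -, h0⟩ := V_mem2 (j + 1)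
  have hf' : f ∈ F2 rr 2 ((5 * j + 4) + 2) ((2 * j + 2) + 1) := hf
  obtain ⟨q, ⟨N, A, hA, hq, hq2⟩, hval, hval2⟩ := value2 hf'
  have h1 : io (V (j + 1) [1]) = Cc rr * Cc rr * q.1 := by
    rw [← hval]
    exact hV 1 [] (by simp)
  have hroot : A.IsRoot (-1) := by
    rw [Polynomial.IsRoot, ← hq2, ← hval2, h0 (by omega), mul_zero]
  obtain ⟨A1, hA1⟩ := Polynomial.dvd_iff_isRoot.2 hroot
  have hA1d : A1.natDegree ≤ N + (7 * j + 5) := natDegree_of_mul hA1 (by omega)
  have e1 : ev rr A = (1 + rr) * ev rr A1 := by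
    rw [hA1, ev_mul]
    unfold ev
    rw [Polynomial.eval₂_sub, Polynomial.eval₂_X, Polynomial.eval₂_C, map_neg, map_one]
    ring
  have h2 : (1 - rr) ^ N * (rr ^ (5 * j + 4) * io (PowerSeries.X * V (j + 1) [1])) =
      ev rr ((1 - Polynomial.X) * A1) := by
    rw [ev_mul, ev_one_sub_X, map_mul, h1, ← xx_rr]
    rw [e1] at hq
    have h3 : xx rr * (Cc rr * Cc rr) * (1 + rr) = 1 - rr := by
      unfold xx Cc
      have := one_add_rr
      field_simp
      ring
    apply mul_left_cancel₀ one_add_rr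
    linear_combination ((1 - rr) ^ N * rr ^ (5 * j + 4) * q.1) * h3 + (1 - rr) * hq
  have h4 : (1 - rho 1) ^ N * (rho 1 ^ (5 * j + 4) * (PowerSeries.X * V (j + 1) [1])) =
      evp ((1 - Polynomial.X) * A1) := by
    apply io_inj
    rw [← ev_io, ← h2]
    simp only [map_mul, map_pow, map_sub, map_one]
    rfl
  have hA' : ((1 - Polynomial.X) * A1).natDegree ≤ N + (7 * j + 6) := by
    have := natDegree_aux 1 A1
    rw [pow_one] at this
    omega
  exact div_one_sub (7 * j + 6) _ N _ hA' h4

lemma evp_sum (m p : ℕ) (b : ℕ → ℚ) :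
    evp (∑ k ∈ range m, Polynomial.C (b k) * Polynomial.X ^ k) =
      rho 1 ^ p * ∑ k ∈ range m, PowerSeries.C (b k) * rho ((k : ℤ) - p) := by
  unfold evp
  rw [Polynomial.eval₂_finsetSum, mul_sum]
  apply sum_congr rfl
  intro k _
  rw [Polynomial.eval₂_mul, Polynomial.eval₂_C, Polynomial.eval₂_pow, Polynomial.eval₂_X,
    ← rho_sub k p]
  ring

lemma rho_pow_ne (p : ℕ) : rho 1 ^ p ≠ 0 := by
  apply pow_ne_zero
  intro h
  exact rr_ne (by unfold rr; rw [h, map_zero])

theorem diag_series2 (j : ℕ) : ∃ b : ℕ → ℚ, PowerSeries.X * V (j + 1) [1] =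
    ∑ k ∈ range (7 * j + 7), PowerSeries.C (b k) * rho ((k : ℤ) - (5 * j + 4 : ℕ)) := by
  obtain ⟨B, hB, h⟩ := diag_laurent j
  refine ⟨B.coeff, ?_⟩
  apply mul_left_cancel₀ (rho_pow_ne (5 * j + 4))
  rw [← evp_sum, h]
  congr 1
  exact Polynomial.as_sum_range_C_mul_X_pow' B (by omega)

lemma indep2 (p m : ℕ) (b : ℕ → ℚ)
    (h : PowerSeries.X ^ (m + 1) ∣ ∑ k ∈ range (m + 1), PowerSeries.C (b k) * rho ((k : ℤ) - p)) :
    ∀ k < m + 1, b k = 0 := by
  set B : ℚ[X] := ∑ k ∈ range (m + 1), Polynomial.C (b k) * Polynomial.X ^ k with hB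
  have hBd : B.natDegree ≤ m := by
    apply Polynomial.natDegree_sum_le_of_forall_le
    intro k hk
    have := mem_range.1 hk
    exact (Polynomial.natDegree_C_mul_X_pow_le _ _).trans (by omega)
  have h4 : B = 0 := by
    apply evp_eq_zero m B hBd
    rw [hB, evp_sum (m + 1) p]
    exact Dvd.dvd.mul_left h _
  intro k hk
  have h5 := congrArg (fun q => Polynomial.coeff q k) h4
  simp only [hB, Polynomial.finsetSum_coeff, Polynomial.coeff_C_mul, Polynomial.coeff_X_pow,
    Polynomial.coeff_zero] at h5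
  rw [sum_eq_single k] at h5
  · simpa using h5
  · intro i _ hik
    rw [if_neg (fun h => hik h.symm), mul_zero]
  · intro h
    exact absurd (mem_range.2 hk) h

/-- the functions of the diagonal -/
noncomputable def fn (j : ℕ) (b : ℕ → ℚ) (n : ℕ) : ℚ :=
  ∑ k ∈ range (7 * j), b k * ((-4) ^ n * Ring.choose (((k : ℚ) + 1 - 5 * j) / 2) n)

lemma coeff_fn (j : ℕ) (b : ℕ → ℚ) (n : ℕ) :
    PowerSeries.coeff n (∑ k ∈ range (7 * j + 7),
      PowerSeries.C (b k) * rho ((k : ℤ) - (5 * j + 4 : ℕ))) = fn (j + 1) b n := by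
  unfold fn
  rw [map_sum]
  apply sum_congr rfl
  intro k _
  rw [PowerSeries.coeff_C_mul, coeff_rho]
  congr 4
  push_cast
  ring

lemma coeff_G' (j n : ℕ) (hn : 1 ≤ n) :
    PowerSeries.coeff n (PowerSeries.X * V j [1]) = (a n (n - j) : ℚ) := by
  obtain ⟨m, rfl⟩ : ∃ m, n = m + 1 := ⟨n - 1, by omega⟩
  rw [PowerSeries.coeff_succ_X_mul, a_eq_T (m + 1) j (by omega), T_nil]
  simp [V]

theorem diag_exists_unique2 (j : ℕ) (hj : 1 ≤ j) : ∃ b : ℕ → ℚ,
    fn j b 0 = 0 ∧ (∀ n : ℕ, 1 ≤ n → (a n (n - j) : ℚ) = fn j b n) ∧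
    ∀ b' : ℕ → ℚ, fn j b' 0 = 0 →
      (∀ n : ℕ, 1 ≤ n → n < 7 * j → (a n (n - j) : ℚ) = fn j b' n) →
      ∀ k < 7 * j, b' k = b k := by
  obtain ⟨i, rfl⟩ : ∃ i, j = i + 1 := ⟨j - 1, by omega⟩
  obtain ⟨b, h⟩ := diag_series2 i
  have h0 : fn (i + 1) b 0 = 0 := by
    rw [← coeff_fn, ← h]
    simp
  have h1 : ∀ n : ℕ, 1 ≤ n → (a n (n - (i + 1)) : ℚ) = fn (i + 1) b n := by
    intro n hn
    rw [← coeff_fn, ← h, coeff_G' _ _ hn]
  refine ⟨b, h0, h1, fun b' h2 h3 => ?_⟩
  have h4 := indep2 (5 * i + 4) (7 * i + 6) (fun k => b' k - b k) (by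
    rw [PowerSeries.X_pow_dvd_iff]
    intro n hn
    have e1 : ∑ k ∈ range (7 * i + 6 + 1),
        PowerSeries.C (b' k - b k) * rho ((k : ℤ) - (5 * i + 4 : ℕ)) =
        (∑ k ∈ range (7 * i + 7), PowerSeries.C (b' k) *
          rho ((k : ℤ) - (5 * i + 4 : ℕ))) -
        (∑ k ∈ range (7 * i + 7), PowerSeries.C (b k) *
          rho ((k : ℤ) - (5 * i + 4 : ℕ))) := by
      simp only [map_sub, sub_mul, sum_sub_distrib]
    rw [e1, map_sub, coeff_fn, coeff_fn]
    by_cases hn0 : n = 0
    · rw [hn0, h2, h0, sub_zero]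
    · rw [← h1 n (by omega), ← h3 n (by omega) (by omega), sub_self])
  intro k hk
  have := h4 k (by omega)
  linarith

end Pool.Agent.LuckyDiag
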