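import Pool.Agent.Work.MP_d4a4cd_h25.Base

/-!
# The filtered class of functions and the resolvent of the lucky step
-/

set_option autoImplicit false
set_option linter.unusedSectionVars false

namespace Pool.Agent.LuckyDiag

open Finset Polynomial

section
variable {K : Type*} [Field K] [CharZero K] (r : K)

/-- evaluation at `r` -/
noncomputable def ev (A : ℚ[X]) : K := A.eval₂ (Rat.castHom K) r

lemma ev_add (A B : ℚ[X]) : ev r (A + B) = ev r A + ev r B := eval₂_add _ _

lemma ev_mul (A B : ℚ[X]) : ev r (A * B) = ev r A * ev r B := eval₂_mul _ _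

lemma ev_neg (A : ℚ[X]) : ev r (-A) = -ev r A := by
  unfold ev
  rw [Polynomial.eval₂_neg]

lemma ev_pow (A : ℚ[X]) (n : ℕ) : ev r (A ^ n) = ev r A ^ n := eval₂_pow _ _ _

lemma ev_X : ev r X = r := eval₂_X _ _

lemma ev_C (q : ℚ) : ev r (C q) = (q : K) := by
  unfold ev
  rw [eval₂_C]
  rfl

lemma ev_one_sub_X : ev r (1 - X) = 1 - r := by
  unfold ev
  rw [Polynomial.eval₂_sub, eval₂_one, eval₂_X]

lemma natDegree_aux (N : ℕ) (A : ℚ[X]) : ((1 - X) ^ N * A).natDegree ≤ N + A.natDegree := by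
  refine natDegree_mul_le.trans (Nat.add_le_add_right ?_ _)
  refine natDegree_pow_le.trans ?_
  have h : (1 - X : ℚ[X]).natDegree ≤ 1 := by
    refine (natDegree_sub_le _ _).trans ?_
    simp
  calc N * (1 - X : ℚ[X]).natDegree ≤ N * 1 := Nat.mul_le_mul_left _ h
    _ = N := by ring

/-- Coefficients with a pole of order at most `p` at `r = 0`, of degree at most `e` at infinity,
and with all other poles at `r = 1`. -/
def H (p e : ℕ) : AddSubgroup K where
  carrier := {c | ∃ (N : ℕ) (A : ℚ[X]),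
    A.natDegree ≤ N + p + e ∧ (1 - r) ^ N * r ^ p * c = ev r A}
  zero_mem' := ⟨0, 0, by simp, by simp [ev]⟩
  add_mem' := by
    rintro c c' ⟨N, A, hA, h⟩ ⟨N', A', hA', h'⟩
    refine ⟨N + N', (1 - X) ^ N' * A + (1 - X) ^ N * A', ?_, ?_⟩
    · refine (natDegree_add_le _ _).trans (max_le ?_ ?_)
      · refine (natDegree_aux _ _).trans ?_
        omega
      · refine (natDegree_aux _ _).trans ?_
        omega
    · rw [ev_add, ev_mul, ev_mul, ev_pow, ev_pow, ev_one_sub_X, ← h, ← h']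
      ring
  neg_mem' := by
    rintro c ⟨N, A, hA, h⟩
    refine ⟨N, -A, ?_, ?_⟩
    · rw [natDegree_neg]; exact hA
    · rw [ev_neg, ← h]; ring

variable {r}

lemma H_mono {p p' e e' : ℕ} (hp : p ≤ p') (he : e ≤ e') {c : K} (hc : c ∈ H r p e) :
    c ∈ H r p' e' := by
  obtain ⟨N, A, hA, h⟩ := hc
  obtain ⟨k, rfl⟩ := Nat.exists_eq_add_of_le hp
  refine ⟨N, X ^ k * A, ?_, ?_⟩
  · refine natDegree_mul_le.trans ?_
    rw [natDegree_X_pow]
    omega
  · rw [ev_mul, ev_pow, ev_X, ← h]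
    ring

lemma H_mul {p p' e e' : ℕ} {c c' : K} (hc : c ∈ H r p e) (hc' : c' ∈ H r p' e') :
    c * c' ∈ H r (p + p') (e + e') := by
  obtain ⟨N, A, hA, h⟩ := hc
  obtain ⟨N', A', hA', h'⟩ := hc'
  refine ⟨N + N', A * A', ?_, ?_⟩
  · refine natDegree_mul_le.trans ?_
    omega
  · rw [ev_mul, ← h, ← h']
    ring

lemma H_rat (q : ℚ) : (q : K) ∈ H r 0 0 :=
  ⟨0, C q, by simp, by rw [ev_C]; simp⟩

lemma H_nat (q : ℕ) : (q : K) ∈ H r 0 0 := by
  have := H_rat (r := r) (q : ℚ)
  simpa using this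

lemma H_one : (1 : K) ∈ H r 0 0 := by
  have := H_nat (r := r) 1
  simpa using this

lemma H_nat_mul (q : ℕ) {p e : ℕ} {c : K} (hc : c ∈ H r p e) : (q : K) * c ∈ H r p e := by
  have := H_mul (H_nat (r := r) q) hc
  simpa using this

lemma H_xC (h2 : 1 + r ≠ 0) : xx r * Cc r ∈ H r 0 1 := by
  refine ⟨0, C (1 / 2) * (1 - X), ?_, ?_⟩
  · refine natDegree_mul_le.trans ?_
    rw [natDegree_C, zero_add, zero_add, zero_add]
    refine (natDegree_sub_le _ _).trans ?_
    simp
  · rw [ev_mul, ev_C, ev_one_sub_X]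
    unfold xx Cc
    push_cast
    field_simp
    ring

lemma H_a (h0 : r ≠ 0) : (1 - r) / (2 * r) ∈ H r 1 0 := by
  refine ⟨0, C (1 / 2) * (1 - X), ?_, ?_⟩
  · refine natDegree_mul_le.trans ?_
    rw [natDegree_C, zero_add]
    refine (natDegree_sub_le _ _).trans ?_
    simp
  · rw [ev_mul, ev_C, ev_one_sub_X]
    push_cast
    field_simp

lemma H_b (h0 : r ≠ 0) : (1 + r) / (2 * r) ∈ H r 1 0 := by
  refine ⟨0, C (1 / 2) * (C 1 + X), ?_, ?_⟩
  · refine natDegree_mul_le.trans ?_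
    rw [natDegree_C, zero_add]
    refine (natDegree_add_le _ _).trans ?_
    simp
  · rw [ev_mul, ev_C, ev_add, ev_C, ev_X]
    push_cast
    field_simp

lemma H_c (h1 : 1 - r ≠ 0) : 2 / (1 - r) ∈ H r 0 0 := by
  refine ⟨1, C 2, by simp, ?_⟩
  rw [ev_C]
  push_cast
  field_simp

lemma H_d (h1 : 1 - r ≠ 0) : (1 + r) / (1 - r) ∈ H r 0 0 := by
  refine ⟨1, C 1 + X, ?_, ?_⟩
  · refine (natDegree_add_le _ _).trans ?_
    simp
  · rw [ev_add, ev_C, ev_X]
    push_cast
    field_simp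

/-! ## One variable -/

variable (r)

/-- one-variable filtration -/
def Fil1 (z w : ℕ) : AddSubgroup (ℕ → K) :=
  AddSubgroup.closure {h | ∃ (t p : ℕ) (c : K), c ∈ H r p 0 ∧ p + t + 1 ≤ w ∧ p + z ≤ w ∧
    h = c • Y r t}

/-- sum of the shifted function -/
def TSl : (ℕ → K) →ₗ[K] (ℕ → K) where
  toFun := TS
  map_add' := by
    intro f g
    funext a
    simp only [TS, Pi.add_apply, sum_add_distrib]
  map_smul' := by
    intro c f
    funext a
    simp only [TS, Pi.smul_apply, smul_eq_mul, mul_sum, RingHom.id_apply]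

/-- `1 - x * TSl` -/
def TT : (ℕ → K) →ₗ[K] (ℕ → K) := LinearMap.id - xx r • TSl

lemma TT_apply (h : ℕ → K) (a : ℕ) : TT r h a = h a - xx r * TS h a := rfl

variable {r}

lemma Fil1_gen {t p z w : ℕ} {c : K} (hc : c ∈ H r p 0) (hw : p + t + 1 ≤ w) (hz : p + z ≤ w) :
    c • Y r t ∈ Fil1 r z w := AddSubgroup.subset_closure ⟨t, p, c, hc, hw, hz, rfl⟩

lemma Fil1_mono {z z' w w' : ℕ} (h' : z' ≤ z) (h : w ≤ w') {f : ℕ → K} (hf : f ∈ Fil1 r z w) :
    f ∈ Fil1 r z' w' := by
  refine AddSubgroup.closure_mono ?_ hf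
  rintro f ⟨t, p, c, hc, hw, hz, rfl⟩
  exact ⟨t, p, c, hc, by omega, by omega, rfl⟩

lemma Fil1_smul {p z w : ℕ} {c : K} (hc : c ∈ H r p 0) {f : ℕ → K} (hf : f ∈ Fil1 r z w) :
    c • f ∈ Fil1 r z (w + p) := by
  unfold Fil1 at hf
  induction hf using AddSubgroup.closure_induction with
  | mem f hf =>
    obtain ⟨t, p', c', hc', hw, hz, rfl⟩ := hf
    rw [smul_smul]
    exact Fil1_gen (H_mul hc hc') (by omega) (by omega)
  | zero => rw [smul_zero]; exact zero_mem _
  | add f g _ _ hf hg => rw [smul_add]; exact add_mem hf hg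
  | neg f _ hf => rw [smul_neg]; exact neg_mem hf

lemma Fil1_Y (s : ℕ) : Y r s ∈ Fil1 r 0 (s + 1) := by
  have := Fil1_gen (r := r) (t := s) (p := 0) (z := 0) (w := s + 1) H_one (by omega) (by omega)
  rwa [one_smul] at this

/-- the one-variable resolvent -/
lemma exists_res (h0 : r ≠ 0) (h2 : 1 + r ≠ 0) (s : ℕ) :
    ∃ w ∈ Fil1 r 2 (s + 3), TT r w = Y r s := by
  induction s using Nat.strong_induction_on with
  | _ s ih =>
    choose! w hw hT using ih
    have key : ∑ t ∈ range s, w t ∈ Fil1 r 2 (s + 2) := by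
      apply sum_mem
      intro t ht
      have := mem_range.1 ht
      exact Fil1_mono le_rfl (by omega) (hw t this)
    refine ⟨((1 - r) / (2 * r)) • Y r (s + 1) + ((1 + r) / (2 * r)) • Y r s -
      ((1 - r) / (2 * r)) • Y r 0 + ((1 - r) / (2 * r)) • ∑ t ∈ range s, w t, ?_, ?_⟩
    · refine add_mem (sub_mem (add_mem ?_ ?_) ?_) ?_
      · exact Fil1_gen (H_a h0) (by omega) (by omega)
      · exact Fil1_gen (H_b h0) (by omega) (by omega)
      · exact Fil1_gen (H_a h0) (by omega) (by omega)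
      · exact Fil1_smul (H_a h0) key
    · have e1 : TT r (∑ t ∈ range s, w t) = ∑ t ∈ range s, Y r t := by
        rw [map_sum]
        exact sum_congr rfl fun t ht => hT t (mem_range.1 ht)
      rw [map_add, map_sub, map_add, map_smul, map_smul, map_smul, map_smul, e1]
      funext a
      have e2 := TY_zero r h2 a
      have e3 := TY_succ r h2 s a
      simp only [Pi.add_apply, Pi.sub_apply, Pi.smul_apply, smul_eq_mul, TT_apply,
        Finset.sum_apply] at e2 e3 ⊢
      rw [e2]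
      field_simp
      linear_combination e3

end

end Pool.Agent.LuckyDiag
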