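import Pool.Agent.Work.MP_d4a4cd_h25.Conn

/-!
# The generating functions are in the class
-/

set_option autoImplicit false
set_option linter.unusedSectionVars false

namespace Pool.Agent.LuckyDiag

open Finset Pool.Agent.LuckyStirling

/-- the field of fractions of the ring of power series -/
abbrev KK : Type := FractionRing (PowerSeries ℚ)

/-- the embedding -/
noncomputable def io : PowerSeries ℚ →+* KK := algebraMap (PowerSeries ℚ) KK

lemma io_inj : Function.Injective io := IsFractionRing.injective (PowerSeries ℚ) KK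

instance : CharZero (PowerSeries ℚ) := algebraRat.charZero _

instance : CharZero KK := charZero_of_injective_algebraMap io_inj

/-- the square root of `1 - 4 x` -/
noncomputable def rr : KK := io (rho 1)

lemma io_ne {p : PowerSeries ℚ} (h : p ≠ 0) : io p ≠ 0 := by
  intro h'
  exact h (io_inj (by rw [h', map_zero]))

lemma rr_ne : rr ≠ 0 := by
  apply io_ne
  intro h
  have h2 := constantCoeff_rho 1
  rw [h, map_zero] at h2
  exact zero_ne_one h2

lemma Cat_ne : Cat ≠ 0 := by
  intro h
  have h1 := Cat_eq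
  rw [h] at h1
  simp at h1

lemma one_sub_rr : 1 - rr ≠ 0 := by
  have h : 1 - rr = io (2 * PowerSeries.X * Cat) := by
    unfold rr
    rw [rho_one_eq, map_sub, map_one]
    ring
  rw [h]
  apply io_ne
  exact mul_ne_zero (mul_ne_zero two_ne_zero PowerSeries.X_ne_zero) Cat_ne

lemma one_add_rr : 1 + rr ≠ 0 := by
  have h : (1 + rr) * io Cat = 2 := by
    have h2 := congrArg io one_add_rho_mul
    rw [map_mul, map_add, map_one, map_ofNat] at h2
    exact h2
  intro h'
  rw [h', zero_mul] at h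
  exact two_ne_zero h.symm

lemma Cc_rr : Cc rr = io Cat := by
  have h : (1 + rr) * io Cat = 2 := by
    have h2 := congrArg io one_add_rho_mul
    rw [map_mul, map_add, map_one, map_ofNat] at h2
    exact h2
  unfold Cc
  rw [div_eq_iff one_add_rr, ← h]
  ring

lemma xx_rr : xx rr = io PowerSeries.X := by
  have h : rr ^ 2 = 1 - 4 * io PowerSeries.X := by
    have h2 := congrArg io rho_one_sq
    rw [map_pow, map_sub, map_mul, map_one, map_ofNat] at h2
    exact h2
  unfold xx
  rw [h]
  ring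

lemma exists_den (c : KK) : ∃ (N : ℕ) (p : PowerSeries ℚ), io PowerSeries.X ^ N * c = io p := by
  obtain ⟨⟨a, b⟩, h⟩ := IsLocalization.surj (nonZeroDivisors (PowerSeries ℚ)) c
  have hb : (b : PowerSeries ℚ) ≠ 0 := nonZeroDivisors.ne_zero b.2
  refine ⟨(b : PowerSeries ℚ).order.toNat, PowerSeries.Inv_divided_by_X_pow_order hb * a, ?_⟩
  have h1 := PowerSeries.X_pow_order_mul_divXPowOrder (f := (b : PowerSeries ℚ))
  have h2 := PowerSeries.Inv_divided_by_X_pow_order_rightInv hb
  have h3 : (PowerSeries.X : PowerSeries ℚ) ^ (b : PowerSeries ℚ).order.toNat =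
      b * PowerSeries.Inv_divided_by_X_pow_order hb := by
    calc (PowerSeries.X : PowerSeries ℚ) ^ (b : PowerSeries ℚ).order.toNat =
        PowerSeries.X ^ (b : PowerSeries ℚ).order.toNat *
          ((b : PowerSeries ℚ).divXPowOrder * PowerSeries.Inv_divided_by_X_pow_order hb) := by
          rw [h2, mul_one]
      _ = (PowerSeries.X ^ (b : PowerSeries ℚ).order.toNat * (b : PowerSeries ℚ).divXPowOrder) *
          PowerSeries.Inv_divided_by_X_pow_order hb := by rw [mul_assoc]
      _ = _ := by rw [h1]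
  have h4 : c * io b = io a := h
  rw [← map_pow, h3, map_mul, map_mul, ← h4]
  ring

lemma Z_int (s a : ℕ) : ∃ p : PowerSeries ℚ, Z rr s a = io p := by
  refine ⟨((a + s).choose s : PowerSeries ℚ) * Cat ^ a, ?_⟩
  unfold Z
  rw [Cc_rr, map_mul, map_pow, map_natCast]

lemma gb_int (β : List ℕ) : ∀ v : ℕ → ℕ, ∃ p : PowerSeries ℚ, gb rr β v = io p := by
  induction β with
  | nil => intro v; exact ⟨1, by rw [map_one]; rfl⟩
  | cons s β ih =>
    intro v
    obtain ⟨p, hp⟩ := ih (tl v)
    obtain ⟨q, hq⟩ := Z_int s (v 0)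
    exact ⟨q * p, by rw [gb_cons, hp, hq, map_mul]⟩

lemma gen_int (α : ℕ) (β : List ℕ) (n : ℕ) (v : ℕ → ℕ) :
    ∃ p : PowerSeries ℚ, gen rr α β n v = io p := by
  obtain ⟨p, hp⟩ := gb_int β v
  refine ⟨(n : PowerSeries ℚ) ^ α * (Cat * p), ?_⟩
  unfold gen
  rw [hp, Cc_rr, map_mul, map_mul, map_pow, map_natCast]

lemma bdd {z w d : ℕ} {f : ℕ → (ℕ → ℕ) → KK} (hf : f ∈ Fil rr z w d) :
    ∃ N : ℕ, ∀ (n : ℕ) (v : ℕ → ℕ), ∃ p : PowerSeries ℚ,
      io PowerSeries.X ^ N * f n v = io p := by
  unfold Fil at hf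
  induction hf using AddSubgroup.closure_induction with
  | mem f hf =>
    obtain ⟨α, β, p, e, c, hβ, hc, hw, hz, hd, rfl⟩ := hf
    obtain ⟨N, q, hq⟩ := exists_den c
    refine ⟨N, fun n v => ?_⟩
    obtain ⟨u, hu⟩ := gen_int α β n v
    refine ⟨q * u, ?_⟩
    rw [map_mul, ← hq, ← hu, Pi.smul_apply, Pi.smul_apply, smul_eq_mul]
    ring
  | zero => exact ⟨0, fun n v => ⟨0, by simp⟩⟩
  | add f g _ _ hf hg =>
    obtain ⟨N, hN⟩ := hf
    obtain ⟨M, hM⟩ := hg
    refine ⟨N + M, fun n v => ?_⟩
    obtain ⟨p, hp⟩ := hN n v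
    obtain ⟨q, hq⟩ := hM n v
    refine ⟨PowerSeries.X ^ M * p + PowerSeries.X ^ N * q, ?_⟩
    rw [map_add, map_mul, map_mul, map_pow, map_pow, ← hp, ← hq, Pi.add_apply, Pi.add_apply]
    ring
  | neg f _ hf =>
    obtain ⟨N, hN⟩ := hf
    refine ⟨N, fun n v => ?_⟩
    obtain ⟨p, hp⟩ := hN n v
    refine ⟨-p, ?_⟩
    rw [map_neg, ← hp, Pi.neg_apply, Pi.neg_apply]
    ring

/-- uniqueness -/
lemma uniq (f : ℕ → (ℕ → ℕ) → KK)
    (hb : ∃ N : ℕ, ∀ (n : ℕ) (v : ℕ → ℕ), ∃ p : PowerSeries ℚ,
      io PowerSeries.X ^ N * f n v = io p)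
    (W : List ℕ → PowerSeries ℚ)
    (h : ∀ (a : ℕ) (l : List ℕ), a + l.sum = l.length + 1 →
      f (l.length + 1) (cns a (pad l)) - io (W (a :: l)) =
        io PowerSeries.X * ∑ i ∈ range (a + 1),
          (f (l.length + 2) (cns (i + 1) (cns (a - i) (pad l))) -
            io (W ((i + 1) :: (a - i) :: l)))) :
    ∀ (a : ℕ) (l : List ℕ), a + l.sum = l.length + 1 →
      io (W (a :: l)) = f (l.length + 1) (cns a (pad l)) := by
  obtain ⟨N, hN⟩ := hb
  have key : ∀ (k a : ℕ) (l : List ℕ), a + l.sum = l.length + 1 →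
      ∃ p : PowerSeries ℚ, io PowerSeries.X ^ N * (f (l.length + 1) (cns a (pad l)) -
        io (W (a :: l))) = io (PowerSeries.X ^ k * p) := by
    intro k
    induction k with
    | zero =>
      intro a l _
      obtain ⟨p, hp⟩ := hN (l.length + 1) (cns a (pad l))
      refine ⟨p - PowerSeries.X ^ N * W (a :: l), ?_⟩
      rw [pow_zero, one_mul, map_sub, ← hp, map_mul, map_pow]
      ring
    | succ k ih =>
      intro a l hal
      have h1 : ∀ i ∈ range (a + 1), ∃ p : PowerSeries ℚ, io PowerSeries.X ^ N *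
          (f (l.length + 2) (cns (i + 1) (cns (a - i) (pad l))) -
            io (W ((i + 1) :: (a - i) :: l))) = io (PowerSeries.X ^ k * p) := by
        intro i hi
        have hi' := mem_range.1 hi
        exact ih (i + 1) ((a - i) :: l) (by
          rw [List.sum_cons, List.length_cons]
          omega)
      choose! q hq using h1
      refine ⟨∑ i ∈ range (a + 1), q i, ?_⟩
      rw [h a l hal, mul_left_comm, mul_sum, sum_congr rfl hq, ← map_sum, ← map_mul, ← mul_sum,
        pow_succ']
      congr 1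
      ring
  intro a l hal
  obtain ⟨q, hq⟩ := key 0 a l hal
  have hq0 : q = 0 := by
    ext n
    obtain ⟨p, hp⟩ := key (n + 1) a l hal
    have h2 : q = PowerSeries.X ^ (n + 1) * p := by
      apply io_inj
      rw [← hp, hq, pow_zero, one_mul]
    have h3 : PowerSeries.X ^ (n + 1) ∣ q := ⟨p, h2⟩
    rw [map_zero]
    exact PowerSeries.X_pow_dvd_iff.1 h3 n (Nat.lt_succ_self n)
  rw [hq0, mul_zero, map_zero] at hq
  have h4 : io PowerSeries.X ^ N ≠ 0 := pow_ne_zero _ (io_ne PowerSeries.X_ne_zero)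
  have h5 := (mul_eq_zero.1 hq).resolve_left h4
  exact (sub_eq_zero.1 h5).symm

/-- the generating functions `V j` are in the class -/
theorem V_mem (j : ℕ) : ∃ f ∈ Fil rr (if j = 0 then 0 else 2) (5 * j + 1) (2 * j + 1),
    ∀ (a : ℕ) (l : List ℕ), a + l.sum = l.length + 1 →
      io (V j (a :: l)) = f (l.length + 1) (cns a (pad l)) := by
  induction j with
  | zero =>
    have hm : gen rr 0 [0] ∈ Fil rr (if 0 = 0 then 0 else 2) (5 * 0 + 1) (2 * 0 + 1) := by
      have := Fil_gen (r := rr) (α := 0) (β := [0]) (p := 0) (e := 0) (z := 0) (w := 5 * 0 + 1)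
        (d := 2 * 0 + 1) (by simp) H_one (by simp [wt]) (by simp) (by simp)
      rwa [one_smul] at this
    refine ⟨gen rr 0 [0], hm, ?_⟩
    apply uniq _ (bdd hm)
    intro a l _
    have h1 : ∀ (n : ℕ) (v : ℕ → ℕ), gen rr 0 [0] n v = Y rr 0 (v 0) := by
      intro n v
      rw [← lft_Y, lft_apply, pow_zero, one_mul]
    have h2 := TY_zero rr one_add_rr a
    simp only [h1, cns_zero]
    rw [V_zero_rec, map_add, map_one, map_mul, map_sum, sum_sub_distrib, ← xx_rr]
    have h3 : ∑ i ∈ range (a + 1), Y rr 0 (i + 1) = TS (Y rr 0) a := rfl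
    rw [h3]
    linear_combination h2
  | succ j ih =>
    obtain ⟨f0, hf0, hV⟩ := ih
    obtain ⟨g, hg, hgU⟩ := UP_Fil one_sub_rr one_add_rr hf0
    obtain ⟨f, hf, hfS⟩ := mem_SFil.1 (res_Fil rr_ne one_add_rr hg)
    have hf' : f ∈ Fil rr (if j + 1 = 0 then 0 else 2) (5 * (j + 1) + 1) (2 * (j + 1) + 1) :=
      Fil_mono (by simp) (by omega) (by omega) hf
    refine ⟨f, hf', ?_⟩
    apply uniq _ (bdd hf)
    intro a l hal
    have h1 : f (l.length + 1) (cns a (pad l)) = g (l.length + 1) (cns a (pad l)) +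
        xx rr * ∑ i ∈ range (a + 1), f (l.length + 2) (cns (i + 1) (cns (a - i) (pad l))) := by
      have h2 := congrFun (congrFun hfS (l.length + 1)) (cns a (pad l))
      rw [S_eq] at h2
      rw [← h2]
      simp only [Pi.sub_apply, Pi.smul_apply, smul_eq_mul, L_apply, cns_zero, tl_cns]
      ring
    have h3 : io (PowerSeries.X * sI l (fun l' => V j (mrg a l'))) =
        g (l.length + 1) (cns a (pad l)) := by
      rw [← hgU a l hal, map_mul, xx_rr]
      congr 1
      have h4 := sI_map l io.toAddMonoidHom (fun l' => V j (mrg a l'))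
      have h5 : io (sI l (fun l' => V j (mrg a l'))) = sI l (fun l' => io (V j (mrg a l'))) :=
        h4.symm
      rw [h5]
      apply sI_congr
      intro l' hl' hlen hsum
      match l', hl' with
      | c :: l', _ =>
        have h6 : mrg a (c :: l') = (a + 1 + c) :: l' := rfl
        rw [h6, hV (a + 1 + c) l' (by
          simp only [List.length_cons, List.sum_cons] at hlen hsum
          omega)]
        have h7 : l'.length + 1 = l.length + 2 := by
          simpa using hlen
        rw [h7]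
        rfl
    rw [h1, ← h3, V_succ_rec, map_mul, map_mul, map_add, map_sum, sum_sub_distrib, ← xx_rr]
    ring

end Pool.Agent.LuckyDiag
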