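import Pool.Agent.Work.MP_d4a4cd_h25.Multi

/-!
# The unlucky step
-/

set_option autoImplicit false
set_option linter.unusedSectionVars false

namespace Pool.Agent.LuckyDiag

open Finset

/-- The sum over the insertions into a list of blocks. -/
def sI {M : Type*} [AddCommMonoid M] : List ℕ → (List ℕ → M) → M
  | [], F => F [0, 0]
  | c :: l, F => ∑ b ∈ range (c + 1), F (b :: 0 :: (c - b) :: l) + sI l (fun l' => F (c :: l'))

section
variable {M M' : Type*} [AddCommMonoid M] [AddCommMonoid M']

lemma sI_congr (l : List ℕ) : ∀ (F G : List ℕ → M)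
    (_ : ∀ l' : List ℕ, l' ≠ [] → l'.length = l.length + 2 → l'.sum = l.sum → F l' = G l'),
    sI l F = sI l G := by
  induction l with
  | nil => intro F G h; exact h _ (by simp) (by simp) (by simp)
  | cons c l ih =>
    intro F G h
    rw [sI, sI]
    congr 1
    · apply sum_congr rfl
      intro b hb
      have hb' := mem_range.1 hb
      apply h
      · simp
      · simp
      · simp only [List.sum_cons]
        omega
    · apply ih
      intro l' h1 h2 h3
      apply h
      · simp
      · simp only [List.length_cons]; omega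
      · simp only [List.sum_cons]; omega

lemma sI_map (l : List ℕ) (φ : M →+ M') : ∀ F : List ℕ → M,
    sI l (fun l' => φ (F l')) = φ (sI l F) := by
  induction l with
  | nil => intro F; rfl
  | cons c l ih =>
    intro F
    rw [sI, sI, map_add, map_sum, ih]

lemma sI_add (l : List ℕ) : ∀ F G : List ℕ → M,
    sI l (fun l' => F l' + G l') = sI l F + sI l G := by
  induction l with
  | nil => intro F G; rfl
  | cons c l ih =>
    intro F G
    rw [sI, sI, sI, ih, sum_add_distrib]
    abel

lemma sI_sum {ι : Type*} (t : Finset ι) (l : List ℕ) (F : ι → List ℕ → M) :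
    sI l (fun l' => ∑ i ∈ t, F i l') = ∑ i ∈ t, sI l (F i) := by
  classical
  induction t using Finset.induction_on with
  | empty =>
    simp only [sum_empty]
    have := sI_map l (0 : M →+ M) (fun _ => 0)
    simpa using this
  | insert a t ha ih =>
    simp only [sum_insert ha]
    rw [sI_add, ih]

end

lemma sI_mul {K : Type*} [Field K] (l : List ℕ) (c : K) (F : List ℕ → K) :
    sI l (fun l' => c * F l') = c * sI l F :=
  sI_map l (AddMonoidHom.mulLeft c) F

/-- The list as a sequence. -/
def pad : List ℕ → ℕ → ℕ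
  | [] => fun _ => 0
  | a :: l => cns a (pad l)

lemma tl_pad_nil : tl (pad []) = pad [] := rfl

section
variable {K : Type*} [Field K] [CharZero K] (r : K)

/-- correction term of the sum over insertions -/
def D : List ℕ → (ℕ → ℕ) → K
  | [], _ => 0
  | s :: γ, v => ∑ b ∈ range (v 0 + 1), gb r (s :: γ) (cns b (cns 0 (cns (v 0 - b) (tl v)))) -
      ((v 0 : K) + 1) * gb r (s :: γ) v + Z r s (v 0) * D γ (tl v)

lemma gb_pad_nil (γ : List ℕ) : gb r γ (pad []) = 1 := by
  induction γ with
  | nil => rfl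
  | cons s γ ih =>
    rw [gb_cons, tl_pad_nil, ih]
    have : pad [] 0 = 0 := rfl
    rw [this, Z_zero_right, mul_one]

lemma gb_zeros (γ : List ℕ) : gb r γ (cns 0 (cns 0 (cns 0 (pad [])))) = 1 := by
  have h : cns 0 (cns 0 (cns 0 (pad []))) = pad [] := by
    funext k
    match k with
    | 0 => rfl
    | 1 => rfl
    | 2 => rfl
    | k + 3 => rfl
  rw [h, gb_pad_nil]

lemma D_pad_nil (γ : List ℕ) : D r γ (pad []) = 0 := by
  induction γ with
  | nil => rfl
  | cons s γ ih =>
    rw [D, tl_pad_nil, ih]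
    have h : pad [] 0 = 0 := rfl
    simp only [h, zero_add, sum_range_one, Nat.cast_zero, Nat.sub_zero]
    rw [gb_zeros, gb_pad_nil]
    ring

/-- the sum of a generator over the insertions -/
lemma sI_gb (γ : List ℕ) : ∀ l : List ℕ, sI l (fun l' => gb r γ (pad l')) =
    ((l.length : K) + l.sum + 1) * gb r γ (pad l) + D r γ (pad l) := by
  induction γ with
  | nil =>
    intro l
    simp only [gb_nil, D]
    induction l with
    | nil => rw [sI]; simp
    | cons c l ih =>
      rw [sI, ih]
      simp only [sum_const, card_range, nsmul_eq_mul, List.length_cons, List.sum_cons]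
      push_cast
      ring
  | cons s γ ih =>
    intro l
    cases l with
    | nil =>
      rw [sI, gb_pad_nil, D_pad_nil]
      have h : pad [0, 0] = pad [] := by
        funext k
        match k with
        | 0 => rfl
        | 1 => rfl
        | k + 2 => rfl
      rw [h, gb_pad_nil]
      simp
    | cons c l =>
      rw [sI]
      have h1 : sI l (fun l' => gb r (s :: γ) (pad (c :: l'))) =
          Z r s c * sI l (fun l' => gb r γ (pad l')) := by
        rw [← sI_mul]
        rfl
      rw [h1, ih]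
      have h2 : ∑ b ∈ range (c + 1), gb r (s :: γ) (pad (b :: 0 :: (c - b) :: l)) =
          ∑ b ∈ range (c + 1), gb r (s :: γ) (cns b (cns 0 (cns (c - b) (pad l)))) := rfl
      rw [h2, D, List.length_cons, List.sum_cons]
      have h3 : pad (c :: l) = cns c (pad l) := rfl
      rw [h3, cns_zero, tl_cns, gb_cons]
      simp only [cns_zero, tl_cns]
      push_cast
      ring

/-- functions of a sequence, with a filtration -/
def FG (w d : ℕ) : AddSubgroup ((ℕ → ℕ) → K) :=
  AddSubgroup.closure {g | ∃ (β : List ℕ) (p e : ℕ) (c : K), c ∈ H r p e ∧ p + wt β ≤ w ∧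
    e + β.length ≤ d ∧ g = c • gb r β}

variable {r}

lemma FG_gen {β : List ℕ} {p e w d : ℕ} {c : K} (hc : c ∈ H r p e) (hw : p + wt β ≤ w)
    (hd : e + β.length ≤ d) : c • gb r β ∈ FG r w d :=
  AddSubgroup.subset_closure ⟨β, p, e, c, hc, hw, hd, rfl⟩

lemma FG_gb {β : List ℕ} {w d : ℕ} (hw : wt β ≤ w) (hd : β.length ≤ d) : gb r β ∈ FG r w d := by
  have := FG_gen (r := r) (β := β) (p := 0) (e := 0) (w := w) (d := d) H_one (by omega) (by omega)
  rwa [one_smul] at this

lemma FG_mono {w w' d d' : ℕ} (h : w ≤ w') (h' : d ≤ d') {f : (ℕ → ℕ) → K}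
    (hf : f ∈ FG r w d) : f ∈ FG r w' d' := by
  refine AddSubgroup.closure_mono ?_ hf
  rintro f ⟨β, p, e, c, hc, hw, hd, rfl⟩
  exact ⟨β, p, e, c, hc, by omega, by omega, rfl⟩

lemma FG_smul {p e w d : ℕ} {c : K} (hc : c ∈ H r p e) {f : (ℕ → ℕ) → K}
    (hf : f ∈ FG r w d) : c • f ∈ FG r (w + p) (d + e) := by
  unfold FG at hf
  induction hf using AddSubgroup.closure_induction with
  | mem f hf =>
    obtain ⟨β, p', e', c', hc', hw, hd, rfl⟩ := hf
    rw [smul_smul]
    exact FG_gen (H_mul hc hc') (by omega) (by omega)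
  | zero => rw [smul_zero]; exact zero_mem _
  | add f g _ _ hf hg => rw [smul_add]; exact add_mem hf hg
  | neg f _ hf => rw [smul_neg]; exact neg_mem hf

/-- multiply by a function of a new first block -/
lemma FG_cons {w d : ℕ} (s : ℕ) {g : (ℕ → ℕ) → K} (hg : g ∈ FG r w d) :
    (fun v => Z r s (v 0) * g (tl v)) ∈ FG r (w + s + 1) (d + 1) := by
  unfold FG at hg
  induction hg using AddSubgroup.closure_induction with
  | mem f hf =>
    obtain ⟨β, p', e', c', hc', hw, hd, rfl⟩ := hf
    have h : (fun v : ℕ → ℕ => Z r s (v 0) * (c' • gb r β) (tl v)) = c' • gb r (s :: β) := by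
      funext v
      simp only [Pi.smul_apply, smul_eq_mul, gb_cons]
      ring
    rw [h]
    exact FG_gen hc' (by simp only [wt]; omega) (by simp only [List.length_cons]; omega)
  | zero =>
    have h : (fun v : ℕ → ℕ => Z r s (v 0) * (0 : (ℕ → ℕ) → K) (tl v)) = 0 := by
      funext v; simp
    rw [h]; exact zero_mem _
  | add f g _ _ hf hg =>
    have h : (fun v : ℕ → ℕ => Z r s (v 0) * (f + g) (tl v)) =
        (fun v => Z r s (v 0) * f (tl v)) + (fun v => Z r s (v 0) * g (tl v)) := by
      funext v; simp only [Pi.add_apply]; ring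
    rw [h]; exact add_mem hf hg
  | neg f _ hf =>
    have h : (fun v : ℕ → ℕ => Z r s (v 0) * (-f) (tl v)) =
        -(fun v => Z r s (v 0) * f (tl v)) := by
      funext v; simp only [Pi.neg_apply]; ring
    rw [h]; exact neg_mem hf

/-- the same, with the additional factor `v 0` -/
lemma FG_cons' {w d : ℕ} (s : ℕ) {g : (ℕ → ℕ) → K} (hg : g ∈ FG r w d) :
    (fun v => (v 0 : K) * Z r s (v 0) * g (tl v)) ∈ FG r (w + s + 2) (d + 1) := by
  have h : (fun v : ℕ → ℕ => (v 0 : K) * Z r s (v 0) * g (tl v)) =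
      ((s + 1 : ℕ) : K) • (fun v : ℕ → ℕ => Z r (s + 1) (v 0) * g (tl v)) -
      ((s + 1 : ℕ) : K) • (fun v : ℕ → ℕ => Z r s (v 0) * g (tl v)) := by
    funext v
    simp only [Pi.sub_apply, Pi.smul_apply, smul_eq_mul, Z_mul]
    push_cast
    ring
  rw [h]
  refine sub_mem ?_ ?_
  · exact FG_mono (by omega) (by omega) (FG_smul (H_nat (r := r) (s + 1)) (FG_cons (s + 1) hg))
  · exact FG_mono (by omega) (by omega) (FG_smul (H_nat (r := r) (s + 1)) (FG_cons s hg))

lemma SZ_mem (h1 : 1 - r ≠ 0) (h2 : 1 + r ≠ 0) (s : ℕ) :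
    (fun v : ℕ → ℕ => SZ r s (v 0)) ∈ FG r (s + 1) 1 := by
  induction s with
  | zero =>
    have h : (fun v : ℕ → ℕ => SZ r 0 (v 0)) =
        (2 / (1 - r)) • gb r [0] - ((1 + r) / (1 - r)) • gb r [] := by
      funext v
      simp only [Pi.sub_apply, Pi.smul_apply, smul_eq_mul, gb_cons, gb_nil,
        SZ_zero_left r h1 h2]
      ring
    rw [h]
    refine sub_mem ?_ ?_
    · exact FG_gen (H_c h1) (by simp [wt]) (by simp)
    · exact FG_gen (H_d h1) (by simp [wt]) (by simp)
  | succ s ih =>
    have h : (fun v : ℕ → ℕ => SZ r (s + 1) (v 0)) =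
        (2 / (1 - r)) • gb r [s + 1] - ((1 + r) / (1 - r)) • (fun v : ℕ → ℕ => SZ r s (v 0)) := by
      funext v
      simp only [Pi.sub_apply, Pi.smul_apply, smul_eq_mul, gb_cons, gb_nil,
        SZ_succ_left r h1 h2]
      ring
    rw [h]
    refine sub_mem ?_ ?_
    · exact FG_gen (H_c h1) (by simp [wt]) (by simp)
    · exact FG_mono (by omega) (by omega) (FG_smul (H_d h1) ih)

lemma D_mem (h1 : 1 - r ≠ 0) (h2 : 1 + r ≠ 0) (γ : List ℕ) :
    D r γ ∈ FG r (wt γ + 1) γ.length := by
  induction γ with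
  | nil =>
    have h : D r [] = 0 := rfl
    rw [h]; exact zero_mem _
  | cons s γ ih =>
    have hA : (fun v : ℕ → ℕ => ∑ b ∈ range (v 0 + 1),
        gb r (s :: γ) (cns b (cns 0 (cns (v 0 - b) (tl v))))) ∈
        FG r (wt (s :: γ) + 1) (s :: γ).length := by
      match γ with
      | [] =>
        have h : (fun v : ℕ → ℕ => ∑ b ∈ range (v 0 + 1),
            gb r [s] (cns b (cns 0 (cns (v 0 - b) (tl v))))) = fun v => SZ r s (v 0) := by
          funext v
          simp only [gb_cons, gb_nil, cns_zero, mul_one]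
          rfl
        rw [h]
        exact FG_mono (by simp only [wt]; omega) (by simp) (SZ_mem h1 h2 s)
      | [t] =>
        have h : (fun v : ℕ → ℕ => ∑ b ∈ range (v 0 + 1),
            gb r [s, t] (cns b (cns 0 (cns (v 0 - b) (tl v))))) = fun v => SZ r s (v 0) := by
          funext v
          simp only [gb_cons, gb_nil, cns_zero, mul_one, tl_cns, Z_zero_right]
          rfl
        rw [h]
        exact FG_mono (by simp only [wt]; omega) (by simp) (SZ_mem h1 h2 s)
      | t :: u :: γ' =>
        have h : (fun v : ℕ → ℕ => ∑ b ∈ range (v 0 + 1),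
            gb r (s :: t :: u :: γ') (cns b (cns 0 (cns (v 0 - b) (tl v))))) =
            gb r ((s + u + 1) :: γ') := by
          funext v
          simp only [gb_cons, cns_zero, tl_cns, Z_zero_right, one_mul]
          rw [← Z_conv, sum_mul]
          exact sum_congr rfl fun i _ => by ring
        rw [h]
        exact FG_gb (by simp only [wt]; omega) (by simp only [List.length_cons]; omega)
    have hB : (fun v : ℕ → ℕ => (v 0 : K) * Z r s (v 0) * gb r γ (tl v)) ∈
        FG r (wt (s :: γ) + 1) (s :: γ).length :=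
      FG_mono (by simp only [wt]; omega) (by simp)
        (FG_cons' s (FG_gb (r := r) (β := γ) le_rfl le_rfl))
    have hC : gb r (s :: γ) ∈ FG r (wt (s :: γ) + 1) (s :: γ).length :=
      FG_gb (by omega) le_rfl
    have hD : (fun v : ℕ → ℕ => Z r s (v 0) * D r γ (tl v)) ∈
        FG r (wt (s :: γ) + 1) (s :: γ).length :=
      FG_mono (by simp only [wt]; omega) (by simp) (FG_cons s ih)
    have h : D r (s :: γ) = (fun v : ℕ → ℕ => ∑ b ∈ range (v 0 + 1),
        gb r (s :: γ) (cns b (cns 0 (cns (v 0 - b) (tl v))))) -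
        (fun v : ℕ → ℕ => (v 0 : K) * Z r s (v 0) * gb r γ (tl v)) - gb r (s :: γ) +
        (fun v : ℕ → ℕ => Z r s (v 0) * D r γ (tl v)) := by
      funext v
      simp only [D, Pi.add_apply, Pi.sub_apply, gb_cons]
      ring
    rw [h]
    exact add_mem (sub_mem (sub_mem hA hB) hC) hD

/-- functions with at least one block, times `C` -/
def FV (r : K) (w d : ℕ) : AddSubgroup ((ℕ → ℕ) → K) :=
  AddSubgroup.closure {g | ∃ (β : List ℕ) (p e : ℕ) (c : K), β ≠ [] ∧ c ∈ H r p e ∧
    p + wt β ≤ w ∧ e + β.length ≤ d ∧ g = c • Cc r • gb r β}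

lemma FV_mono {w w' d d' : ℕ} (h : w ≤ w') (h' : d ≤ d') {f : (ℕ → ℕ) → K}
    (hf : f ∈ FV r w d) : f ∈ FV r w' d' := by
  refine AddSubgroup.closure_mono ?_ hf
  rintro f ⟨β, p, e, c, hβ, hc, hw, hd, rfl⟩
  exact ⟨β, p, e, c, hβ, hc, by omega, by omega, rfl⟩

lemma FV_cons {w d p e : ℕ} (s : ℕ) {c : K} (hc : c ∈ H r p e) {g : (ℕ → ℕ) → K}
    (hg : g ∈ FG r w d) :
    (fun v => c * (Cc r * (Z r s (v 0) * g (tl v)))) ∈ FV r (w + s + 1 + p) (d + 1 + e) := by
  unfold FG at hg
  induction hg using AddSubgroup.closure_induction with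
  | mem f hf =>
    obtain ⟨β, p', e', c', hc', hw, hd, rfl⟩ := hf
    have h : (fun v : ℕ → ℕ => c * (Cc r * (Z r s (v 0) * (c' • gb r β) (tl v)))) =
        (c * c') • Cc r • gb r (s :: β) := by
      funext v
      simp only [Pi.smul_apply, smul_eq_mul, gb_cons]
      ring
    rw [h]
    exact AddSubgroup.subset_closure ⟨s :: β, _, _, _, by simp, H_mul hc hc',
      by simp only [wt]; omega, by simp only [List.length_cons]; omega, rfl⟩
  | zero =>
    have h : (fun v : ℕ → ℕ => c * (Cc r * (Z r s (v 0) * (0 : (ℕ → ℕ) → K) (tl v)))) = 0 := by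
      funext v; simp
    rw [h]; exact zero_mem _
  | add f g _ _ hf hg =>
    have h : (fun v : ℕ → ℕ => c * (Cc r * (Z r s (v 0) * (f + g) (tl v)))) =
        (fun v => c * (Cc r * (Z r s (v 0) * f (tl v)))) +
        (fun v => c * (Cc r * (Z r s (v 0) * g (tl v)))) := by
      funext v; simp only [Pi.add_apply]; ring
    rw [h]; exact add_mem hf hg
  | neg f _ hf =>
    have h : (fun v : ℕ → ℕ => c * (Cc r * (Z r s (v 0) * (-f) (tl v)))) =
        -(fun v => c * (Cc r * (Z r s (v 0) * f (tl v)))) := by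
      funext v; simp only [Pi.neg_apply]; ring
    rw [h]; exact neg_mem hf

/-- times a power of `n` -/
def nG (k : ℕ) : ((ℕ → ℕ) → K) →ₗ[K] (ℕ → (ℕ → ℕ) → K) where
  toFun g n v := (n : K) ^ k * g v
  map_add' := by
    intro f g
    funext n v
    simp only [Pi.add_apply]
    ring
  map_smul' := by
    intro c f
    funext n v
    simp only [Pi.smul_apply, smul_eq_mul, RingHom.id_apply]
    ring

lemma nG_mem {k w d : ℕ} {g : (ℕ → ℕ) → K} (hg : g ∈ FV r w d) :
    nG k g ∈ Fil r 0 (2 * k + w) d := by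
  unfold FV at hg
  induction hg using AddSubgroup.closure_induction with
  | mem f hf =>
    obtain ⟨β, p, e, c, hβ, hc, hw, hd, rfl⟩ := hf
    rw [map_smul]
    exact Fil_gen hβ hc (by omega) (by omega) hd
  | zero => rw [map_zero]; exact zero_mem _
  | add f g _ _ hf hg => rw [map_add]; exact add_mem hf hg
  | neg f _ hf => rw [map_neg]; exact neg_mem hf

/-- new first block -/
def mrg (a : ℕ) : List ℕ → List ℕ
  | [] => [a + 1]
  | c :: l => (a + 1 + c) :: l

/-- The property that the unlucky step maps `f` to the class. -/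
def UP (r : K) (w d : ℕ) (f : ℕ → (ℕ → ℕ) → K) : Prop :=
  ∃ g ∈ Fil r 0 w d, ∀ (a : ℕ) (l : List ℕ), a + l.sum = l.length + 1 →
    xx r * sI l (fun l' => f (l.length + 2) (pad (mrg a l'))) = g (l.length + 1) (cns a (pad l))

lemma UP_gen (h1 : 1 - r ≠ 0) (h2 : 1 + r ≠ 0) {α s : ℕ} {β : List ℕ} {p e : ℕ} {c : K}
    (hc : c ∈ H r p e) :
    UP r (p + 2 * α + wt (s :: β) + 3) (e + β.length + 3) (c • gen r α (s :: β)) := by
  set cc := c * (xx r * Cc r) with hcc
  have hccm : cc ∈ H r p (e + 1) := by
    have := H_mul hc (H_xC (r := r) h2)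
    simpa using this
  set G1 : (ℕ → ℕ) → K := ∑ i ∈ range (s + 1),
    (fun v => cc * (Cc r * (Z r i (v 0) * gb r ((s - i) :: β) (tl v)))) with hG1
  set G2 : (ℕ → ℕ) → K := ∑ i ∈ range (s + 1),
    ((fun v => cc * (Cc r * (Z r i (v 0) * D r ((s - i) :: β) (tl v)))) -
      ((fun v => (((i + 1 : ℕ) : K) * cc) *
          (Cc r * (Z r (i + 1) (v 0) * gb r ((s - i) :: β) (tl v))))
      - (fun v => (((i + 1 : ℕ) : K) * cc) *
        (Cc r * (Z r i (v 0) * gb r ((s - i) :: β) (tl v)))))) with hG2
  have m1 : G1 ∈ FV r (p + wt (s :: β) + 1) (e + β.length + 3) := by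
    apply sum_mem
    intro i hi
    have hi' := mem_range.1 hi
    exact FV_mono (by simp only [wt]; omega) (by simp only [List.length_cons]; omega)
      (FV_cons i hccm (FG_gb (r := r) (β := (s - i) :: β) le_rfl le_rfl))
  have m2 : G2 ∈ FV r (p + wt (s :: β) + 2) (e + β.length + 3) := by
    apply sum_mem
    intro i hi
    have hi' := mem_range.1 hi
    refine sub_mem ?_ (sub_mem ?_ ?_)
    · exact FV_mono (by simp only [wt]; omega) (by simp only [List.length_cons]; omega)
        (FV_cons i hccm (D_mem h1 h2 ((s - i) :: β)))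
    · exact FV_mono (by simp only [wt]; omega) (by simp only [List.length_cons]; omega)
        (FV_cons (i + 1) (H_nat_mul (i + 1) hccm)
          (FG_gb (r := r) (β := (s - i) :: β) le_rfl le_rfl))
    · exact FV_mono (by simp only [wt]; omega) (by simp only [List.length_cons]; omega)
        (FV_cons i (H_nat_mul (i + 1) hccm)
          (FG_gb (r := r) (β := (s - i) :: β) le_rfl le_rfl))
  refine ⟨∑ k ∈ range (α + 1), ((α.choose k : ℕ) : K) •
    (((2 : ℕ) : K) • nG (k + 1) G1 + nG k G2), ?_, ?_⟩
  · apply sum_mem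
    intro k hk
    have hk' := mem_range.1 hk
    have n1 := Fil_smul (H_nat (r := r) 2) (nG_mem (k := k + 1) m1)
    have n2 := nG_mem (k := k) m2
    have n3 : ((2 : ℕ) : K) • nG (k + 1) G1 + nG k G2 ∈
        Fil r 0 (p + 2 * α + wt (s :: β) + 3) (e + β.length + 3) :=
      add_mem (Fil_mono le_rfl (by omega) (by omega) n1)
        (Fil_mono le_rfl (by omega) (by omega) n2)
    exact Fil_mono le_rfl (by omega) (by omega) (Fil_smul (H_nat (r := r) (α.choose k)) n3)
  · intro a l hal
    have hs : (l.sum : K) = l.length + 1 - a := by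
      have : (a : K) + l.sum = l.length + 1 := by exact_mod_cast congrArg (Nat.cast : ℕ → K) hal
      linear_combination this
    have key : sI l (fun l' => (c • gen r α (s :: β)) (l.length + 2) (pad (mrg a l'))) =
        ∑ i ∈ range (s + 1), (c * ((l.length : K) + 2) ^ α * Cc r * Cc r * Z r i a) *
          (((l.length : K) + l.sum + 1) * gb r ((s - i) :: β) (pad l) +
            D r ((s - i) :: β) (pad l)) := by
      have e1 : sI l (fun l' => (c • gen r α (s :: β)) (l.length + 2) (pad (mrg a l'))) =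
          sI l (fun l' => ∑ i ∈ range (s + 1),
            (c * ((l.length : K) + 2) ^ α * Cc r * Cc r * Z r i a) *
              gb r ((s - i) :: β) (pad l')) := by
        apply sI_congr
        intro l' h _ _
        match l', h with
        | b :: l', _ =>
          have e2 : pad (mrg a (b :: l')) = cns (a + 1 + b) (pad l') := rfl
          have e3 : pad (b :: l') = cns b (pad l') := rfl
          rw [e2, e3]
          simp only [Pi.smul_apply, smul_eq_mul, gen, gb_cons, cns_zero, tl_cns]
          rw [Z_vand]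
          push_cast
          simp only [mul_sum, sum_mul]
          apply sum_congr rfl
          intro i _
          ring
      rw [e1, sI_sum]
      apply sum_congr rfl
      intro i _
      rw [sI_mul, sI_gb]
    rw [key]
    have h3 : ((l.length : K) + 2) ^ α =
        ∑ k ∈ range (α + 1), (α.choose k : K) * ((l.length : K) + 1) ^ k := by
      have : (l.length : K) + 2 = ((l.length : K) + 1) + 1 := by ring
      rw [this, add_pow]
      simp only [one_pow, mul_one]
      exact sum_congr rfl fun k _ => mul_comm _ _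
    have h4 : (∑ k ∈ range (α + 1), ((α.choose k : ℕ) : K) •
        (((2 : ℕ) : K) • nG (k + 1) G1 + nG k G2)) (l.length + 1) (cns a (pad l)) =
        ((l.length : K) + 2) ^ α * (2 * ((l.length : K) + 1) * G1 (cns a (pad l)) +
          G2 (cns a (pad l))) := by
      rw [h3, Finset.sum_apply, Finset.sum_apply, sum_mul]
      apply sum_congr rfl
      intro k _
      simp only [Pi.smul_apply, Pi.add_apply, smul_eq_mul, nG, LinearMap.coe_mk, AddHom.coe_mk]
      push_cast
      ring
    rw [h4, hG1, hG2]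
    simp only [Finset.sum_apply, Pi.sub_apply, cns_zero, tl_cns]
    rw [mul_sum, mul_sum, ← sum_add_distrib, mul_sum]
    apply sum_congr rfl
    intro i _
    have h5 := Z_mul r i a
    rw [hs, hcc]
    push_cast
    linear_combination (-(c * xx r * Cc r ^ 2 * ((l.length : K) + 2) ^ α *
      gb r ((s - i) :: β) (pad l))) * h5

lemma UP_mono {w w' d d' : ℕ} (h : w ≤ w') (h' : d ≤ d') {f : ℕ → (ℕ → ℕ) → K}
    (hf : UP r w d f) : UP r w' d' f := by
  obtain ⟨g, hg, H⟩ := hf
  exact ⟨g, Fil_mono le_rfl h h' hg, H⟩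

lemma UP_Fil (h1 : 1 - r ≠ 0) (h2 : 1 + r ≠ 0) {z w d : ℕ} {f : ℕ → (ℕ → ℕ) → K}
    (hf : f ∈ Fil r z w d) : UP r (w + 3) (d + 2) f := by
  unfold Fil at hf
  induction hf using AddSubgroup.closure_induction with
  | mem f hf =>
    obtain ⟨α, β, p, e, c, hβ, hc, hw, hz, hd, rfl⟩ := hf
    match β, hβ with
    | s :: β, _ =>
      simp only [List.length_cons] at hd
      exact UP_mono (by omega) (by omega) (UP_gen h1 h2 hc)
  | zero =>
    refine ⟨0, zero_mem _, fun a l _ => ?_⟩
    have : sI l (fun l' => (0 : ℕ → (ℕ → ℕ) → K) (l.length + 2) (pad (mrg a l'))) = 0 := by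
      have := sI_mul l (0 : K) (fun _ => 0)
      simpa using this
    rw [this, mul_zero]
    rfl
  | add f f' _ _ hf hf' =>
    obtain ⟨g, hg, G⟩ := hf
    obtain ⟨g', hg', G'⟩ := hf'
    refine ⟨g + g', add_mem hg hg', fun a l h => ?_⟩
    have e1 : sI l (fun l' => (f + f') (l.length + 2) (pad (mrg a l'))) =
        sI l (fun l' => f (l.length + 2) (pad (mrg a l'))) +
        sI l (fun l' => f' (l.length + 2) (pad (mrg a l'))) := sI_add l _ _
    rw [e1, mul_add, G a l h, G' a l h]
    rfl
  | neg f _ hf =>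
    obtain ⟨g, hg, G⟩ := hf
    refine ⟨-g, neg_mem hg, fun a l h => ?_⟩
    have e1 : sI l (fun l' => (-f) (l.length + 2) (pad (mrg a l'))) =
        -sI l (fun l' => f (l.length + 2) (pad (mrg a l'))) := by
      have := sI_mul l (-1 : K) (fun l' => f (l.length + 2) (pad (mrg a l')))
      simpa using this
    rw [e1, mul_neg, G a l h]
    rfl

end

end Pool.Agent.LuckyDiag
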